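import Pool.Agent.W333.GF.Carl

/-!
A uniqueness theorem of Carlson type for functions on a half plane.
-/

set_option autoImplicit false

namespace Pool.Agent.Q183.DF

open Complex Filter Topology Set

/-- the denominator -/
noncomputable def cs (z : ℂ) : ℂ := Complex.cos (Real.pi * z)

theorem cs_diff : Differentiable ℂ cs := by
  unfold cs
  fun_prop

theorem cs_normSq (x y : ℝ) : ‖cs (x + y * I)‖ ^ 2 =
    Real.cos (Real.pi * x) ^ 2 + Real.sinh (Real.pi * y) ^ 2 := by
  have h1 : cs (x + y * I) = Complex.cos ((Real.pi * x : ℝ) + (Real.pi * y : ℝ) * I) := by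
    unfold cs
    congr 1
    push_cast
    ring
  rw [h1, Complex.cos_add_mul_I, ← Complex.ofReal_cos, ← Complex.ofReal_cosh, ← Complex.ofReal_sin,
    ← Complex.ofReal_sinh]
  have h2 : ((Real.cos (Real.pi * x) : ℝ) : ℂ) * (Real.cosh (Real.pi * y) : ℝ) -
      (Real.sin (Real.pi * x) : ℝ) * (Real.sinh (Real.pi * y) : ℝ) * I =
      ((Real.cos (Real.pi * x) * Real.cosh (Real.pi * y) : ℝ) : ℂ) +
        ((-(Real.sin (Real.pi * x) * Real.sinh (Real.pi * y)) : ℝ) : ℂ) * I := by
    push_cast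
    ring
  rw [h2, ← Complex.normSq_eq_norm_sq, Complex.normSq_add_mul_I]
  have h3 := Real.cosh_sq (Real.pi * y)
  have h4 := Real.sin_sq_add_cos_sq (Real.pi * x)
  have h5 : Real.sin (Real.pi * x) ^ 2 = 1 - Real.cos (Real.pi * x) ^ 2 := by linarith
  calc (Real.cos (Real.pi * x) * Real.cosh (Real.pi * y)) ^ 2 +
      (-(Real.sin (Real.pi * x) * Real.sinh (Real.pi * y))) ^ 2 =
      Real.cos (Real.pi * x) ^ 2 * Real.cosh (Real.pi * y) ^ 2 +
        Real.sin (Real.pi * x) ^ 2 * Real.sinh (Real.pi * y) ^ 2 := by ring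
    _ = _ := by
      rw [h3, h5]
      ring


theorem cs_normSq' (z : ℂ) : ‖cs z‖ ^ 2 =
    Real.cos (Real.pi * z.re) ^ 2 + Real.sinh (Real.pi * z.im) ^ 2 := by
  rw [← cs_normSq, Complex.re_add_im]

theorem cs_zero {z : ℂ} (h : cs z = 0) : ∃ k : ℤ, z = k + 1 / 2 := by
  unfold cs at h
  obtain ⟨k, hk⟩ := Complex.cos_eq_zero_iff.1 h
  refine ⟨k, ?_⟩
  have hpi : (Real.pi : ℂ) ≠ 0 := by exact_mod_cast Real.pi_pos.ne'
  have h1 : (Real.pi : ℂ) * z = Real.pi * (k + 1 / 2) := by
    rw [hk]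
    ring
  exact mul_left_cancel₀ hpi h1

theorem cs_deriv (z : ℂ) : deriv cs z = -(Real.pi * Complex.sin (Real.pi * z)) := by
  have h1 : HasDerivAt cs (-Complex.sin (Real.pi * z) * (Real.pi * 1)) z := by
    unfold cs
    exact ((hasDerivAt_id z).const_mul (Real.pi : ℂ)).ccos
  rw [h1.deriv]
  ring

theorem cs_deriv_ne {z : ℂ} (h : cs z = 0) : deriv cs z ≠ 0 := by
  rw [cs_deriv]
  have hpi : (Real.pi : ℂ) ≠ 0 := by exact_mod_cast Real.pi_pos.ne'
  refine neg_ne_zero.2 (mul_ne_zero hpi ?_)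
  intro h1
  have h2 := Complex.sin_sq_add_cos_sq (Real.pi * z)
  unfold cs at h
  rw [h1, h] at h2
  norm_num at h2

/-- the quotient by the cosine -/
noncomputable def qt (h : ℂ → ℂ) (z : ℂ) : ℂ := by
  classical
  exact if cs z = 0 then deriv h z / deriv cs z else h z / cs z

theorem qt_of_ne {h : ℂ → ℂ} {z : ℂ} (hz : cs z ≠ 0) : qt h z = h z / cs z := by
  unfold qt
  rw [if_neg hz]

theorem an_dslope {h : ℂ → ℂ} {z : ℂ} (hh : AnalyticAt ℂ h z) : AnalyticAt ℂ (dslope h z) z := by
  obtain ⟨p, hp⟩ := hh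
  exact ⟨_, hp.has_fpower_series_dslope_fslope⟩

theorem qt_diff {h : ℂ → ℂ} {z : ℂ} (hh : AnalyticAt ℂ h z) (h0 : cs z = 0 → h z = 0) :
    DifferentiableAt ℂ (qt h) z := by
  by_cases hz : cs z = 0
  · have h1 := an_dslope hh
    have h2 := an_dslope (cs_diff.analyticAt z)
    have h3 : dslope cs z z ≠ 0 := by
      rw [dslope_same]
      exact cs_deriv_ne hz
    have h4 : ∀ᶠ w in 𝓝 z, dslope cs z w ≠ 0 := h2.continuousAt.eventually_ne h3
    have h5 : qt h =ᶠ[𝓝 z] fun w => dslope h z w / dslope cs z w := by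
      filter_upwards [h4] with w hw
      by_cases hwz : w = z
      · subst hwz
        rw [dslope_same, dslope_same]
        unfold qt
        rw [if_pos hz]
      · have e1 : cs w = (w - z) * dslope cs z w := by
          have := sub_smul_dslope cs z w
          rw [hz, sub_zero, smul_eq_mul] at this
          exact this.symm
        have e2 : h w = (w - z) * dslope h z w := by
          have := sub_smul_dslope h z w
          rw [h0 hz, sub_zero, smul_eq_mul] at this
          exact this.symm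
        have e3 : w - z ≠ 0 := sub_ne_zero.2 hwz
        rw [qt_of_ne (by rw [e1]; exact mul_ne_zero e3 hw), e1, e2, mul_div_mul_left _ _ e3]
    exact (h1.differentiableAt.div h2.differentiableAt h3).congr_of_eventuallyEq h5
  · have h1 : ∀ᶠ w in 𝓝 z, cs w ≠ 0 := cs_diff.continuous.continuousAt.eventually_ne hz
    have h2 : qt h =ᶠ[𝓝 z] fun w => h w / cs w := by
      filter_upwards [h1] with w hw
      exact qt_of_ne hw
    exact (hh.differentiableAt.div cs_diff.differentiableAt hz).congr_of_eventuallyEq h2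

theorem cs_ge_one {z : ℂ} (h : Real.cos (Real.pi * z.re) ^ 2 = 1 ∨ 1 ≤ |z.im|) : 1 ≤ ‖cs z‖ := by
  have h1 := cs_normSq' z
  have h2 : 1 ≤ ‖cs z‖ ^ 2 := by
    rw [h1]
    rcases h with h | h
    · rw [h]
      nlinarith [sq_nonneg (Real.sinh (Real.pi * z.im))]
    · have h3 : 1 ≤ Real.sinh (Real.pi * z.im) ^ 2 := by
        have h4 : Real.sinh (Real.pi * z.im) ^ 2 = Real.sinh (Real.pi * |z.im|) ^ 2 := by
          rcases abs_cases z.im with ⟨h5, -⟩ | ⟨h5, -⟩
          · rw [h5]
          · rw [h5, mul_neg, Real.sinh_neg, neg_sq]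
        rw [h4]
        have h5 : 1 ≤ Real.pi * |z.im| := by nlinarith [Real.pi_gt_three]
        have h6 : Real.pi * |z.im| ≤ Real.sinh (Real.pi * |z.im|) :=
          Real.self_le_sinh_iff.2 (by linarith)
        nlinarith
      nlinarith [sq_nonneg (Real.cos (Real.pi * z.re))]
  nlinarith [norm_nonneg (cs z)]

/-- bound near the zeros of the cosine -/
theorem qt_bound {h : ℂ → ℂ} {A C : ℝ} (hA : 0 ≤ A) (hC : 0 ≤ C)
    (hh : ∀ z : ℂ, 0 ≤ z.re → DifferentiableAt ℂ (qt h) z)
    (hb : ∀ z : ℂ, 0 ≤ z.re → ‖h z‖ ≤ C * Real.exp (A * z.re + |z.im|)) (z : ℂ) (hz : 0 ≤ z.re) :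
    ‖qt h z‖ ≤ C * Real.exp (A * (z.re + 1) + |z.im| + 1) := by
  have hgood : ∀ w : ℂ, 0 ≤ w.re → (Real.cos (Real.pi * w.re) ^ 2 = 1 ∨ 1 ≤ |w.im|) →
      ‖qt h w‖ ≤ C * Real.exp (A * w.re + |w.im|) := by
    intro w hw h1
    have h2 := cs_ge_one h1
    have h3 : cs w ≠ 0 := by
      intro h0
      rw [h0, norm_zero] at h2
      linarith
    rw [qt_of_ne h3, norm_div]
    exact (div_le_self (norm_nonneg _) h2).trans (hb w hw)
  by_cases him : 1 ≤ |z.im|
  · refine (hgood z hz (Or.inr him)).trans ?_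
    refine mul_le_mul_of_nonneg_left (Real.exp_le_exp.2 ?_) hC
    nlinarith
  · push Not at him
    set n : ℕ := ⌊z.re⌋₊ with hn
    have h1 : (n : ℝ) ≤ z.re := Nat.floor_le hz
    have h2 : z.re < n + 1 := Nat.lt_floor_add_one _
    set U : Set ℂ := Ioo (n : ℝ) (n + 1) ×ℂ Ioo (-1 : ℝ) 1 with hU
    have hUo : IsOpen U := isOpen_Ioo.reProdIm isOpen_Ioo
    have hcl : closure U = Icc (n : ℝ) (n + 1) ×ℂ Icc (-1 : ℝ) 1 := by
      rw [hU, Complex.closure_reProdIm, closure_Ioo (by simp), closure_Ioo (by norm_num)]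
    have hre : ∀ w ∈ closure U, (n : ℝ) ≤ w.re ∧ w.re ≤ n + 1 ∧ -1 ≤ w.im ∧ w.im ≤ 1 := by
      intro w hw
      rw [hcl, Complex.mem_reProdIm] at hw
      exact ⟨hw.1.1, hw.1.2, hw.2.1, hw.2.2⟩
    have hn0 : (0 : ℝ) ≤ n := Nat.cast_nonneg n
    have hbd : Bornology.IsBounded U := by
      refine (Metric.isBounded_closedBall (x := (0 : ℂ)) (r := (n : ℝ) + 2)).subset ?_
      intro w hw
      have h3 := hre w (subset_closure hw)
      rw [Metric.mem_closedBall, dist_zero_right]
      have h4 := Complex.norm_le_abs_re_add_abs_im w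
      have h5 : |w.re| ≤ n + 1 := abs_le.2 ⟨by linarith [h3.1], h3.2.1⟩
      have h6 : |w.im| ≤ 1 := abs_le.2 ⟨h3.2.2.1, h3.2.2.2⟩
      linarith
    have hdc : DiffContOnCl ℂ (qt h) U := by
      refine ⟨fun w hw => (hh w ?_).differentiableWithinAt, fun w hw =>
        (hh w ?_).continuousAt.continuousWithinAt⟩
      · linarith [(hre w (subset_closure hw)).1]
      · linarith [(hre w hw).1]
    have hfr : ∀ w ∈ frontier U, ‖qt h w‖ ≤ C * Real.exp (A * (n + 1) + 1) := by
      intro w hw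
      have h3 : w ∈ closure U := frontier_subset_closure hw
      have h4 := hre w h3
      have h5 : w ∉ U := by
        rw [hUo.frontier_eq] at hw
        exact hw.2
      refine (hgood w (by linarith [h4.1]) ?_).trans ?_
      · by_contra hcon
        push Not at hcon
        apply h5
        rw [hU, Complex.mem_reProdIm]
        refine ⟨⟨lt_of_le_of_ne h4.1 ?_, lt_of_le_of_ne h4.2.1 ?_⟩, abs_lt.1 hcon.2⟩
        · intro h6
          apply hcon.1
          rw [← h6]
          have := Real.cos_nat_mul_pi n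
          rw [mul_comm, this, ← pow_mul, mul_comm n 2, pow_mul]
          norm_num
        · intro h6
          apply hcon.1
          rw [h6]
          have := Real.cos_nat_mul_pi (n + 1)
          push_cast at this
          rw [mul_comm, this, ← pow_mul, mul_comm (n + 1) 2, pow_mul]
          norm_num
      · have h6 : |w.im| ≤ 1 := abs_le.2 ⟨h4.2.2.1, h4.2.2.2⟩
        have h7 := mul_le_mul_of_nonneg_left h4.2.1 hA
        gcongr
    have h3 := Complex.norm_le_of_forall_mem_frontier_norm_le hbd hdc hfr (z := z) (by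
      rw [hcl, Complex.mem_reProdIm]
      exact ⟨⟨h1, h2.le⟩, abs_le.1 him.le⟩)
    refine h3.trans ?_
    have h4 := mul_le_mul_of_nonneg_left h1 hA
    have h5 := abs_nonneg z.im
    have h6 : A * (n + 1) + 1 ≤ A * (z.re + 1) + |z.im| + 1 := by nlinarith
    exact mul_le_mul_of_nonneg_left (Real.exp_le_exp.2 h6) hC

/-- **Uniqueness.** A holomorphic function on a half plane of small growth in the imaginary
direction which vanishes along a sequence with step one is zero. -/
theorem uniq_half {ρ : ℝ} {g : ℂ → ℂ} (hg : AnalyticOnNhd ℂ g {z | ρ < z.re}) {A C : ℝ}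
    (hb : ∀ z : ℂ, ρ + 1 ≤ z.re → ‖g z‖ ≤ C * Real.exp (A * |z.re| + |z.im|)) (z0 : ℂ)
    (h0 : ∀ᶠ m : ℕ in atTop, g (z0 + m) = 0) : ∀ z, ρ < z.re → g z = 0 := by
  obtain ⟨m1, hm1⟩ := eventually_atTop.1 h0
  obtain ⟨m2, hm2⟩ := exists_nat_ge (ρ + 2 - z0.re)
  set m0 := max m1 m2 with hm0
  have hm0' : ρ + 2 ≤ z0.re + m0 := by
    have : (m2 : ℝ) ≤ m0 := by exact_mod_cast le_max_right _ _
    linarith
  set w0 : ℂ := z0 + m0 - 1 / 2 with hw0
  have hw0re : w0.re = z0.re + m0 - 1 / 2 := by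
    simp [hw0]
  have hw0ρ : ρ + 1 ≤ w0.re := by rw [hw0re]; linarith
  have hC : 0 ≤ C := by
    have h1 := (norm_nonneg _).trans (hb w0 hw0ρ)
    by_contra hcon
    push Not at hcon
    have := mul_neg_of_neg_of_pos hcon (Real.exp_pos (A * |w0.re| + |w0.im|))
    linarith
  set h : ℂ → ℂ := fun z => g (z + w0) with hh
  have hhan : ∀ z : ℂ, -1 < z.re → AnalyticAt ℂ h z := by
    intro z hz
    have h1 : AnalyticAt ℂ g (z + w0) := hg _ (by
      change ρ < (z + w0).re
      rw [Complex.add_re]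
      linarith)
    exact AnalyticAt.fun_comp h1 (by fun_prop)
  have hzero : ∀ z : ℂ, -(1 / 2) < z.re → cs z = 0 → h z = 0 := by
    intro z hz hcz
    obtain ⟨k, hk⟩ := cs_zero hcz
    have h1 : z.re = k + 1 / 2 := by
      rw [hk]
      simp
    have h2 : (-1 : ℝ) < k := by rw [h1] at hz; linarith
    have h3 : 0 ≤ k := by
      have : (-1 : ℤ) < k := by exact_mod_cast h2
      omega
    obtain ⟨n, rfl⟩ := Int.eq_ofNat_of_zero_le h3
    have h4 : z + w0 = z0 + ((m0 + n : ℕ) : ℂ) := by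
      rw [hk, hw0]
      push_cast
      ring
    change g (z + w0) = 0
    rw [h4]
    exact hm1 _ ((le_max_left _ _).trans (Nat.le_add_right _ _))
  have hqd : ∀ z : ℂ, 0 ≤ z.re → DifferentiableAt ℂ (qt h) z := fun z hz =>
    qt_diff (hhan z (by linarith)) (hzero z (by linarith))
  set C1 := C * Real.exp (|A| * |w0.re| + |w0.im|) with hC1
  have hC10 : 0 ≤ C1 := by positivity
  have hhb : ∀ z : ℂ, 0 ≤ z.re → ‖h z‖ ≤ C1 * Real.exp (|A| * z.re + |z.im|) := by
    intro z hz
    refine (hb (z + w0) (by rw [Complex.add_re]; linarith)).trans ?_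
    rw [hC1, mul_assoc, ← Real.exp_add]
    refine mul_le_mul_of_nonneg_left (Real.exp_le_exp.2 ?_) hC
    rw [Complex.add_re, Complex.add_im]
    have h1 : A * |z.re + w0.re| ≤ |A| * (z.re + |w0.re|) := by
      calc A * |z.re + w0.re| ≤ |A| * |z.re + w0.re| :=
            mul_le_mul_of_nonneg_right (le_abs_self A) (abs_nonneg _)
        _ ≤ |A| * (z.re + |w0.re|) := by
            refine mul_le_mul_of_nonneg_left ?_ (abs_nonneg A)
            refine (abs_add_le _ _).trans ?_
            rw [abs_of_nonneg hz]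
    have h2 := abs_add_le z.im w0.im
    nlinarith
  have hqb := qt_bound (abs_nonneg A) hC10 hqd hhb
  -- the boundary
  have hbd : ∀ y : ℝ, ‖qt h (y * I)‖ ≤ 2 * C1 * Real.exp (-(2 * |y|)) := by
    intro y
    have h1 : ‖cs (y * I)‖ ^ 2 = Real.cosh (Real.pi * y) ^ 2 := by
      have := cs_normSq 0 y
      rw [Complex.ofReal_zero, zero_add] at this
      rw [this, mul_zero, Real.cos_zero, Real.cosh_sq]
      ring
    have h2 : ‖cs (y * I)‖ = Real.cosh (Real.pi * y) := by
      have h3 := Real.cosh_pos (Real.pi * y)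
      nlinarith [norm_nonneg (cs (y * I)), sq_nonneg (‖cs (y * I)‖ - Real.cosh (Real.pi * y))]
    have h3 : cs (y * I) ≠ 0 := by
      intro h4
      rw [h4, norm_zero] at h2
      linarith [Real.cosh_pos (Real.pi * y)]
    have h4 : Real.exp (3 * |y|) / 2 ≤ Real.cosh (Real.pi * y) := by
      have h5 : Real.cosh (Real.pi * y) = Real.cosh (Real.pi * |y|) := by
        rw [← Real.cosh_abs, abs_mul, abs_of_pos Real.pi_pos]
      rw [h5, Real.cosh_eq]
      have h6 : Real.exp (3 * |y|) ≤ Real.exp (Real.pi * |y|) :=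
        Real.exp_le_exp.2 (mul_le_mul_of_nonneg_right Real.pi_gt_three.le (abs_nonneg y))
      have h7 := Real.exp_pos (-(Real.pi * |y|))
      linarith
    have h5 := hhb (y * I) (by simp)
    have h6 : ((y : ℂ) * I).im = y := by simp
    have h7 : ((y : ℂ) * I).re = 0 := by simp
    rw [h6, h7, mul_zero, zero_add] at h5
    rw [qt_of_ne h3, norm_div, h2, div_le_iff₀ (Real.cosh_pos _)]
    calc ‖h (y * I)‖ ≤ C1 * Real.exp |y| := h5
      _ = 2 * C1 * Real.exp (-(2 * |y|)) * (Real.exp (3 * |y|) / 2) := by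
          have : Real.exp |y| = Real.exp (-(2 * |y|)) * Real.exp (3 * |y|) := by
            rw [← Real.exp_add]
            congr 1
            ring
          rw [this]
          ring
      _ ≤ 2 * C1 * Real.exp (-(2 * |y|)) * Real.cosh (Real.pi * y) :=
          mul_le_mul_of_nonneg_left h4 (by positivity)
  set C2 := C1 * Real.exp (|A| + 1) with hC2
  set C3 := 2 * C1 + C2 + (|A| + 1) with hC3
  have hC20 : 0 ≤ C2 := by positivity
  have hA0 := abs_nonneg A
  have hq0 : ∀ z : ℂ, 0 ≤ z.re → qt h z = 0 := by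
    refine Pool.Agent.W333.GF.carl (qt h) C3 2 (-2) (by norm_num) ?_ ?_ ?_ ?_ ?_
    · intro z hz
      exact (hqd z (le_of_lt hz)).differentiableWithinAt
    · intro z hz
      exact (hqd z hz).continuousAt.continuousWithinAt
    · intro z hz
      refine (hqb z hz).trans ?_
      have h1 : z.re ≤ ‖z‖ := Complex.re_le_norm z
      have h2 : |z.im| ≤ ‖z‖ := Complex.abs_im_le_norm z
      have h3 : Real.exp (|A| * (z.re + 1) + |z.im| + 1) ≤
          Real.exp (|A| + 1) * Real.exp (C3 * ‖z‖) := by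
        rw [← Real.exp_add]
        apply Real.exp_le_exp.2
        have h4 : (|A| + 1) * ‖z‖ ≤ C3 * ‖z‖ :=
          mul_le_mul_of_nonneg_right (by rw [hC3]; linarith) (norm_nonneg z)
        have h5 := mul_le_mul_of_nonneg_left h1 hA0
        nlinarith
      calc C1 * Real.exp (|A| * (z.re + 1) + |z.im| + 1) ≤
            C1 * (Real.exp (|A| + 1) * Real.exp (C3 * ‖z‖)) := mul_le_mul_of_nonneg_left h3 hC10
        _ = C2 * Real.exp (C3 * ‖z‖) := by rw [hC2]; ring
        _ ≤ C3 * Real.exp (C3 * ‖z‖) :=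
            mul_le_mul_of_nonneg_right (by rw [hC3]; linarith) (Real.exp_pos _).le
    · intro y hy
      refine (hbd y).trans ?_
      rw [abs_of_nonneg hy]
      exact mul_le_mul_of_nonneg_right (by rw [hC3]; linarith) (Real.exp_pos _).le
    · intro y hy
      have h1 := hbd (-y)
      rw [abs_neg, abs_of_nonneg hy, Complex.ofReal_neg, neg_mul] at h1
      rw [neg_mul]
      exact h1.trans (mul_le_mul_of_nonneg_right (by rw [hC3]; linarith) (Real.exp_pos _).le)
  have hh0 : ∀ z : ℂ, 0 ≤ z.re → h z = 0 := by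
    intro z hz
    by_cases hcz : cs z = 0
    · exact hzero z (by linarith) hcz
    · have h1 := hq0 z hz
      rw [qt_of_ne hcz, div_eq_zero_iff] at h1
      exact h1.resolve_right hcz
  have hpre : IsPreconnected {z : ℂ | ρ < z.re} := (convex_halfSpace_re_gt ρ).isPreconnected
  have hev : g =ᶠ[𝓝 (w0 + 1)] 0 := by
    have h1 : IsOpen {z : ℂ | w0.re < z.re} := isOpen_lt continuous_const Complex.continuous_re
    have h2 : w0 + 1 ∈ {z : ℂ | w0.re < z.re} := by
      change w0.re < (w0 + 1).re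
      simp
    filter_upwards [h1.mem_nhds h2] with z hz
    have h3 := hh0 (z - w0) (by
      rw [Complex.sub_re]
      have : w0.re < z.re := hz
      linarith)
    change g (z - w0 + w0) = 0 at h3
    rwa [sub_add_cancel] at h3
  intro z hz
  exact hg.eqOn_zero_of_preconnected_of_eventuallyEq_zero hpre (by
    change ρ < (w0 + 1).re
    rw [Complex.add_re, Complex.one_re]
    linarith) hev hz

end Pool.Agent.Q183.DF
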