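import Pool.Agent.Q183.DF.Log
import Pool.Agent.TH143.Conv

/-!
Morphisms from the multiplicative group, composed with the exponential function, and difference
equations.
-/

set_option autoImplicit false

namespace Pool.Agent.Q183.DF

open MvPolynomial Filter Topology Set Metric FF Pool.Agent.TH143 Pool.Agent.TH143.GT
  Pool.Agent.W602.GT Pool.Agent.W603.BP Pool.Agent.W603.GR Pool.Agent.W603.BPR Pool.Agent.W603.PV
  Pool.Agent.TH143.DE Pool.Agent.TH8.QD

theorem diffEq_exp (P : Polynomial ℂ) : DiffEq (fun z => P.eval (Complex.exp z)) := by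
  classical
  set d := P.natDegree with hd
  set χ : Polynomial ℂ := ∏ i ∈ Finset.range (d + 1),
    (Polynomial.X - Polynomial.C (Complex.exp i)) with hχ
  have hmon : χ.Monic := Polynomial.monic_prod_of_monic _ _ fun i _ => Polynomial.monic_X_sub_C _
  have hdeg : χ.natDegree = d + 1 := by
    rw [hχ, Polynomial.natDegree_prod_of_monic _ _ fun i _ => Polynomial.monic_X_sub_C _]
    simp
  have hroot : ∀ i ≤ d, χ.eval (Complex.exp i) = 0 := by
    intro i hi
    rw [hχ, Polynomial.eval_prod]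
    exact Finset.prod_eq_zero (Finset.mem_range.2 (Nat.lt_succ_of_le hi)) (by simp)
  refine ⟨d + 1, fun k _ => χ.coeff k, fun k => MeromorphicAt.const _ _, ⟨d + 1, le_rfl, ?_⟩, 0,
    fun z _ => ?_⟩
  · intro h0
    have h0' : ∀ᶠ w in 𝓝[≠] (0 : ℂ), χ.coeff (d + 1) = 0 := h0
    obtain ⟨w, h1⟩ := h0'.exists
    rw [← hdeg, hmon.coeff_natDegree] at h1
    exact one_ne_zero h1
  · have h1 : ∀ k : ℕ, P.eval (Complex.exp (z + k)) = ∑ i ∈ Finset.range (d + 1),
        P.coeff i * Complex.exp z ^ i * Complex.exp i ^ k := by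
      intro k
      rw [Polynomial.eval_eq_sum_range]
      refine Finset.sum_congr rfl fun i _ => ?_
      have e1 : Complex.exp (z + k) = Complex.exp z * Complex.exp k := Complex.exp_add _ _
      have e2 : Complex.exp (i : ℂ) ^ k = Complex.exp (k : ℂ) ^ i := by
        rw [← Complex.exp_nat_mul, ← Complex.exp_nat_mul, mul_comm]
      rw [e1, mul_pow, e2]
      ring
    simp only [h1, Finset.mul_sum]
    rw [Finset.sum_comm]
    refine Finset.sum_eq_zero fun i hi => ?_
    have h2 := hroot i (Nat.lt_succ_iff.1 (Finset.mem_range.1 hi))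
    rw [Polynomial.eval_eq_sum_range, hdeg] at h2
    calc ∑ k ∈ Finset.range (d + 1 + 1), χ.coeff k * (P.coeff i * Complex.exp z ^ i *
          Complex.exp i ^ k) = P.coeff i * Complex.exp z ^ i *
          ∑ k ∈ Finset.range (d + 1 + 1), χ.coeff k * Complex.exp i ^ k := by
          rw [Finset.mul_sum]
          refine Finset.sum_congr rfl fun k _ => ?_
          ring
      _ = 0 := by rw [h2, mul_zero]

theorem exp_bound (P : Polynomial ℂ) : ∃ C : ℝ, 0 ≤ C ∧ ∀ (z : ℂ) (T : ℝ), z.re ≤ T → 0 ≤ T →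
    ‖P.eval (Complex.exp z)‖ ≤ C * Real.exp (P.natDegree * T) := by
  refine ⟨∑ i ∈ Finset.range (P.natDegree + 1), ‖P.coeff i‖,
    Finset.sum_nonneg fun i _ => norm_nonneg _, fun z T hz hT => ?_⟩
  rw [Polynomial.eval_eq_sum_range, Finset.sum_mul]
  refine norm_sum_le_of_le _ fun i hi => ?_
  rw [norm_mul, norm_pow, Complex.norm_exp, ← Real.exp_nat_mul]
  refine mul_le_mul_of_nonneg_left (Real.exp_le_exp.2 ?_) (norm_nonneg _)
  have h1 : (i : ℝ) ≤ P.natDegree := by
    exact_mod_cast Nat.lt_succ_iff.1 (Finset.mem_range.1 hi)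
  have h2 : (0 : ℝ) ≤ i := Nat.cast_nonneg i
  calc (i : ℝ) * z.re ≤ i * T := mul_le_mul_of_nonneg_left hz h2
    _ ≤ P.natDegree * T := mul_le_mul_of_nonneg_right h1 hT

theorem slim_exp (P : Polynomial ℂ) : SlimR (fun z => P.eval (Complex.exp z)) := by
  obtain ⟨C, hC, h⟩ := exp_bound P
  refine ⟨0, P.natDegree, fun ε hε => ⟨C, fun z _ => (h z |z.re| (le_abs_self _)
    (abs_nonneg _)).trans ?_⟩⟩
  refine mul_le_mul_of_nonneg_left (Real.exp_le_exp.2 ?_) hC
  have : 0 ≤ ε * |z.im| := by positivity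
  linarith

theorem fin_exp (P : Polynomial ℂ) : FinOrd (fun z => P.eval (Complex.exp z)) := by
  obtain ⟨C, hC, h⟩ := exp_bound P
  refine ⟨1, 1, C + P.natDegree, fun z hz => (h z ‖z‖ (Complex.re_le_norm z)
    (norm_nonneg z)).trans ?_⟩
  rw [pow_one, add_mul, Real.exp_add]
  refine mul_le_mul_of_nonneg_right ?_ (Real.exp_pos _).le
  have := Real.add_one_le_exp (C * ‖z‖)
  nlinarith

variable {N : ℕ}

theorem diffEntire_exp (P : Fin (N + 1) → Polynomial ℂ) :
    DiffEntire (fun z j => (P j).eval (Complex.exp z)) :=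
  ⟨fun j => diffEq_exp (P j), fun j => slim_exp (P j)⟩

theorem diffPunct_exp (Q : MvPolynomial (Fin (N + 1)) ℂ) (P : Fin (N + 1) → Polynomial ℂ) :
    DiffPunct Q (fun w j => (P j).eval (Complex.exp w⁻¹)) := by
  refine ⟨fun j => ?_, fun j => ?_, Or.inl fun j => ?_⟩
  · simpa using diffEq_exp (P j)
  · simpa using slim_exp (P j)
  · simpa using fin_exp (P j)

/-- rational curves -/
theorem gm_of_extends {ι : Type} (F : ι → MvPolynomial (Fin (N + 1)) ℂ)
    (hF : ∀ i, ∃ d, (F i).IsHomogeneous d)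
    (Q : MvPolynomial (Fin (N + 1)) ℂ) {e : ℕ} (hQ : Q.IsHomogeneous e)
    (f : ℂ → Fin (N + 1) → ℂ) (hf : ∀ j, Differentiable ℂ (fun w => f w j))
    (hne : ∀ w, f w ≠ 0) (hX : ∀ w, On F Q (f w)) (hext : Extends (fun w => f w⁻¹))
    (hnc : ∃ z w j k, f z j * f w k ≠ f z k * f w j) (z : ℂ) :
    ∃ P, IsGmCurve F Q P ∧ Through P (f z) := by
  obtain ⟨u, p, hu, hfp⟩ := rational_of_extends f hf hne hext
  let P : Fin (N + 1) → Polynomial ℂ := fun j =>
    (p j).comp (Polynomial.C (z - 1) + Polynomial.X)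
  have hPe : ∀ t j, (P j).eval t = (p j).eval (z - 1 + t) := fun t j => by
    simp only [P, Polynomial.eval_comp, Polynomial.eval_add, Polynomial.eval_C,
      Polynomial.eval_X]
  have hfu : ∀ x, f x = fun j => u x * (p j).eval x := fun x => funext (hfp x)
  have hpne : ∀ x, ∃ j, (p j).eval x ≠ 0 := by
    intro x
    obtain ⟨j, hj⟩ := Function.ne_iff.mp (hne x)
    refine ⟨j, fun h0 => hj ?_⟩
    rw [hfp, h0, mul_zero]
    rfl
  have hpX : ∀ x, On F Q (fun j => (p j).eval x) := by
    intro x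
    obtain ⟨h1, h2⟩ := hX x
    refine ⟨fun i => ?_, ?_⟩
    · obtain ⟨d, hd⟩ := hF i
      have h3 := h1 i
      rw [hfu, Pool.Agent.H159R3.Exp.eval_smul_homog hd] at h3
      exact (mul_eq_zero.mp h3).resolve_left (pow_ne_zero _ (hu x))
    · intro h0
      apply h2
      rw [hfu, Pool.Agent.H159R3.Exp.eval_smul_homog hQ, h0, mul_zero]
  refine ⟨P, ⟨fun t _ => ?_, fun t _ => ?_, ?_⟩, ?_⟩
  · obtain ⟨j, hj⟩ := hpne (z - 1 + t)
    exact ⟨j, by rw [hPe]; exact hj⟩
  · have := hpX (z - 1 + t)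
    rw [show (fun j => (P j).eval t) = fun j => (p j).eval (z - 1 + t) from funext (hPe t)]
    exact this
  · by_contra hcon
    push Not at hcon
    obtain ⟨x, y, j, k, hxy⟩ := hnc
    apply hxy
    have h1 : ∀ s t : ℂ, (p j).eval s * (p k).eval t = (p k).eval s * (p j).eval t := by
      have h2 : ∀ s : ℂ, s ≠ z - 1 → ∀ t : ℂ, t ≠ z - 1 →
          (p j).eval s * (p k).eval t = (p k).eval s * (p j).eval t := by
        intro s hs t ht
        have h3 := hcon (s - (z - 1)) (t - (z - 1)) (sub_ne_zero.mpr hs) (sub_ne_zero.mpr ht) j k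
        rw [hPe, hPe, hPe, hPe] at h3
        simpa using h3
      have h4 : ∀ s : ℂ, s ≠ z - 1 → ∀ t : ℂ,
          (p j).eval s * (p k).eval t = (p k).eval s * (p j).eval t := by
        intro s hs
        have hc1 : Continuous fun t : ℂ => (p j).eval s * (p k).eval t := by fun_prop
        have hc2 : Continuous fun t : ℂ => (p k).eval s * (p j).eval t := by fun_prop
        have hd : Dense {t : ℂ | t ≠ z - 1} := dense_compl_singleton (z - 1)
        intro t
        exact congrFun (hc1.ext_on hd hc2 (fun t ht => h2 s hs t ht)) t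
      intro s t
      have hc1 : Continuous fun s : ℂ => (p j).eval s * (p k).eval t := by fun_prop
      have hc2 : Continuous fun s : ℂ => (p k).eval s * (p j).eval t := by fun_prop
      have hd : Dense {s : ℂ | s ≠ z - 1} := dense_compl_singleton (z - 1)
      exact congrFun (hc1.ext_on hd hc2 (fun s hs => h4 s hs t)) s
    rw [hfp, hfp, hfp, hfp]
    linear_combination u x * u y * h1 x y
  · refine ⟨1, (u z)⁻¹, one_ne_zero, inv_ne_zero (hu z), fun j => ?_⟩
    rw [hPe, hfp]
    have := hu z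
    field_simp
    simp

end Pool.Agent.Q183.DF
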