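import Pool.Agent.Q183.DF.Slim

/-!
Curves near infinity whose coordinates satisfy linear difference equations.
-/

set_option autoImplicit false

namespace Pool.Agent.Q183.DF

open MvPolynomial Filter Topology Set Metric FF Pool.Agent.TH143 Pool.Agent.TH143.GT
  Pool.Agent.W602.GT Pool.Agent.W603.BP Pool.Agent.W603.GR Pool.Agent.W603.BPR Pool.Agent.TH143.DE
  Pool.Agent.TH8.QD

theorem ev_inf {P : ℂ → Prop} :
    (∀ᶠ w in 𝓝[≠] (0 : ℂ), P w⁻¹) ↔ ∃ R : ℝ, ∀ z : ℂ, R < ‖z‖ → P z := by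
  rw [ev_iff]
  constructor
  · rintro ⟨δ, hδ, h⟩
    refine ⟨δ⁻¹, fun z hz => ?_⟩
    have := h z⁻¹ (inv_mem_PB hδ hz)
    rwa [inv_inv] at this
  · rintro ⟨R, h⟩
    have hR : 0 < max R 1 := lt_max_of_lt_right one_pos
    refine ⟨(max R 1)⁻¹, inv_pos.2 hR, fun w hw => h _ ?_⟩
    have h1 := inv_mem_Ext hw
    rw [inv_inv] at h1
    exact (le_max_left R 1).trans_lt h1

theorem hp_ext {ρ : ℝ} {R : ℝ} (h : R ≤ ρ) {z : ℂ} (hz : z ∈ HP ρ) : z ∈ Ext R :=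
  (h.trans_lt hz).trans_le (Complex.re_le_norm z)

/-- identity theorem near infinity -/
theorem zero_far {u : ℂ → ℂ} {R ρ : ℝ} (hR : 0 < R) (hu : AnalyticOnNhd ℂ u (Ext R))
    (h : ∀ z ∈ HP ρ, u z = 0) : ∀ z ∈ Ext R, u z = 0 := by
  set z1 : ℂ := ((max R ρ + 1 : ℝ) : ℂ) with hz1
  have h1 : z1 ∈ HP ρ := by
    change ρ < (((max R ρ + 1 : ℝ) : ℂ)).re
    rw [Complex.ofReal_re]
    linarith [le_max_right R ρ]
  have h2 : z1 ∈ Ext R := by
    change R < ‖((max R ρ + 1 : ℝ) : ℂ)‖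
    rw [Complex.norm_real, Real.norm_eq_abs]
    refine lt_of_lt_of_le ?_ (le_abs_self _)
    linarith [le_max_left R ρ]
  intro z hz
  exact hu.eqOn_zero_of_preconnected_of_eventuallyEq_zero (Ext_preconn hR) h2 (by
    filter_upwards [(HP_open ρ).mem_nhds h1] with w hw
    exact h w hw) hz

theorem an_pb {u : ℂ → ℂ} (hu : AnalyticOnNhd ℂ u (Ext 1)) :
    AnalyticOnNhd ℂ (fun w => u w⁻¹) (PB 1) := by
  intro w hw
  have h1 : AnalyticAt ℂ u w⁻¹ := hu _ (by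
    have := inv_mem_Ext hw
    rwa [inv_one] at this)
  exact AnalyticAt.comp (g := u) (f := fun w : ℂ => w⁻¹) h1 (analyticAt_inv hw.1)

theorem norm_inf (z0 : ℂ) : Tendsto (fun m : ℕ => ‖z0 + m‖) atTop atTop := by
  refine tendsto_atTop_mono (f := fun m : ℕ => (m : ℝ) - ‖z0‖) (fun m => ?_)
    (tendsto_atTop_add_const_right _ (-‖z0‖) tendsto_natCast_atTop_atTop)
  have := norm_sub_norm_le (m : ℂ) (-z0)
  rw [norm_neg, Complex.norm_natCast, sub_neg_eq_add, add_comm (m : ℂ) z0] at this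
  exact this

theorem iter_add (k : ℕ) (z : ℂ) : (fun z : ℂ => z + 1)^[k] z = z + k := by
  induction k with
  | zero => simp
  | succ k ih =>
    rw [Function.iterate_succ_apply', ih]
    push_cast
    ring

/-- The function `g` satisfies a linear difference equation `∑ a_k (z) g (z + k) = 0`, in a right
half plane, whose coefficients are meromorphic at infinity. -/
def DiffEq (g : ℂ → ℂ) : Prop :=
  ∃ (r : ℕ) (a : ℕ → ℂ → ℂ), (∀ k, MerI (a k)) ∧ (∃ k ≤ r, Nz (fun w => a k w⁻¹)) ∧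
    ∃ R : ℝ, ∀ z : ℂ, R < z.re → ∑ k ∈ Finset.range (r + 1), a k z * g (z + k) = 0

/-- The same with order one. -/
def DiffHyp (g : ℂ → ℂ) : Prop :=
  ∃ b : ℂ → ℂ, MerI b ∧ ∃ R : ℝ, ∀ z : ℂ, R < z.re → g (z + 1) = b z * g z

theorem mer_nz {a : ℂ → ℂ} (h : MerI a) (hn : Nz (fun w => a w⁻¹)) :
    ∃ R : ℝ, ∀ ρ, R ≤ ρ → ∃ x ∈ HP ρ, a x ≠ 0 := by
  obtain ⟨R, hR⟩ := mer_mem h
  refine ⟨max R 1, fun ρ hρ => ?_⟩
  by_contra hcon
  push Not at hcon
  apply hn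
  rw [ev_inf (P := fun z => a z = 0)]
  have hρ0 : 0 < ρ := one_pos.trans_le ((le_max_right R 1).trans hρ)
  exact ⟨ρ, zero_far hρ0 (hR ρ ((le_max_left R 1).trans hρ)).1 hcon⟩

theorem DiffEq.funEq {g : ℂ → ℂ} (h : DiffEq g) : ∃ R : ℝ, ∀ ρ, R ≤ ρ →
    FunEq (HP ρ) (fun z => z + 1) (merS ρ) g := by
  classical
  obtain ⟨r, a, ha, ⟨k, hk, hn⟩, R, hR⟩ := h
  obtain ⟨R1, hR1⟩ := mer_nz (ha k) hn
  choose R2 hR2 using fun k => mer_mem (ha k)
  have hsup : ∀ k ≤ r, R2 k ≤ ∑ k ∈ Finset.range (r + 1), |R2 k| := fun k hk =>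
    (le_abs_self _).trans (Finset.single_le_sum (f := fun k => |R2 k|) (fun i _ => abs_nonneg _)
      (Finset.mem_range.2 (Nat.lt_succ_of_le hk)))
  refine ⟨max (max R R1) (∑ k ∈ Finset.range (r + 1), |R2 k|), fun ρ hρ => ?_⟩
  have h1 : R ≤ ρ := ((le_max_left _ _).trans (le_max_left _ _)).trans hρ
  have h2 : R1 ≤ ρ := ((le_max_right _ _).trans (le_max_left _ _)).trans hρ
  have h3 := (le_max_right (max R R1) (∑ k ∈ Finset.range (r + 1), |R2 k|)).trans hρ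
  refine ⟨r, fun k => if k ≤ r then a k else 0, fun k => ?_, ⟨k, hk, ?_⟩, fun x hx => ?_⟩
  · change (if k ≤ r then a k else 0) ∈ merS ρ
    by_cases hkr : k ≤ r
    · rw [if_pos hkr]
      exact (hR2 k ρ ((hsup k hkr).trans h3)).2
    · rw [if_neg hkr]
      exact (merS ρ).zero_mem
  · obtain ⟨x, hx, hx0⟩ := hR1 ρ h2
    refine ⟨x, hx, ?_⟩
    change (if k ≤ r then a k else 0) x ≠ 0
    rw [if_pos hk]
    exact hx0
  · rw [← hR x (h1.trans_lt hx)]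
    refine Finset.sum_congr rfl fun i hi => ?_
    change (if i ≤ r then a i else 0) x * _ = _
    rw [if_pos (Nat.lt_succ_iff.1 (Finset.mem_range.1 hi)), iter_add]

/-- quotients which are algebraic over the functions meromorphic at infinity are meromorphic at
infinity -/
theorem mrel_of_algQ {u v : ℂ → ℂ} (hu : AnalyticOnNhd ℂ u (Ext 1))
    (hv : AnalyticOnNhd ℂ v (Ext 1)) (hn : Nz (fun w => v w⁻¹)) {ρ : ℝ} (hρ : 1 ≤ ρ) {s : ℕ}
    (h : AlgQ (HP ρ) (merS ρ) (fun x => u ((fun z => z + 1)^[s] x))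
      (fun x => v ((fun z => z + 1)^[s] x))) :
    MRel (fun w => u w⁻¹) (fun w => v w⁻¹) := by
  classical
  obtain ⟨D, c, hc, ⟨k0, hk0, x0, hx0, hcx⟩, hrel⟩ := h
  simp only [iter_add] at hrel
  choose R2 hR2 using fun k => mer_mem (hc k).2
  set R := max (∑ k ∈ Finset.range (D + 1), |R2 k|) ρ + s + 1 with hR
  have hR1 : 1 ≤ R := by
    have := le_max_right (∑ k ∈ Finset.range (D + 1), |R2 k|) ρ
    have h1 : (0 : ℝ) ≤ s := Nat.cast_nonneg s
    linarith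
  have hR0 : 0 < R := by linarith
  have hRk : ∀ k ≤ D, R2 k ≤ R := by
    intro k hk
    have h1 := (le_abs_self _).trans (Finset.single_le_sum (f := fun k => |R2 k|)
      (fun i _ => abs_nonneg _) (Finset.mem_range.2 (Nat.lt_succ_of_le hk)))
    have h2 := le_max_left (∑ k ∈ Finset.range (D + 1), |R2 k|) ρ
    have h3 : (0 : ℝ) ≤ s := Nat.cast_nonneg s
    linarith
  have hRs : ∀ z : ℂ, R < ‖z‖ → 1 < ‖z + s‖ := by
    intro z hz
    have h1 : ‖z‖ - ‖(s : ℂ)‖ ≤ ‖z + s‖ := by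
      have := norm_sub_norm_le z (-(s : ℂ))
      rwa [norm_neg, sub_neg_eq_add] at this
    rw [Complex.norm_natCast] at h1
    have := le_max_right (∑ k ∈ Finset.range (D + 1), |R2 k|) ρ
    linarith
  have han : AnalyticOnNhd ℂ (fun z => ∑ k ∈ Finset.range (D + 1),
      c k z * u (z + s) ^ k * v (z + s) ^ (D - k)) (Ext R) := by
    intro z hz
    have hz' : R < ‖z‖ := hz
    have e1 : AnalyticAt ℂ (fun z => u (z + s)) z :=
      AnalyticAt.fun_comp (hu _ (hRs z hz')) (by fun_prop)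
    have e2 : AnalyticAt ℂ (fun z => v (z + s)) z :=
      AnalyticAt.fun_comp (hv _ (hRs z hz')) (by fun_prop)
    refine Finset.analyticAt_fun_sum _ fun k hk => ?_
    have e3 := (hR2 k R (hRk k (Nat.lt_succ_iff.1 (Finset.mem_range.1 hk)))).1 z hz'
    exact (e3.fun_mul (e1.fun_pow k)).fun_mul (e2.fun_pow (D - k))
  have hall := zero_far hR0 han hrel
  refine mrel_of_alg (e := fun w => u w⁻¹) (e' := fun w => v w⁻¹) ?_ ?_ hn D
    (fun k w => c k (w⁻¹ - s)) (fun k => ?_) ⟨k0, hk0, ?_⟩ ?_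
  · exact on_pun one_pos (an_pb hu)
  · exact on_pun one_pos (an_pb hv)
  · have h5 : MerI (fun z => c k (z - s)) := by
      have := (hc k).2.affine one_ne_zero (-(s : ℂ))
      simpa [sub_eq_add_neg] using this
    exact h5
  · intro h0
    rw [ev_inf (P := fun z => c k0 (z - s) = 0)] at h0
    obtain ⟨R3, hR3⟩ := h0
    apply hcx
    refine (uniqAlg (ρ := ρ) (z0 := x0) hx0).uniq _ (hc k0).1 ?_ x0 hx0
    filter_upwards [(norm_inf (x0 + s)).eventually_gt_atTop R3] with m hm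
    have h1 := hR3 (x0 + s + m) hm
    have h2 : x0 + s + m - s = x0 + m := by ring
    rwa [h2] at h1
  · rw [ev_inf (P := fun z => ∑ k ∈ Finset.range (D + 1), c k (z - s) * u z ^ k * v z ^ (D - k) = 0)]
    refine ⟨R + s, fun z hz => ?_⟩
    have h1 := hall (z - s) (by
      change R < ‖z - s‖
      have := norm_sub_norm_le z (s : ℂ)
      rw [Complex.norm_natCast] at this
      linarith)
    simpa using h1

variable {N : ℕ} {K : Type} [Field K] [Algebra ℂ K] {w : ℕ} {y : Fin (N + 1) → K}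
  {Q : MvPolynomial (Fin (N + 1)) ℂ} {e : ℕ} {f : ℂ → Fin (N + 1) → ℂ}

/-- A curve near infinity given by linear difference equations, of small growth in the imaginary
direction. -/
structure DCurve (f : ℂ → Fin (N + 1) → ℂ) : Prop where
  an : ∀ j, AnalyticOnNhd ℂ (fun z => f z j) (Ext 1)
  eqn : ∀ j, DiffEq (fun z => f z j)
  slim : ∀ j, SlimR (fun z => f z j)

theorem DCurve.large (h : DCurve f) : ∃ R : ℝ, 1 ≤ R ∧ ∀ ρ, R ≤ ρ →
    (∀ j, (fun z => f z j) ∈ slimS ρ) ∧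
      ∀ j, FunEq (HP ρ) (fun z => z + 1) (merS ρ) (fun z => f z j) := by
  choose R1 hR1 using fun j => (h.eqn j).funEq
  choose R2 hR2 using fun j => slim_mem (h.slim j)
  have h1 : ∀ (R : Fin (N + 1) → ℝ) (j), R j ≤ ∑ j, |R j| := fun R j =>
    (le_abs_self _).trans (Finset.single_le_sum (f := fun j => |R j|) (fun i _ => abs_nonneg _)
      (Finset.mem_univ j))
  refine ⟨max 1 (max (∑ j, |R1 j|) (∑ j, |R2 j|)), le_max_left _ _, fun ρ hρ => ⟨fun j => ?_,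
    fun j => ?_⟩⟩
  · refine hR2 j ρ ((h1 R2 j).trans (((le_max_right _ _).trans (le_max_right _ _)).trans hρ)) ?_
    intro z hz
    exact h.an j z (hp_ext ((le_max_left _ _).trans hρ) hz)
  · exact hR1 j ρ ((h1 R1 j).trans (((le_max_left _ _).trans (le_max_right _ _)).trans hρ))

/-- the boundary form -/
theorem hyper_of {g : ℂ → ℂ} (h : DiffHyp g) : ∃ R : ℝ, ∀ ρ, R ≤ ρ → ∀ z0 : ℂ, ρ < z0.re →
    ∃ b ∈ fracB (merS ρ) (fun m : ℕ => z0 + m), ∀ᶠ m : ℕ in atTop,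
      g (z0 + (m + 1 : ℕ)) = b m * g (z0 + m) := by
  obtain ⟨b, hb, R, hR⟩ := h
  obtain ⟨R1, hR1⟩ := mer_mem hb
  refine ⟨max R R1, fun ρ hρ z0 hz0 => ⟨_, frac_mem (hR1 ρ ((le_max_right R R1).trans hρ)).2,
    Eventually.of_forall fun m => ?_⟩⟩
  have h1 := hR (z0 + m) (by
    rw [Complex.add_re, Complex.natCast_re]
    have : (0 : ℝ) ≤ m := Nat.cast_nonneg m
    linarith [le_max_left R R1])
  have h2 : z0 + ((m + 1 : ℕ) : ℂ) = z0 + m + 1 := by
    push_cast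
    ring
  rw [h2]
  exact h1

theorem eval_an_ext (h : DCurve f) (G : MvPolynomial (Fin (N + 1)) ℂ) :
    AnalyticOnNhd ℂ (fun z => eval (f z) G) (Ext 1) := eval_an' h.an G

theorem GenPt.hp (hy : GenPt f (Ext 1) K w y) (h : DCurve f) {ρ : ℝ} (hρ : 1 ≤ ρ) :
    GenPt f (HP ρ) K w y := by
  refine ⟨hy.ne, hy.gen, hy.dim, fun G hG => (hy.rel G hG).trans ?_⟩
  constructor
  · intro h0 z hz
    exact h0 z (hp_ext hρ hz)
  · intro h0
    exact zero_far one_pos (eval_an_ext h G) h0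

/-- **Flat quotients are meromorphic at infinity.** -/
theorem mrel_of_flat_diff (h : DCurve f) (hy : GenPt f (Ext 1) K w y) (hQe : Q.IsHomogeneous e)
    (hQ : ∀ z ∈ Ext 1, eval (f z) Q ≠ 0) (hQh : DiffHyp (fun z => eval (f z) Q))
    {D : ℕ} {g0 g1 : MvPolynomial (Fin (N + 1)) ℂ} (hg0 : g0.IsHomogeneous D)
    (hg1 : g1.IsHomogeneous D) (hn : W602.GT.val y g0 ≠ 0)
    (hall : AllFlat Q y (W602.GT.val y g1 / W602.GT.val y g0)) :
    MRel (fun w => eval (f w⁻¹) g1) (fun w => eval (f w⁻¹) g0) := by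
  obtain ⟨R, hR1, hR⟩ := h.large
  obtain ⟨R', hR'⟩ := hyper_of hQh
  set ρ := max R R' with hρ
  have hρ1 : 1 ≤ ρ := hR1.trans (le_max_left _ _)
  obtain ⟨hs, hfe⟩ := hR ρ (le_max_left _ _)
  set z0 : ℂ := ((ρ + 1 : ℝ) : ℂ) with hz0
  have hz0ρ : ρ < z0.re := by
    rw [hz0, Complex.ofReal_re]
    linarith
  obtain ⟨b, hb, hbe⟩ := hR' ρ (le_max_right _ _) z0 hz0ρ
  have hu := uniqAlg hz0ρ
  obtain ⟨s, hsA⟩ := hu.flat hs (GenPt.hp hy h hρ1) hfe hQe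
    ⟨Eventually.of_forall fun m => hQ _ (hp_ext hρ1 (hu.mem m)), b, hb, hbe⟩ hg0 hg1 hn hall
  refine mrel_of_algQ (eval_an_ext h g1) (eval_an_ext h g0) ?_ hρ1 hsA
  intro h0
  apply hn
  rw [hy.rel g0 ⟨D, hg0⟩]
  rw [ev_inf (P := fun z => eval (f z) g0 = 0)] at h0
  obtain ⟨R3, hR3⟩ := h0
  refine zero_far (ρ := max R3 0) one_pos (eval_an_ext h g0) fun z hz => hR3 z ?_
  exact (le_max_left R3 0).trans_lt (lt_of_lt_of_le hz (Complex.re_le_norm z))

/-- **Families of rational curves.** -/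
theorem fam_diff (h : DCurve f) (hy : GenPt f (Ext 1) K w y) (hQe : Q.IsHomogeneous e)
    (hne : ∀ z ∈ Ext 1, f z ≠ 0)
    (hQ : ∀ z ∈ Ext 1, eval (f z) Q ≠ 0) (hQh : DiffHyp (fun z => eval (f z) Q))
    (hext : ¬ Extends (fun w => f w⁻¹)) : ∃ r : K, ¬ AllFlat Q y r := by
  obtain ⟨j, k, hj, hk, hjk⟩ : ∃ j k, Nz (fun w => f w⁻¹ j) ∧ Nz (fun w => f w⁻¹ k) ∧
      ¬ MRel (fun w => f w⁻¹ j) (fun w => f w⁻¹ k) := by
    by_contra hcon
    push Not at hcon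
    refine hext (extends_of (fun w => f w⁻¹) (fun j => an_pb (h.an j)) (fun w hw => hne _ ?_)
      fun j k hj hk => hcon j k hj hk)
    have := inv_mem_Ext hw
    rwa [inv_one] at this
  refine ⟨y j / y k, fun hall => hjk ?_⟩
  have hyk : y k ≠ 0 := by
    intro h0
    apply hk
    have h1 := (hy.rel (X k) ⟨1, isHomogeneous_X _ _⟩).1 (by rw [val_X]; exact h0)
    rw [ev_inf (P := fun z => f z k = 0)]
    refine ⟨1, fun z hz => ?_⟩
    have := h1 z hz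
    rwa [eval_X] at this
  have h2 := mrel_of_flat_diff h hy hQe hQ hQh (isHomogeneous_X ℂ k) (isHomogeneous_X ℂ j)
    (by rw [val_X]; exact hyk) (by rw [val_X, val_X]; exact hall)
  simpa using h2

/-- **Morphisms from the multiplicative group.** -/
theorem gm_diff (h : DCurve f) {ι : Type} (Fs : ι → MvPolynomial (Fin (N + 1)) ℂ)
    (hFs : ∀ i, ∃ d, (Fs i).IsHomogeneous d) (hQe : Q.IsHomogeneous e)
    (hne : ∀ z ∈ Ext 1, f z ≠ 0) (hX : ∀ z ∈ Ext 1, ∀ i, eval (f z) (Fs i) = 0)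
    (hQ : ∀ z ∈ Ext 1, eval (f z) Q ≠ 0) (hQh : DiffHyp (fun z => eval (f z) Q))
    (hext : ¬ Extends (fun w => f w⁻¹)) :
    (∃ R : ℝ, 1 ≤ R ∧ ∀ z0 : ℂ, R < z0.re → ∃ᶠ m : ℕ in atTop, ∃ P,
      (∀ t, ∃ j, (P j).eval t ≠ 0) ∧ IsGmCurve Fs Q P ∧ Through P (f (z0 + m))) ∧
    ∀ G : MvPolynomial (Fin (N + 1)) ℂ, IsForm G →
      (∀ P, IsGmCurve Fs Q P → ∀ t, t ≠ 0 → eval (fun j => (P j).eval t) G = 0) →
      ∀ z ∈ Ext 1, eval (f z) G = 0 := by
  obtain ⟨j, k, hj, hk, hjk⟩ : ∃ j k, Nz (fun w => f w⁻¹ j) ∧ Nz (fun w => f w⁻¹ k) ∧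
      ¬ MRel (fun w => f w⁻¹ j) (fun w => f w⁻¹ k) := by
    by_contra hcon
    push Not at hcon
    refine hext (extends_of (fun w => f w⁻¹) (fun j => an_pb (h.an j)) (fun w hw => hne _ ?_)
      fun j k hj hk => hcon j k hj hk)
    have := inv_mem_Ext hw
    rwa [inv_one] at this
  obtain ⟨R, hR1, hR⟩ := h.large
  obtain ⟨R', hR'⟩ := hyper_of hQh
  have key : ∀ z0 : ℂ, max R R' < z0.re → (∃ᶠ m : ℕ in atTop, ∃ P,
      (∀ t, ∃ j, (P j).eval t ≠ 0) ∧ IsGmCurve Fs Q P ∧ Through P (f (z0 + m))) ∧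
      ∀ G : MvPolynomial (Fin (N + 1)) ℂ, IsForm G →
      (∀ P, IsGmCurve Fs Q P → ∀ t, t ≠ 0 → eval (fun j => (P j).eval t) G = 0) →
      ∀ z ∈ HP (max R R'), eval (f z) G = 0 := by
    intro z0 hz0
    set ρ := max R R' with hρ
    have hρ1 : 1 ≤ ρ := hR1.trans (le_max_left _ _)
    obtain ⟨hs, hfe⟩ := hR ρ (le_max_left _ _)
    obtain ⟨b, hb, hbe⟩ := hR' ρ (le_max_right _ _) z0 hz0
    have hu := uniqAlg hz0
    refine hu.gm Fs hFs hs (fun x hx => hne x (hp_ext hρ1 hx)) (fun x hx => hX x (hp_ext hρ1 hx))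
      hfe hQe ⟨Eventually.of_forall fun m => hQ _ (hp_ext hρ1 (hu.mem m)), b, hb, hbe⟩
      (j := j) (k := k) ?_ fun s hsA => hjk ?_
    · by_contra hcon
      push Not at hcon
      apply hk
      rw [ev_inf (P := fun z => f z k = 0)]
      exact ⟨1, zero_far one_pos (h.an k) hcon⟩
    · exact mrel_of_algQ (h.an j) (h.an k) hk hρ1 hsA
  refine ⟨⟨max R R', hR1.trans (le_max_left _ _), fun z0 hz0 => (key z0 hz0).1⟩,
    fun G hG hGP => ?_⟩
  refine zero_far one_pos (eval_an_ext h G) ((key ((max R R' + 1 : ℝ) : ℂ) ?_).2 G hG hGP)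
  rw [Complex.ofReal_re]
  linarith

end Pool.Agent.Q183.DF
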