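import Pool.Agent.Q183.DF.Curve
import Pool.Agent.TH143.Punct
import Pool.Agent.TH143.Fin

/-!
Functions of finite order without zeros near infinity.
-/

set_option autoImplicit false

namespace Pool.Agent.Q183.DF

open MvPolynomial Filter Topology Set Metric FF Pool.Agent.TH143 Pool.Agent.TH143.GT
  Pool.Agent.W602.GT Pool.Agent.W603.BP Pool.Agent.W603.GR Pool.Agent.W603.BPR Pool.Agent.TH143.DE
  Pool.Agent.TH8.QD

/-- finite order near infinity -/
def FinOrd (g : ℂ → ℂ) : Prop :=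
  ∃ (K : ℕ) (R A : ℝ), ∀ z : ℂ, R ≤ ‖z‖ → ‖g z‖ ≤ Real.exp (A * ‖z‖ ^ K)

theorem FinOrd.norm {g : ℂ → ℂ} (h : FinOrd g) : ∃ (K : ℕ) (R A : ℝ), 1 ≤ R ∧ 0 ≤ A ∧ 1 ≤ K ∧
    ∀ L, K ≤ L → ∀ z : ℂ, R ≤ ‖z‖ → ‖g z‖ ≤ Real.exp (A * ‖z‖ ^ L) := by
  obtain ⟨K, R, A, h⟩ := h
  refine ⟨max K 1, max R 1, |A|, le_max_right _ _, abs_nonneg A, le_max_right _ _,
    fun L hL z hz => ?_⟩
  have hz1 : 1 ≤ ‖z‖ := (le_max_right _ _).trans hz
  refine (h z ((le_max_left _ _).trans hz)).trans (Real.exp_le_exp.2 ?_)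
  have h1 : ‖z‖ ^ K ≤ ‖z‖ ^ L := pow_le_pow_right₀ hz1 ((le_max_left K 1).trans hL)
  have h2 : A * ‖z‖ ^ K ≤ |A| * ‖z‖ ^ K :=
    mul_le_mul_of_nonneg_right (le_abs_self A) (by positivity)
  exact h2.trans (mul_le_mul_of_nonneg_left h1 (abs_nonneg A))

theorem FinOrd.add {g g' : ℂ → ℂ} (h : FinOrd g) (h' : FinOrd g') :
    FinOrd (fun z => g z + g' z) := by
  obtain ⟨K, R, A, hR, hA, hK, h1⟩ := h.norm
  obtain ⟨K', R', A', hR', hA', hK', h1'⟩ := h'.norm
  refine ⟨max K K', max R R', A + A' + 1, fun z hz => (norm_add_le _ _).trans ?_⟩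
  have h2 := h1 _ (le_max_left K K') z ((le_max_left _ _).trans hz)
  have h3 := h1' _ (le_max_right K K') z ((le_max_right _ _).trans hz)
  have hz1 : 1 ≤ ‖z‖ := hR.trans ((le_max_left _ _).trans hz)
  set T := ‖z‖ ^ max K K' with hT
  have hT1 : 1 ≤ T := one_le_pow₀ hz1
  have h4 : Real.exp (A * T) ≤ Real.exp ((A + A') * T) := Real.exp_le_exp.2 (by nlinarith)
  have h5 : Real.exp (A' * T) ≤ Real.exp ((A + A') * T) := Real.exp_le_exp.2 (by nlinarith)
  have h6 : (2 : ℝ) ≤ Real.exp T := by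
    have := Real.add_one_le_exp T
    linarith
  rw [add_mul (A + A'), one_mul, Real.exp_add]
  nlinarith [Real.exp_pos ((A + A') * T)]

theorem FinOrd.mul {g g' : ℂ → ℂ} (h : FinOrd g) (h' : FinOrd g') :
    FinOrd (fun z => g z * g' z) := by
  obtain ⟨K, R, A, hR, hA, hK, h1⟩ := h.norm
  obtain ⟨K', R', A', hR', hA', hK', h1'⟩ := h'.norm
  refine ⟨max K K', max R R', A + A', fun z hz => ?_⟩
  have h2 := h1 _ (le_max_left K K') z ((le_max_left _ _).trans hz)
  have h3 := h1' _ (le_max_right K K') z ((le_max_right _ _).trans hz)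
  rw [norm_mul, add_mul, Real.exp_add]
  exact mul_le_mul h2 h3 (norm_nonneg _) (Real.exp_pos _).le

theorem FinOrd.const (c : ℂ) : FinOrd (fun _ => c) :=
  ⟨0, 0, ‖c‖, fun z _ => by
    rw [pow_zero, mul_one]
    have := Real.add_one_le_exp ‖c‖
    linarith⟩

theorem finOrd_form {N : ℕ} {f : ℂ → Fin (N + 1) → ℂ} (hf : ∀ j, FinOrd (fun z => f z j))
    (G : MvPolynomial (Fin (N + 1)) ℂ) : FinOrd (fun z => eval (f z) G) := by
  induction G using MvPolynomial.induction_on with
  | C a =>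
    simp only [eval_C]
    exact FinOrd.const a
  | add P R hP hR =>
    simp only [map_add]
    exact hP.add hR
  | mul_X P i hP =>
    simp only [map_mul, eval_X]
    exact hP.mul (hf i)

/-- A polynomial whose real part is at most of linear growth in a half plane is linear. -/
theorem deg_le_one {P : Polynomial ℂ} {C A R : ℝ}
    (h : ∀ z : ℂ, R ≤ z.re → (P.eval z).re ≤ C + A * ‖z‖) : P.natDegree ≤ 1 := by
  by_contra hd
  push Not at hd
  set d := P.natDegree with hdd
  have hd0 : (d : ℝ) ≠ 0 := by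
    have : d ≠ 0 := by omega
    exact_mod_cast this
  set c := P.leadingCoeff with hc
  have hc0 : c ≠ 0 := by
    rw [hc, Ne, Polynomial.leadingCoeff_eq_zero]
    intro h0
    rw [hdd, h0, Polynomial.natDegree_zero] at hd
    omega
  set θ : ℝ := -Complex.arg c / d with hθ
  set ω : ℂ := Complex.exp (θ * Complex.I) with hω
  have hω0 : ω ≠ 0 := Complex.exp_ne_zero _
  have hωn : ‖ω‖ = 1 := Complex.norm_exp_ofReal_mul_I θ
  have hcω : c * ω ^ d = (‖c‖ : ℂ) := by
    have h1 : c = ‖c‖ * Complex.exp (Complex.arg c * Complex.I) :=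
      (Complex.norm_mul_exp_arg_mul_I c).symm
    have h2 : ω ^ d = Complex.exp (-(Complex.arg c * Complex.I)) := by
      rw [hω, ← Complex.exp_nat_mul]
      congr 1
      rw [hθ]
      push_cast
      have : (d : ℂ) ≠ 0 := by exact_mod_cast hd0
      field_simp
    rw [h2]
    calc c * Complex.exp (-(Complex.arg c * Complex.I)) =
          (‖c‖ * Complex.exp (Complex.arg c * Complex.I)) *
            Complex.exp (-(Complex.arg c * Complex.I)) := by rw [← h1]
      _ = ‖c‖ := by rw [mul_assoc, ← Complex.exp_add, add_neg_cancel, Complex.exp_zero, mul_one]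
  have hωre : 0 ≤ ω.re := by
    rw [hω, Complex.exp_ofReal_mul_I_re]
    apply Real.cos_nonneg_of_neg_pi_div_two_le_of_le
    · rw [hθ, neg_div, neg_le_neg_iff]
      have h1 := Complex.arg_le_pi c
      have h2 : (2 : ℝ) ≤ d := by exact_mod_cast hd
      rw [div_le_div_iff₀ (by linarith) (by norm_num)]
      nlinarith [Real.pi_pos]
    · rw [hθ, neg_div, ← neg_div]
      have h1 := (Complex.neg_pi_lt_arg c).le
      have h2 : (2 : ℝ) ≤ d := by exact_mod_cast hd
      rw [div_le_div_iff₀ (by linarith) (by norm_num)]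
      nlinarith [Real.pi_pos]
  set L : Polynomial ℂ := Polynomial.C ω * Polynomial.X + Polynomial.C (R : ℂ) with hL
  have hLd : L.natDegree = 1 := Polynomial.natDegree_linear hω0
  have hLc : L.leadingCoeff = ω := Polynomial.leadingCoeff_linear hω0
  set P2 := P.comp L with hP2
  have hP2d : P2.natDegree = d := by
    rw [hP2, Polynomial.natDegree_comp, hLd, mul_one]
  have hP2c : P2.coeff d = (‖c‖ : ℂ) := by
    rw [← hcω, ← hP2d, Polynomial.coeff_natDegree, hP2, Polynomial.leadingCoeff_comp (by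
      rw [hLd]
      exact one_ne_zero), hLc]
    rw [← hP2, hP2d]
  let r : Polynomial ℝ := ∑ i ∈ Finset.range (d + 1),
    Polynomial.C (P2.coeff i).re * Polynomial.X ^ i
  have hrc : ∀ i, i ≤ d → r.coeff i = (P2.coeff i).re := by
    intro i hi
    simp only [r, Polynomial.finsetSum_coeff, Polynomial.coeff_C_mul, Polynomial.coeff_X_pow]
    rw [Finset.sum_eq_single i]
    · simp
    · intro b _ hb
      rw [if_neg hb.symm, mul_zero]
    · intro h1
      exact absurd (Finset.mem_range.2 (Nat.lt_succ_of_le hi)) h1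
  have hrd : r.natDegree ≤ d := by
    refine Polynomial.natDegree_sum_le_of_forall_le _ _ fun i hi => ?_
    refine (Polynomial.natDegree_C_mul_X_pow_le _ _).trans ?_
    exact Nat.lt_succ_iff.1 (Finset.mem_range.1 hi)
  have hre : ∀ t : ℝ, r.eval t = (P.eval (R + t * ω)).re := by
    intro t
    have h1 : P.eval (R + t * ω) = P2.eval (t : ℂ) := by
      rw [hP2, Polynomial.eval_comp, hL]
      simp only [Polynomial.eval_add, Polynomial.eval_mul, Polynomial.eval_C, Polynomial.eval_X]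
      congr 1
      ring
    rw [h1, Polynomial.eval_eq_sum_range (p := P2), hP2d, Complex.re_sum, Polynomial.eval_finsetSum]
    refine Finset.sum_congr rfl fun i _ => ?_
    rw [Polynomial.eval_mul, Polynomial.eval_C, Polynomial.eval_pow, Polynomial.eval_X,
      ← Complex.ofReal_pow, Complex.re_mul_ofReal]
  set s : Polynomial ℝ := r - (Polynomial.C (|A|) * Polynomial.X +
    Polynomial.C (C + |A| * |R|)) with hs
  have hlin : (Polynomial.C (|A|) * Polynomial.X + Polynomial.C (C + |A| * |R|) :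
      Polynomial ℝ).natDegree ≤ 1 := Polynomial.natDegree_linear_le
  have hsc : s.coeff d = ‖c‖ := by
    rw [hs, Polynomial.coeff_sub, hrc d le_rfl, hP2c, Complex.ofReal_re,
      Polynomial.coeff_eq_zero_of_natDegree_lt (lt_of_le_of_lt hlin hd), sub_zero]
  have hsd : s.natDegree = d := by
    refine le_antisymm ?_ ?_
    · rw [hs]
      exact (Polynomial.natDegree_sub_le _ _).trans (max_le hrd (hlin.trans hd.le))
    · apply Polynomial.le_natDegree_of_ne_zero
      rw [hsc]
      exact norm_ne_zero_iff.2 hc0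
  have htend := Polynomial.tendsto_atTop_of_leadingCoeff_nonneg s (by
    rw [← Polynomial.natDegree_pos_iff_degree_pos, hsd]
    omega) (by
    rw [← Polynomial.coeff_natDegree, hsd, hsc]
    exact norm_nonneg c)
  obtain ⟨t, ht1, ht2⟩ := ((htend.eventually_gt_atTop 0).and (eventually_ge_atTop 0)).exists
  have h1 : r.eval t ≤ C + A * ‖(R : ℂ) + t * ω‖ := by
    rw [hre]
    apply h
    rw [Complex.add_re, Complex.ofReal_re, Complex.re_ofReal_mul]
    nlinarith
  have h2 : ‖(R : ℂ) + t * ω‖ ≤ |R| + t := by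
    refine (norm_add_le _ _).trans ?_
    rw [norm_mul, hωn, mul_one, Complex.norm_real, Complex.norm_real, Real.norm_eq_abs,
      Real.norm_eq_abs, abs_of_nonneg ht2]
  have h3 : A * ‖(R : ℂ) + t * ω‖ ≤ |A| * (|R| + t) := by
    refine (mul_le_mul_of_nonneg_right (le_abs_self A) (norm_nonneg _)).trans ?_
    exact mul_le_mul_of_nonneg_left h2 (abs_nonneg A)
  have h4 : s.eval t = r.eval t - (|A| * t + (C + |A| * |R|)) := by
    rw [hs]
    simp only [Polynomial.eval_sub, Polynomial.eval_add, Polynomial.eval_mul, Polynomial.eval_C,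
      Polynomial.eval_X]
  rw [h4] at ht1
  nlinarith

/-- **Zero-free functions of finite order near infinity, of small growth in a half plane, satisfy
difference equations of order one.** -/
theorem hyp_of_fin {g : ℂ → ℂ} (hg : AnalyticOnNhd ℂ g (Ext 1)) (hne : ∀ z ∈ Ext 1, g z ≠ 0)
    (h : FinOrd g) (hs : SlimR g) : DiffHyp g := by
  obtain ⟨k, q, G, hq, hG, hG0, hF⟩ := birkhoff (F := g) (r0 := 1) (r1 := 3) (a := 2) zero_le_one
    one_lt_two (by norm_num) (fun z hz => (hg z hz).differentiableAt.differentiableWithinAt)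
    (fun z hz _ => hne z hz)
  have hGne : ∀ z, G z ≠ 0 := by
    intro z
    rcases le_or_gt ‖z‖ 2 with h1 | h1
    · exact hG0 z h1
    · intro h0
      have h2 := hF z h1
      rw [h0, mul_zero] at h2
      exact hne z (by
        change 1 < ‖z‖
        linarith) h2
  obtain ⟨K, R, A, hR, hA, hK, hgr'⟩ := h.norm
  have hgr := hgr' K le_rfl
  -- growth of `G`
  have hqc : ContinuousOn q (closedBall 0 3⁻¹) := hq.continuousOn.mono (by
    intro w hw
    rw [mem_closedBall, dist_zero_right] at hw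
    rw [mem_ball, dist_zero_right]
    refine hw.trans_lt ?_
    norm_num)
  obtain ⟨M, hM⟩ := (isCompact_closedBall (0 : ℂ) 3⁻¹).exists_bound_of_continuousOn hqc
  have hrel : ∀ z : ℂ, 3 ≤ ‖z‖ → ‖G z‖ ≤ ‖g z‖ * Real.exp (k.natAbs * ‖z‖) * Real.exp |M| := by
    intro z hz3
    have hz0 : z ≠ 0 := by
      intro h0
      rw [h0, norm_zero] at hz3
      linarith
    have hzpos : 0 < ‖z‖ := by linarith
    have h1 := hF z (by linarith)
    have h2 : G z = g z * z ^ (-k) * Complex.exp (-q z⁻¹) := by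
      rw [h1, zpow_neg, Complex.exp_neg]
      have := zpow_ne_zero k hz0
      have := Complex.exp_ne_zero (q z⁻¹)
      field_simp
    have h3 : ‖Complex.exp (-q z⁻¹)‖ ≤ Real.exp |M| := by
      rw [Complex.norm_exp, Real.exp_le_exp]
      refine (Complex.re_le_norm _).trans ?_
      rw [norm_neg]
      refine (hM z⁻¹ ?_).trans (le_abs_self M)
      rw [mem_closedBall, dist_zero_right, norm_inv]
      exact inv_anti₀ (by norm_num) hz3
    have h4 : ‖z ^ (-k)‖ ≤ Real.exp (k.natAbs * ‖z‖) := by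
      rw [norm_zpow]
      have h5 : ‖z‖ ^ (-k) ≤ ‖z‖ ^ (k.natAbs : ℤ) :=
        zpow_le_zpow_right₀ (by linarith) (by omega)
      refine h5.trans ?_
      rw [zpow_natCast, ← Real.exp_log hzpos, ← Real.exp_nat_mul, Real.exp_log hzpos]
      apply Real.exp_le_exp.2
      refine mul_le_mul_of_nonneg_left ?_ (Nat.cast_nonneg _)
      exact (Real.log_le_sub_one_of_pos hzpos).trans (by linarith)
    rw [h2, norm_mul, norm_mul]
    gcongr
  have hGgr : ∃ C1 : ℝ, 0 ≤ C1 ∧ ∀ z : ℂ, max R 3 ≤ ‖z‖ → ‖G z‖ ≤ Real.exp (C1 * ‖z‖ ^ K) := by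
    refine ⟨A + k.natAbs + |M|, by positivity, fun z hz => ?_⟩
    have hz3 : 3 ≤ ‖z‖ := (le_max_right _ _).trans hz
    have hzR : R ≤ ‖z‖ := (le_max_left _ _).trans hz
    have hzK : ‖z‖ ≤ ‖z‖ ^ K := le_self_pow₀ (by linarith) (by omega)
    calc ‖G z‖ ≤ ‖g z‖ * Real.exp (k.natAbs * ‖z‖) * Real.exp |M| := hrel z hz3
      _ ≤ Real.exp (A * ‖z‖ ^ K) * Real.exp (k.natAbs * ‖z‖) * Real.exp |M| := by
          have := hgr z hzR
          gcongr
      _ = Real.exp (A * ‖z‖ ^ K + k.natAbs * ‖z‖ + |M|) := by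
          rw [Real.exp_add, Real.exp_add]
      _ ≤ Real.exp ((A + k.natAbs + |M|) * ‖z‖ ^ K) := by
          apply Real.exp_le_exp.2
          have h7 : 0 ≤ |M| := abs_nonneg M
          have h8 : (k.natAbs : ℝ) * ‖z‖ ≤ k.natAbs * ‖z‖ ^ K :=
            mul_le_mul_of_nonneg_left hzK (Nat.cast_nonneg _)
          have h9 : |M| ≤ |M| * ‖z‖ ^ K := le_mul_of_one_le_right h7 (by linarith)
          nlinarith
  obtain ⟨C1, hC1, hGg⟩ := hGgr
  obtain ⟨l, hl, hGl, C2, hl2⟩ := log_growth hG hGne hC1 hGg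
  -- `l` is a polynomial
  obtain ⟨P, hP⟩ : ∃ P : Polynomial ℂ, ∀ z, l z = P.eval z := by
    obtain ⟨M1, hM1⟩ := (isCompact_closedBall (0 : ℂ) 1).exists_bound_of_continuousOn
      hl.continuous.continuousOn
    refine poly_of_growth l hl (|M1| + |C2|) K fun z => ?_
    have h0 : (1 : ℝ) ≤ (1 + ‖z‖) ^ K := one_le_pow₀ (by linarith [norm_nonneg z])
    rcases le_or_gt ‖z‖ 1 with h1 | h1
    · have h2 := hM1 z (mem_closedBall_zero_iff.2 h1)
      have h3 := le_abs_self M1
      nlinarith [abs_nonneg M1, abs_nonneg C2]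
    · have h2 := hl2 z h1.le
      have h3 : ‖z‖ ^ K ≤ (1 + ‖z‖) ^ K := pow_le_pow_left₀ (norm_nonneg z) (by linarith) K
      have h4 : C2 * ‖z‖ ^ K ≤ |C2| * (1 + ‖z‖) ^ K :=
        (mul_le_mul_of_nonneg_right (le_abs_self _) (by positivity)).trans
          (mul_le_mul_of_nonneg_left h3 (abs_nonneg _))
      nlinarith [abs_nonneg M1]
  -- `l` is linear
  have hdeg : P.natDegree ≤ 1 := by
    obtain ⟨R2, A2, hs2⟩ := hs
    obtain ⟨C3, hs3⟩ := hs2 1 one_pos
    refine deg_le_one (C := Real.log (|C3| + 1) + |M|) (A := |A2| + 1 + k.natAbs)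
      (R := max R2 3) fun z hz => ?_
    have hzre : 3 ≤ z.re := (le_max_right _ _).trans hz
    have hz3 : 3 ≤ ‖z‖ := hzre.trans (Complex.re_le_norm z)
    have h1 := hs3 z ((le_max_left _ _).trans hz)
    have h2 := hrel z hz3
    rw [hGl z, Complex.norm_exp, hP z] at h2
    have h3 : |z.re| ≤ ‖z‖ := Complex.abs_re_le_norm z
    have h4 : |z.im| ≤ ‖z‖ := Complex.abs_im_le_norm z
    have h5 : ‖g z‖ ≤ (|C3| + 1) * Real.exp ((|A2| + 1) * ‖z‖) := by
      refine h1.trans ?_
      have h6 : Real.exp (A2 * |z.re| + 1 * |z.im|) ≤ Real.exp ((|A2| + 1) * ‖z‖) := by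
        apply Real.exp_le_exp.2
        have h7 : A2 * |z.re| ≤ |A2| * ‖z‖ :=
          (mul_le_mul_of_nonneg_right (le_abs_self _) (abs_nonneg _)).trans
            (mul_le_mul_of_nonneg_left h3 (abs_nonneg _))
        linarith
      have h7 : C3 ≤ |C3| + 1 := by linarith [le_abs_self C3]
      calc C3 * Real.exp (A2 * |z.re| + 1 * |z.im|) ≤
            (|C3| + 1) * Real.exp (A2 * |z.re| + 1 * |z.im|) :=
            mul_le_mul_of_nonneg_right h7 (Real.exp_pos _).le
        _ ≤ _ := mul_le_mul_of_nonneg_left h6 (by positivity)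
    have h6 : (0 : ℝ) < |C3| + 1 := by positivity
    have h7 : Real.exp (P.eval z).re ≤ Real.exp (Real.log (|C3| + 1) + (|A2| + 1) * ‖z‖ +
        k.natAbs * ‖z‖ + |M|) := by
      rw [Real.exp_add, Real.exp_add, Real.exp_add, Real.exp_log h6]
      refine h2.trans ?_
      gcongr
    have h8 := Real.exp_le_exp.1 h7
    linarith
  have hlz : ∃ a b : ℂ, ∀ z, l z = a + z * b := by
    refine ⟨P.coeff 0, P.coeff 1, fun z => ?_⟩
    rw [hP, Polynomial.eval_eq_sum_range' (Nat.lt_succ_of_le hdeg)]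
    simp only [Finset.sum_range_succ, Finset.sum_range_zero, pow_zero, pow_one]
    ring
  obtain ⟨a, b, hlz⟩ := hlz
  -- the ratio
  have hq0 : AnalyticAt ℂ q 0 := hq.analyticAt (ball_mem_nhds _ (by norm_num))
  refine ⟨fun z => ((z + 1) / z) ^ k * Complex.exp (q (z + 1)⁻¹ - q z⁻¹) *
    Complex.exp b, ?_, 2, fun z hz => ?_⟩
  · have h1 : AnalyticAt ℂ (fun w : ℂ => w / (1 + w)) 0 :=
      AnalyticAt.div (by fun_prop) (by fun_prop) (by norm_num)
    have h2 : AnalyticAt ℂ (fun w : ℂ => q (w / (1 + w))) 0 := by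
      refine AnalyticAt.fun_comp (g := q) (f := fun w : ℂ => w / (1 + w)) ?_ h1
      simpa using hq0
    have h3 : AnalyticAt ℂ (fun w : ℂ => (1 + w) ^ k * Complex.exp (q (w / (1 + w)) - q w) *
        Complex.exp b) 0 := by
      refine (AnalyticAt.mul ?_ (h2.sub hq0).cexp).mul analyticAt_const
      exact AnalyticAt.zpow (by fun_prop) (by norm_num)
    refine h3.meromorphicAt.congr ?_
    have h4 : ∀ᶠ w in 𝓝[≠] (0 : ℂ), w ≠ 0 := self_mem_nhdsWithin
    filter_upwards [h4] with w hw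
    have h5 : (w⁻¹ + 1) / w⁻¹ = 1 + w := by
      field_simp
    have h6 : (w⁻¹ + 1)⁻¹ = w / (1 + w) := by
      rw [inv_eq_one_div]
      have : w⁻¹ + 1 = (1 + w) / w := by field_simp
      rw [this, one_div_div]
    rw [h5, h6, inv_inv]
  · have hzn : 2 < ‖z‖ := hz.trans_le (Complex.re_le_norm z)
    have hz1n : 2 < ‖z + 1‖ := by
      refine lt_of_lt_of_le ?_ (Complex.re_le_norm (z + 1))
      rw [Complex.add_re, Complex.one_re]
      linarith
    have hz0 : z ≠ 0 := by
      intro h0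
      rw [h0, norm_zero] at hzn
      linarith
    rw [hF z hzn, hF (z + 1) hz1n, hGl, hGl, hlz (z + 1), hlz z]
    have e1 : Complex.exp (a + (z + 1) * b) = Complex.exp (a + z * b) * Complex.exp b := by
      rw [← Complex.exp_add]
      congr 1
      ring
    have e2 : Complex.exp (q (z + 1)⁻¹) = Complex.exp (q (z + 1)⁻¹ - q z⁻¹) *
        Complex.exp (q z⁻¹) := by
      rw [← Complex.exp_add]
      congr 1
      ring
    have e3 : (z + 1) ^ k = ((z + 1) / z) ^ k * z ^ k := by
      rw [← mul_zpow, div_mul_cancel₀ _ hz0]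
    rw [e1, e2, e3]
    ring

end Pool.Agent.Q183.DF
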