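import Pool.Agent.Q183.DF.Trans

/-!
Sequences of points given by linear recurrences: morphisms from the multiplicative group through
infinitely many points of the sequence.
-/

set_option autoImplicit false

namespace Pool.Agent.Q183.DF

open MvPolynomial Filter Pool.Agent.TH143 Pool.Agent.TH143.GT Pool.Agent.W602.GT
  Pool.Agent.W603.BP Pool.Agent.W603.GR Pool.Agent.W603.BPR Pool.Agent.TH143.DE
  Pool.Agent.TH8.QD
open Pool.Agent.H159R3.Exp (Laur)

variable {N : ℕ} {B A : Subalgebra ℂ (ℕ → ℂ)} {Q : MvPolynomial (Fin (N + 1)) ℂ} {q : ℕ}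
  {ι : Type}

theorem evp_laur (m : ℕ) (W : Polynomial (ℕ → ℂ)) : Laur (fun t => evp m t W) :=
  ⟨0, W.map (Pi.evalAlgHom ℂ (fun _ : ℕ => ℂ) m : (ℕ → ℂ) →+* ℂ), fun t _ => by
    change DE.evp m t W * t ^ 0 = _
    rw [DE.evp_eq, pow_zero, mul_one]⟩

/-- relations which hold for each form separately hold for all forms of a family from some index on -/
theorem all_rel (F : ι → MvPolynomial (Fin (N + 1)) ℂ) (W : Fin (N + 1) → Polynomial (ℕ → ℂ))
    (h : ∀ i, ∀ᶠ m in atTop, ∀ x, x ≠ 0 → evp m x (aeval W (F i)) = 0) :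
    ∀ᶠ m in atTop, ∀ i, ∀ x, x ≠ 0 → evp m x (aeval W (F i)) = 0 := by
  classical
  let J : Ideal (MvPolynomial (Fin (N + 1)) ℂ) :=
    { carrier := {R | ∀ᶠ m in atTop, ∀ x, x ≠ 0 → evp m x (aeval W R) = 0}
      add_mem' := by
        intro a b ha hb
        filter_upwards [ha, hb] with m h1 h2 x hx
        rw [map_add, map_add, h1 x hx, h2 x hx, add_zero]
      zero_mem' := Eventually.of_forall fun m x _ => by rw [map_zero, map_zero]
      smul_mem' := by
        intro c a ha
        filter_upwards [ha] with m h1 x hx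
        rw [smul_eq_mul, map_mul, map_mul, h1 x hx, mul_zero] }
  obtain ⟨S, hS⟩ : (Ideal.span (Set.range F)).FG := IsNoetherian.noetherian _
  have hle : Ideal.span (Set.range F) ≤ J := by
    rw [Ideal.span_le]
    rintro _ ⟨i, rfl⟩
    exact h i
  have hfin : ∀ᶠ m in atTop, ∀ R ∈ S, ∀ x, x ≠ 0 → evp m x (aeval W R) = 0 := by
    rw [Filter.eventually_all_finset]
    intro R hR
    have h1 : R ∈ Ideal.span (Set.range F) := by
      rw [← hS]
      exact Ideal.subset_span hR
    exact hle h1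
  filter_upwards [hfin] with m hm i x hx
  let Jm : Ideal (MvPolynomial (Fin (N + 1)) ℂ) :=
    RingHom.ker ((evp m x).comp (aeval W : MvPolynomial (Fin (N + 1)) ℂ →ₐ[ℂ] _))
  have h1 : Ideal.span (Set.range F) ≤ Jm := by
    rw [← hS, Ideal.span_le]
    intro R hR
    exact hm R hR x hx
  exact h1 (Ideal.subset_span ⟨i, rfl⟩)

theorem gm_trans (hB : CoefField B) (hA : DomRing A) (hBA : B ≤ A)
    (F : ι → MvPolynomial (Fin (N + 1)) ℂ) (hF : ∀ i, ∃ d, (F i).IsHomogeneous d)
    (hQe : Q.IsHomogeneous q) {x : ℕ → Fin (N + 1) → ℂ} (hx0 : ∀ᶠ m in atTop, x m ≠ 0)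
    (hxF : ∀ i, ∀ᶠ m in atTop, eval (x m) (F i) = 0)
    (hxA : ∀ j, (fun m => x m j) ∈ A) (hx : ∀ j, LinRec B (fun m => x m j)) (hQ : Hyper B Q x)
    {j1 j0 : Fin (N + 1)} (hn : ¬ ∀ᶠ m in atTop, x m j0 = 0)
    (hna : ∀ (s D : ℕ) (b : ℕ → ℕ → ℂ), (∀ k, b k ∈ B) →
      (∀ᶠ m in atTop, ∑ k ∈ Finset.range (D + 1),
        b k m * x (m + s) j1 ^ k * x (m + s) j0 ^ (D - k) = 0) →
      ∀ k ≤ D, ∀ᶠ m in atTop, b k m = 0) :
    (∃ᶠ m in atTop, ∃ P, (∀ t, ∃ j, (P j).eval t ≠ 0) ∧ IsGmCurve F Q P ∧ Through P (x m)) ∧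
    ∀ G : MvPolynomial (Fin (N + 1)) ℂ, IsForm G →
      (∀ P, IsGmCurve F Q P → ∀ t, t ≠ 0 → eval (fun j => (P j).eval t) G = 0) →
      ∀ᶠ m in atTop, eval (x m) G = 0 := by
  classical
  obtain ⟨s, n, A', U, Φ, hU, hdet, hΦ⟩ := exists_sys hB (fun j m => x m j) hx
  have hpt : ∀ᶠ m in atTop, x (m + s) = pt U Φ m := by
    filter_upwards [hΦ] with m hm
    funext j
    exact hm j
  -- forms along the sequence
  have hformA : ∀ H : MvPolynomial (Fin (N + 1)) ℂ, (fun m => eval (x (m + s)) H) ∈ A :=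
    fun H => hA.shift' (eval_mem A hxA H) s
  have hback : ∀ p : ℕ → Prop, (∀ᶠ m in atTop, p (m + s)) → ∀ᶠ m in atTop, p m := by
    intro p hp
    obtain ⟨m0, hm0⟩ := eventually_atTop.1 hp
    refine eventually_atTop.2 ⟨m0 + s, fun m hm => ?_⟩
    have h2 := hm0 (m - s) (by omega)
    rwa [Nat.sub_add_cancel (by omega)] at h2
  -- the prime ideal
  let T : Submonoid (ℕ → ℂ) :=
    { carrier := {f | ∃ a ∈ A, (¬ ∀ᶠ m in atTop, a m = 0) ∧ ∀ᶠ m in atTop, f m = a m}
      mul_mem' := by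
        rintro f f' ⟨a, ha, h0, h1⟩ ⟨b, hb, h0', h1'⟩
        refine ⟨a * b, A.mul_mem ha hb, ?_, ?_⟩
        · intro h2
          rcases hA.dom a ha b hb h2 with h3 | h3
          · exact h0 h3
          · exact h0' h3
        · filter_upwards [h1, h1'] with m e1 e2
          rw [Pi.mul_apply, Pi.mul_apply, e1, e2]
      one_mem' := ⟨1, A.one_mem, fun h => by
        obtain ⟨m, hm⟩ := h.exists
        exact one_ne_zero hm, Eventually.of_forall fun _ => rfl⟩ }
  have hdisj : Disjoint (EZ : Set (ℕ → ℂ)) T := by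
    rw [Set.disjoint_left]
    rintro f hf ⟨a, ha, h0, h1⟩
    apply h0
    filter_upwards [mem_EZ.1 hf, h1] with m h2 h3
    rw [← h3, h2]
  obtain ⟨I, hIp, hI, hIT⟩ := Ideal.exists_le_prime_disjoint EZ T hdisj
  have hdom : IsDomain ((ℕ → ℂ) ⧸ I) := Ideal.Quotient.isDomain I
  -- elements of `I` that come from `A` are eventually zero
  have hIA : ∀ f ∈ I, ∀ a ∈ A, (∀ᶠ m in atTop, f m = a m) → ∀ᶠ m in atTop, a m = 0 := by
    intro f hf a ha h1
    by_contra h
    exact absurd ⟨a, ha, h, h1⟩ (Set.disjoint_left.1 hIT hf)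
  let KR := FractionRing ((ℕ → ℂ) ⧸ I)
  let a : ((ℕ → ℂ) ⧸ I) →+* KR := algebraMap _ KR
  have hinj : Function.Injective a := IsFractionRing.injective _ KR
  let z : Fin (N + 1) → KR := fun j => a (mk' I fun m => pt U Φ m j)
  have hzv : ∀ j, a (mk' I fun m => eval (pt U Φ m) (X j : MvPolynomial (Fin (N + 1)) ℂ)) = z j := by
    intro j
    simp only [eval_X]
    rfl
  have hzn : z j0 ≠ 0 := by
    intro h0
    have h1 : (fun m => pt U Φ m j0) ∈ I := by
      rw [← mk'_zero, ← map_eq_zero_iff a hinj]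
      exact h0
    apply hn
    apply hback
    exact hIA _ h1 _ (hA.shift' (hxA j0) s) (by
      filter_upwards [hpt] with m hm
      rw [hm])
  -- transcendence
  have htr : Transcendental (cf hB hI KR) (z j1 / z j0) := by
    intro halg
    obtain ⟨P, hP0, hP⟩ := halg
    apply hP0
    have hc : ∀ k, ∃ b ∈ B, ((P.coeff k : cf hB hI KR) : KR) = a (mk' I b) :=
      fun k => (P.coeff k).2
    choose b hb hbe using hc
    set D := P.natDegree with hD
    have h1 : ∑ k ∈ Finset.range (D + 1), a (mk' I (b k)) * z j1 ^ k * z j0 ^ (D - k) = 0 := by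
      have h2 : Polynomial.aeval (z j1 / z j0) P * z j0 ^ D = 0 := by rw [hP, zero_mul]
      rw [Polynomial.aeval_eq_sum_range, Finset.sum_mul] at h2
      rw [← h2]
      refine Finset.sum_congr rfl fun k hk => ?_
      have hkD : k ≤ D := Nat.lt_succ_iff.1 (Finset.mem_range.1 hk)
      have h3 : P.coeff k • (z j1 / z j0) ^ k = a (mk' I (b k)) * (z j1 / z j0) ^ k := by
        rw [← hbe]
        rfl
      rw [h3, div_pow]
      have h4 : z j0 ^ D = z j0 ^ k * z j0 ^ (D - k) := by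
        rw [← pow_add, Nat.add_sub_cancel' hkD]
      have h5 : z j0 ^ k ≠ 0 := pow_ne_zero _ hzn
      have h6 : z j1 ^ k / z j0 ^ k * z j0 ^ k = z j1 ^ k := div_mul_cancel₀ _ h5
      rw [h4]
      linear_combination (-(a (mk' I (b k)) * z j0 ^ (D - k))) * h6
    have h2 : (fun m => ∑ k ∈ Finset.range (D + 1), b k m * pt U Φ m j1 ^ k *
        pt U Φ m j0 ^ (D - k)) ∈ I := by
      rw [← mk'_zero, ← map_eq_zero_iff a hinj, ← h1]
      have h3 : (fun m => ∑ k ∈ Finset.range (D + 1), b k m * pt U Φ m j1 ^ k *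
          pt U Φ m j0 ^ (D - k)) = ∑ k ∈ Finset.range (D + 1), b k *
          (fun m => pt U Φ m j1) ^ k * (fun m => pt U Φ m j0) ^ (D - k) := by
        funext m
        simp only [Finset.sum_apply, Pi.mul_apply, Pi.pow_apply]
      rw [h3]
      simp only [map_sum, map_mul, map_pow]
      rfl
    have hxs : ∀ j, (fun m => x (m + s) j) ∈ A := fun j => hA.shift' (hxA j) s
    have h3 : (fun m => ∑ k ∈ Finset.range (D + 1), b k m * x (m + s) j1 ^ k *
        x (m + s) j0 ^ (D - k)) ∈ A := by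
      have h4 : (fun m => ∑ k ∈ Finset.range (D + 1), b k m * x (m + s) j1 ^ k *
          x (m + s) j0 ^ (D - k)) = ∑ k ∈ Finset.range (D + 1), b k *
          (fun m => x (m + s) j1) ^ k * (fun m => x (m + s) j0) ^ (D - k) := by
        funext m
        simp only [Finset.sum_apply, Pi.mul_apply, Pi.pow_apply]
      rw [h4]
      exact A.sum_mem fun k _ => A.mul_mem (A.mul_mem (hBA (hb k)) (A.pow_mem (hxs j1) k))
        (A.pow_mem (hxs j0) _)
    have h4 := hna s D b hb (hIA _ h2 _ h3 (by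
      filter_upwards [hpt] with m hm
      rw [hm]))
    ext k
    rw [Polynomial.coeff_zero]
    by_cases hk : k ≤ D
    · have h5 : mk' I (b k) = 0 := mk'_zero.2 (hI (h4 k hk))
      rw [hbe, h5, map_zero]
      rfl
    · rw [Polynomial.coeff_eq_zero_of_natDegree_lt (not_le.1 hk)]
  obtain ⟨D, hD⟩ := der_of_transcendental htr
  have hmul : ∀ u v, D (u * v) = u * D v + v * D u := fun u v => D.leibniz u v
  have hDB : ∀ b ∈ B, D (algebraMap ((ℕ → ℂ) ⧸ I) KR (cl I b)) = 0 := by
    intro b hb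
    exact D.map_algebraMap (⟨_, b, hb, rfl⟩ : cf hB hI KR)
  have hDG : D (z j1) * z j0 - z j1 * D (z j0) ≠ 0 := by
    have h1 : z j1 = (z j1 / z j0) * z j0 := (div_mul_cancel₀ _ hzn).symm
    have h2 : D (z j1) = (z j1 / z j0) * D (z j0) + z j0 := by
      conv_lhs => rw [h1]
      rw [hmul, hD, mul_one]
    have h3 : D (z j1) * z j0 - z j1 * D (z j0) = z j0 ^ 2 := by
      rw [h2]
      linear_combination (-D (z j0)) * h1
    rw [h3]
    exact pow_ne_zero _ hzn
  have hQ0 : ∀ᶠ m in atTop, eval (pt U Φ m) Q ≠ 0 := by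
    filter_upwards [eventually_shift hQ.1 s, hpt] with m h1 h2
    rwa [← h2]
  obtain ⟨b, hbB, hb⟩ := hQ.2
  obtain ⟨W, hWR, hW1, ⟨h, k, hQW⟩, hN⟩ := emb hB A' U hU hdet hI D
    (fun u v => map_add D u v) hmul hDB Φ (X j0) (X j1) (isHomogeneous_X _ _)
    (isHomogeneous_X _ _) (by
      have e1 : algebraMap ((ℕ → ℂ) ⧸ I) KR (cl I fun m => eval (pt U Φ m)
        (X j1 : MvPolynomial (Fin (N + 1)) ℂ)) = z j1 := hzv j1
      have e0 : algebraMap ((ℕ → ℂ) ⧸ I) KR (cl I fun m => eval (pt U Φ m)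
        (X j0 : MvPolynomial (Fin (N + 1)) ℂ)) = z j0 := hzv j0
      rw [e1, e0]
      exact hDG) Q hQe hQ0
    ⟨_, hB.toCoefRing.shift' hbB s⟩ (by
      filter_upwards [eventually_shift hb s, hpt, eventually_shift hpt 1] with m h1 h2 h3
      rw [← h2, ← h3]
      have h4 : m + 1 + s = m + s + 1 := by ring
      rw [h4]
      exact h1)
  set ν : ℕ → ℂ := fun m => evp m 1 (Polynomial.derivative (aeval W (X j1 :
      MvPolynomial (Fin (N + 1)) ℂ)) * aeval W (X j0 : MvPolynomial (Fin (N + 1)) ℂ) -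
        aeval W (X j1 : MvPolynomial (Fin (N + 1)) ℂ) *
          Polynomial.derivative (aeval W (X j0 : MvPolynomial (Fin (N + 1)) ℂ))) with hν
  have hrelW := all_rel F W fun i => hWR (F i) (hF i) (by
    filter_upwards [eventually_shift (hxF i) s, hpt] with m h1 h2
    rw [← h2]
    exact h1)
  have hcurve : ∀ᶠ m in atTop, ν m ≠ 0 → ∃ P, (∀ t, ∃ j, (P j).eval t ≠ 0) ∧
      IsGmCurve F Q P ∧ Through P (x (m + s)) := by
    filter_upwards [hrelW, hQW, hpt, hQ0, eventually_shift hx0 s] with m h1 h2 h3 h4 h5 h6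
    have hw1 : (fun j => evp m 1 (W j)) = x (m + s) := by
      rw [h3]
      funext j
      exact hW1 j m
    obtain ⟨P, hP1, hP2, hP3⟩ := gm_of_laur F hF Q hQe (fun t j => evp m t (W j))
      (fun j => evp_laur m (W j)) (by
        change (fun j => evp m 1 (W j)) ≠ 0
        rw [hw1]
        exact h5) (fun i t ht => by rw [← DE.evp_aeval]; exact h1 i t ht) (fun t ht h0 => by
        have h7 := h2 t ht
        rw [map_mul, DE.evp_aeval, h0, zero_mul] at h7
        exact (mul_ne_zero h4 (pow_ne_zero _ ht)) h7.symm) (by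
        by_contra hcon
        push Not at hcon
        apply h6
        -- the derivative of the determinant
        have h7 : ∀ t : ℂ, t ≠ 0 → evp m t (W j1) * evp m 1 (W j0) =
            evp m t (W j0) * evp m 1 (W j1) := by
          intro t ht
          exact hcon t ht j0 j1
        have h8 := ((evp_deriv m 1 (W j1)).mul_const (evp m 1 (W j0)))
        have h9 := ((evp_deriv m 1 (W j0)).mul_const (evp m 1 (W j1)))
        have h10 : (fun t => evp m t (W j1) * evp m 1 (W j0)) =ᶠ[nhds 1]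
            fun t => evp m t (W j0) * evp m 1 (W j1) := by
          filter_upwards [isOpen_ne.mem_nhds (one_ne_zero (α := ℂ))] with t ht
          exact h7 t ht
        have h11 := h8.unique (h9.congr_of_eventuallyEq h10)
        rw [hν]
        simp only [aeval_X, map_sub, map_mul]
        linear_combination h11)
    refine ⟨P, hP1, hP2, ?_⟩
    rw [← hw1]
    exact hP3
  refine ⟨?_, fun G hG hGP => ?_⟩
  · have h1 : ∃ᶠ m in atTop, ν m ≠ 0 := by
      intro h2
      apply hN
      apply hI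
      rw [mem_EZ]
      filter_upwards [h2] with m hm
      exact not_not.1 hm
    have h2 : ∃ᶠ m in atTop, ∃ P, (∀ t, ∃ j, (P j).eval t ≠ 0) ∧ IsGmCurve F Q P ∧
        Through P (x (m + s)) :=
      (h1.and_eventually hcurve).mono fun m hm => hm.2 hm.1
    exact (tendsto_add_atTop_nat s).frequently h2
  · apply hback
    have h1 : ν * (fun m => eval (x (m + s)) G) ∈ I := by
      apply hI
      rw [mem_EZ]
      filter_upwards [hcurve] with m hm
      by_cases h0 : ν m = 0
      · rw [Pi.mul_apply, h0, zero_mul]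
      · obtain ⟨P, -, hP2, t, c, ht, hc, hP3⟩ := hm h0
        obtain ⟨d, hd⟩ := hG
        have h2 := hGP P hP2 t ht
        have h3 : (fun j => (P j).eval t) = fun j => c * x (m + s) j := funext hP3
        rw [h3, eval_smul_homog hd] at h2
        rw [Pi.mul_apply, (mul_eq_zero.1 h2).resolve_left (pow_ne_zero _ hc), mul_zero]
    have h2 := (hIp.mem_or_mem h1).resolve_left hN
    exact hIA _ h2 _ (hformA G) (Eventually.of_forall fun _ => rfl)

end Pool.Agent.Q183.DF
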