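import Pool.Agent.Q183.DF.Fo

/-!
Entire solutions of linear difference equations, of small growth in a half plane, are of finite
order.
-/

set_option autoImplicit false

namespace Pool.Agent.Q183.DF

open MvPolynomial Filter Topology Set Metric FF Pool.Agent.TH143 Pool.Agent.TH143.GT
  Pool.Agent.W602.GT Pool.Agent.W603.BP Pool.Agent.W603.GR Pool.Agent.W603.BPR Pool.Agent.TH143.DE
  Pool.Agent.TH8.QD

theorem MerI.expb {a : ℂ → ℂ} (h : MerI a) : ∃ R B : ℝ, 1 ≤ R ∧ 0 ≤ B ∧
    ∀ z : ℂ, R < ‖z‖ → AnalyticAt ℂ a z ∧ ‖a z‖ ≤ Real.exp (B * ‖z‖) := by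
  obtain ⟨C, K, hC, hb⟩ := mero_bound h
  obtain ⟨R, hR⟩ := mer_mem h
  obtain ⟨δ, hδ, hall⟩ := ev_iff.1 hb
  refine ⟨max (max R 1) δ⁻¹, C + K, (le_max_right _ _).trans (le_max_left _ _), by positivity,
    fun z hz => ⟨(hR (max (max R 1) δ⁻¹) ((le_max_left _ _).trans (le_max_left _ _))).1 z hz, ?_⟩⟩
  have hz1 : 1 < ‖z‖ := ((le_max_right _ _).trans (le_max_left _ _)).trans_lt hz
  have hz0 : z ≠ 0 := by
    intro h0
    rw [h0, norm_zero] at hz1
    linarith
  have h1 : ‖a (z⁻¹)⁻¹‖ * ‖z⁻¹‖ ^ K ≤ C := hall z⁻¹ (inv_mem_PB hδ ((le_max_right _ _).trans_lt hz))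
  rw [inv_inv, norm_inv, inv_pow, ← div_eq_mul_inv, div_le_iff₀ (by positivity)] at h1
  refine h1.trans ?_
  rw [add_mul, Real.exp_add]
  have h2 : C ≤ Real.exp (C * ‖z‖) := by
    have h3 := Real.add_one_le_exp (C * ‖z‖)
    nlinarith
  have h3 : ‖z‖ ^ K ≤ Real.exp (K * ‖z‖) := by
    rw [← Real.exp_log (show (0 : ℝ) < ‖z‖ by linarith), ← Real.exp_nat_mul,
      Real.exp_log (by linarith)]
    apply Real.exp_le_exp.2
    refine mul_le_mul_of_nonneg_left ?_ (Nat.cast_nonneg _)
    exact (Real.log_le_sub_one_of_pos (by linarith)).trans (by linarith)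
  exact mul_le_mul h2 h3 (by positivity) (Real.exp_pos _).le

/-- the equation solved for the lowest term -/
theorem DiffEq.low {g : ℂ → ℂ} (hg : Differentiable ℂ g) (h : DiffEq g) :
    ∃ (r : ℕ) (b : ℕ → ℂ → ℂ) (k0 : ℕ) (R B : ℝ), 1 ≤ R ∧ 0 ≤ B ∧
      (∀ k z, R < ‖z‖ → ‖b k z‖ ≤ Real.exp (B * ‖z‖)) ∧
      ∀ z : ℂ, R < ‖z‖ → g (z + k0) = ∑ k ∈ Finset.range r, b k z * g (z + (k0 + (k + 1) : ℕ)) := by
  classical
  obtain ⟨r, a, ha, ⟨k1, hk1, hn1⟩, R, hR⟩ := h
  have hex : ∃ k, k ≤ r ∧ Nz (fun w => a k w⁻¹) := ⟨k1, hk1, hn1⟩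
  set k0 := Nat.find hex with hk0d
  obtain ⟨hk0, hn0⟩ : k0 ≤ r ∧ Nz (fun w => a k0 w⁻¹) := Nat.find_spec hex
  have hmin : ∀ k, k < k0 → ∀ᶠ w in 𝓝[≠] (0 : ℂ), a k w⁻¹ = 0 := by
    intro k hk
    by_contra hcon
    exact Nat.find_min hex hk ⟨(hk.le.trans hk0), hcon⟩
  have hne : ∀ᶠ w in 𝓝[≠] (0 : ℂ), a k0 w⁻¹ ≠ 0 :=
    ((ha k0).eventually_eq_zero_or_eventually_ne_zero).resolve_left hn0
  -- the quotients
  let b : ℕ → ℂ → ℂ := fun k z => if k + k0 + 1 ≤ r then -(a (k0 + (k + 1)) z / a k0 z) else 0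
  have hbm : ∀ k, MerI (b k) := by
    intro k
    change MeromorphicAt (fun w => b k w⁻¹) 0
    by_cases hk : k + k0 + 1 ≤ r
    · have h1 : (fun w => b k w⁻¹) = fun w => -(a (k0 + (k + 1)) w⁻¹ / a k0 w⁻¹) := by
        funext w
        simp only [b, if_pos hk]
      rw [h1]
      exact (MeromorphicAt.div (ha _) (ha _)).neg
    · have h1 : (fun w => b k w⁻¹) = fun w => 0 := by
        funext w
        simp only [b, if_neg hk]
      rw [h1]
      exact MeromorphicAt.const 0 0
  choose R2 B2 hR2 hB2 hb2 using fun k => (hbm k).expb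
  set RR := ∑ k ∈ Finset.range (r + 1), R2 k with hRR
  set BB := ∑ k ∈ Finset.range (r + 1), B2 k with hBB
  have hRk : ∀ k ≤ r, R2 k ≤ RR := fun k hk =>
    Finset.single_le_sum (f := R2) (fun i _ => zero_le_one.trans (hR2 i))
      (Finset.mem_range.2 (Nat.lt_succ_of_le hk))
  have hBk : ∀ k ≤ r, B2 k ≤ BB := fun k hk =>
    Finset.single_le_sum (f := B2) (fun i _ => hB2 i) (Finset.mem_range.2 (Nat.lt_succ_of_le hk))
  have hRR1 : 1 ≤ RR := (hR2 0).trans (hRk 0 (Nat.zero_le _))
  have hBB0 : 0 ≤ BB := Finset.sum_nonneg fun i _ => hB2 i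
  have hbig : ∀ k, r < k → ∀ z, b k z = 0 := by
    intro k hk z
    simp only [b]
    rw [if_neg (by omega)]
  obtain ⟨R3, hR3⟩ := (ev_inf (P := fun z => (∀ k ∈ Finset.range k0, a k z = 0) ∧ a k0 z ≠ 0)).1
    (((Finset.eventually_all _).2 fun k hk => hmin k (Finset.mem_range.1 hk)).and hne)
  refine ⟨r, b, k0, RR, BB, hRR1, hBB0, fun k z hz => ?_, ?_⟩
  · rcases Nat.lt_or_ge r k with hk | hk
    · rw [hbig k hk z, norm_zero]
      exact (Real.exp_pos _).le
    · refine ((hb2 k z ((hRk k hk).trans_lt hz)).2).trans (Real.exp_le_exp.2 ?_)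
      exact mul_le_mul_of_nonneg_right (hBk k hk) (norm_nonneg z)
  · have hu : ∀ z ∈ Ext RR, g (z + k0) - ∑ k ∈ Finset.range r,
        b k z * g (z + (k0 + (k + 1) : ℕ)) = 0 := by
      refine zero_far (ρ := max R (max R3 0)) (zero_lt_one.trans_le hRR1) ?_ ?_
      · intro z hz
        have e1 : ∀ c : ℂ, AnalyticAt ℂ (fun z => g (z + c)) z := fun c =>
          AnalyticAt.fun_comp (hg.analyticAt _) (by fun_prop)
        refine (e1 _).fun_sub (Finset.analyticAt_fun_sum _ fun k hk => ?_)
        exact AnalyticAt.fun_mul (hb2 k z ((hRk k (Finset.mem_range.1 hk).le).trans_lt hz)).1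
          (e1 _)
      · intro z hz
        have hz' : max R (max R3 0) < z.re := hz
        obtain ⟨h1, h2⟩ := hR3 z (((le_max_left _ _).trans (le_max_right _ _)).trans_lt
          (hz'.trans_le (Complex.re_le_norm z)))
        have h3 := hR z ((le_max_left _ _).trans_lt hz')
        have h4 : ∑ k ∈ Finset.range (r + 1), a k z * g (z + k) = a k0 z * (g (z + k0) -
            ∑ k ∈ Finset.range r, b k z * g (z + (k0 + (k + 1) : ℕ))) := by
          have h5 : ∑ k ∈ Finset.range r, b k z * g (z + (k0 + (k + 1) : ℕ)) =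
              -(a k0 z)⁻¹ * ∑ k ∈ Finset.range (r - k0), a (k0 + (k + 1)) z *
                g (z + (k0 + (k + 1) : ℕ)) := by
            rw [Finset.mul_sum]
            rw [← Finset.sum_subset (s₁ := Finset.range (r - k0)) (s₂ := Finset.range r)]
            · refine Finset.sum_congr rfl fun k hk => ?_
              have hk' := Finset.mem_range.1 hk
              simp only [b]
              rw [if_pos (by omega)]
              field_simp
            · intro k hk
              have hk' := Finset.mem_range.1 hk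
              exact Finset.mem_range.2 (by omega)
            · intro k hk hk'
              simp only [b]
              rw [if_neg, zero_mul]
              rw [Finset.mem_range] at hk'
              omega
          have h6 : r + 1 = k0 + ((r - k0) + 1) := by omega
          rw [h6, Finset.sum_range_add, Finset.sum_eq_zero (s := Finset.range k0) fun k hk => by
            rw [h1 k hk, zero_mul], zero_add, Finset.sum_range_succ', h5, add_zero, mul_sub,
            neg_mul, mul_neg, ← mul_assoc, mul_inv_cancel₀ h2, one_mul, sub_neg_eq_add, add_comm]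
        rw [h4] at h3
        exact (mul_eq_zero.1 h3).resolve_left h2
    intro z hz
    exact sub_eq_zero.1 (hu z hz)

/-- **Entire solutions are of finite order.** -/
theorem finOrd_of_diffEq {g : ℂ → ℂ} (hg : Differentiable ℂ g) (h : DiffEq g) (hs : SlimR g) :
    FinOrd g := by
  obtain ⟨r, b, k0, R, B, hR, hB, hb, hrec⟩ := h.low hg
  obtain ⟨R1, A1, hs1⟩ := hs
  obtain ⟨C1, hs1⟩ := hs1 1 one_pos
  set R2 := max R1 (R + k0) with hR2
  obtain ⟨M, hM⟩ := (isCompact_closedBall (0 : ℂ) (R + k0)).exists_bound_of_continuousOn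
    hg.continuous.continuousOn
  set D := |A1| + 1 + |C1| + |M| + B * (1 + k0) + r with hD
  have hD0 : 0 ≤ D := by positivity
  have key : ∀ n : ℕ, ∀ z : ℂ, R2 - n ≤ z.re →
      ‖g z‖ ≤ Real.exp (D * (n + 1) * (‖z‖ + r * n + 1)) := by
    intro n
    induction n with
    | zero =>
      intro z hz
      rw [Nat.cast_zero, sub_zero] at hz
      have h1 := hs1 z ((le_max_left _ _).trans hz)
      have h2 : |z.re| ≤ ‖z‖ := Complex.abs_re_le_norm z
      have h3 : |z.im| ≤ ‖z‖ := Complex.abs_im_le_norm z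
      have h4 : C1 ≤ Real.exp |C1| :=
        (le_abs_self C1).trans ((le_add_of_nonneg_right zero_le_one).trans
          (Real.add_one_le_exp _))
      calc ‖g z‖ ≤ C1 * Real.exp (A1 * |z.re| + 1 * |z.im|) := h1
        _ ≤ Real.exp |C1| * Real.exp (|A1| * ‖z‖ + ‖z‖) := by
            refine mul_le_mul h4 (Real.exp_le_exp.2 ?_) (Real.exp_pos _).le (Real.exp_pos _).le
            have h5 : A1 * |z.re| ≤ |A1| * ‖z‖ :=
              (mul_le_mul_of_nonneg_right (le_abs_self _) (abs_nonneg _)).trans
                (mul_le_mul_of_nonneg_left h2 (abs_nonneg _))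
            linarith
        _ = Real.exp (|C1| + (|A1| * ‖z‖ + ‖z‖)) := (Real.exp_add _ _).symm
        _ ≤ _ := by
            apply Real.exp_le_exp.2
            push_cast
            rw [hD]
            have e1 : 0 ≤ |C1| * ‖z‖ := by positivity
            have e2 : 0 ≤ |M| * (‖z‖ + 1) := by positivity
            have e3 : 0 ≤ B * (1 + k0) * (‖z‖ + 1) := by positivity
            have e4 : 0 ≤ (r : ℝ) * (‖z‖ + 1) := by positivity
            nlinarith [abs_nonneg A1, norm_nonneg z]
    | succ n ih =>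
      intro z hz
      push_cast at hz ⊢
      have hn0 : (0 : ℝ) ≤ n := Nat.cast_nonneg n
      have hr0 : (0 : ℝ) ≤ r := Nat.cast_nonneg r
      rcases le_or_gt (R2 - n) z.re with h1 | h1
      · refine (ih z h1).trans (Real.exp_le_exp.2 ?_)
        have e1 : ‖z‖ + r * n + 1 ≤ ‖z‖ + r * (n + 1) + 1 := by nlinarith
        have e2 : D * (n + 1) ≤ D * (n + 1 + 1) := by nlinarith
        exact mul_le_mul e2 e1 (by positivity) (by positivity)
      rcases le_or_gt ‖z‖ (R + k0) with h2 | h2
      · refine (hM z (mem_closedBall_zero_iff.2 h2)).trans ?_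
        have h3 : M ≤ Real.exp |M| :=
          (le_abs_self M).trans ((le_add_of_nonneg_right zero_le_one).trans
            (Real.add_one_le_exp _))
        refine h3.trans (Real.exp_le_exp.2 ?_)
        have h4 : |M| ≤ D := by
          rw [hD]
          have : 0 ≤ |A1| + 1 + |C1| := by positivity
          have : 0 ≤ B * (1 + k0) + r := by positivity
          linarith
        have h5 : 1 ≤ (n + 1 + 1) * (‖z‖ + r * (n + 1) + 1) := by
          have e1 : (1 : ℝ) ≤ n + 1 + 1 := by linarith
          have e2 : 1 ≤ ‖z‖ + r * (n + 1) + 1 := by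
            have : 0 ≤ ‖z‖ + r * (n + 1) := by positivity
            linarith
          nlinarith
        calc |M| ≤ D := h4
          _ ≤ D * ((n + 1 + 1) * (‖z‖ + r * (n + 1) + 1)) := le_mul_of_one_le_right hD0 h5
          _ = _ := by ring
      · -- the recursion
        have hzk : R < ‖z - k0‖ := by
          have := norm_sub_norm_le z (k0 : ℂ)
          rw [Complex.norm_natCast] at this
          linarith
        have h3 := hrec (z - k0) hzk
        rw [sub_add_cancel] at h3
        have hnk : ‖z - k0‖ ≤ ‖z‖ + k0 := by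
          have := norm_sub_le z (k0 : ℂ)
          rwa [Complex.norm_natCast] at this
        have h4 : ∀ k ∈ Finset.range r, ‖b k (z - k0) * g (z - k0 + (k0 + (k + 1) : ℕ))‖ ≤
            Real.exp (B * (‖z‖ + k0)) *
              Real.exp (D * (n + 1) * (‖z‖ + r * (n + 1) + 1)) := by
          intro k hk
          rw [norm_mul]
          refine mul_le_mul ?_ ?_ (norm_nonneg _) (Real.exp_pos _).le
          · exact (hb k _ hzk).trans (Real.exp_le_exp.2 (mul_le_mul_of_nonneg_left hnk hB))
          · have e1 : z - k0 + (k0 + (k + 1) : ℕ) = z + (k + 1 : ℕ) := by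
              push_cast
              ring
            rw [e1]
            have hk1 : ((k + 1 : ℕ) : ℝ) ≤ r := by
              exact_mod_cast Finset.mem_range.1 hk
            refine (ih (z + (k + 1 : ℕ)) ?_).trans (Real.exp_le_exp.2 ?_)
            · rw [Complex.add_re, Complex.natCast_re]
              have : (1 : ℝ) ≤ ((k + 1 : ℕ) : ℝ) := by
                push_cast
                linarith [(Nat.cast_nonneg k : (0 : ℝ) ≤ k)]
              linarith
            · refine mul_le_mul_of_nonneg_left ?_ (by positivity)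
              have e2 : ‖z + (k + 1 : ℕ)‖ ≤ ‖z‖ + r := by
                refine (norm_add_le _ _).trans ?_
                rw [Complex.norm_natCast]
                linarith
              linarith
        have h5 : ‖g z‖ ≤ r * (Real.exp (B * (‖z‖ + k0)) *
            Real.exp (D * (n + 1) * (‖z‖ + r * (n + 1) + 1))) := by
          rw [h3]
          refine (norm_sum_le_of_le _ h4).trans ?_
          rw [Finset.sum_const, Finset.card_range, nsmul_eq_mul]
        refine h5.trans ?_
        have h6 : (r : ℝ) ≤ Real.exp r := by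
          have := Real.add_one_le_exp (r : ℝ)
          linarith
        calc (r : ℝ) * (Real.exp (B * (‖z‖ + k0)) *
              Real.exp (D * (n + 1) * (‖z‖ + r * (n + 1) + 1))) ≤
              Real.exp r * (Real.exp (B * (‖z‖ + k0)) *
              Real.exp (D * (n + 1) * (‖z‖ + r * (n + 1) + 1))) :=
              mul_le_mul_of_nonneg_right h6 (by positivity)
          _ = Real.exp (r + B * (‖z‖ + k0) + D * (n + 1) * (‖z‖ + r * (n + 1) + 1)) := by
              rw [Real.exp_add, Real.exp_add]
              ring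
          _ ≤ _ := by
              apply Real.exp_le_exp.2
              have e1 : r + B * (‖z‖ + k0) ≤ D * (‖z‖ + r * (n + 1) + 1) := by
                have f1 : (r : ℝ) + B * (1 + k0) ≤ D := by
                  rw [hD]
                  have : 0 ≤ |A1| + 1 + |C1| + |M| := by positivity
                  linarith
                have f2 : r + B * (‖z‖ + k0) ≤ (r + B * (1 + k0)) * (‖z‖ + 1) := by
                  have g1 : 0 ≤ (r : ℝ) * ‖z‖ := by positivity
                  have g2 : 0 ≤ B * k0 * ‖z‖ := by positivity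
                  nlinarith
                have f3 : (r + B * (1 + k0)) * (‖z‖ + 1) ≤ D * (‖z‖ + 1) :=
                  mul_le_mul_of_nonneg_right f1 (by positivity)
                have f4 : D * (‖z‖ + 1) ≤ D * (‖z‖ + r * (n + 1) + 1) := by
                  refine mul_le_mul_of_nonneg_left ?_ hD0
                  have : 0 ≤ (r : ℝ) * (n + 1) := by positivity
                  linarith
                linarith
              calc r + B * (‖z‖ + k0) + D * (n + 1) * (‖z‖ + r * (n + 1) + 1) ≤
                    D * (‖z‖ + r * (n + 1) + 1) + D * (n + 1) * (‖z‖ + r * (n + 1) + 1) := by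
                    linarith
                _ = _ := by ring
  refine ⟨2, 1, D * (|R2| + 3) * (2 + r * (|R2| + 2)), fun z hz => ?_⟩
  set n := ⌈|R2| + ‖z‖⌉₊ with hn
  have hn1 : |R2| + ‖z‖ ≤ n := Nat.le_ceil _
  have hn2 : (n : ℝ) < |R2| + ‖z‖ + 1 := Nat.ceil_lt_add_one (by positivity)
  have h1 := key n z (by
    have h2 := Complex.abs_re_le_norm z
    have h3 := neg_abs_le z.re
    have h4 := le_abs_self R2
    linarith)
  refine h1.trans (Real.exp_le_exp.2 ?_)
  have hr0 : (0 : ℝ) ≤ r := Nat.cast_nonneg r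
  have h2 : (n : ℝ) + 1 ≤ (|R2| + 3) * ‖z‖ := by nlinarith [abs_nonneg R2]
  have h3 : (n : ℝ) ≤ (|R2| + 2) * ‖z‖ := by nlinarith [abs_nonneg R2]
  have h4 : ‖z‖ + r * n + 1 ≤ (2 + r * (|R2| + 2)) * ‖z‖ := by
    have := mul_le_mul_of_nonneg_left h3 hr0
    nlinarith
  calc D * (n + 1) * (‖z‖ + r * n + 1) ≤
        D * ((|R2| + 3) * ‖z‖) * ((2 + r * (|R2| + 2)) * ‖z‖) := by
        refine mul_le_mul (mul_le_mul_of_nonneg_left h2 hD0) h4 (by positivity) (by positivity)
    _ = _ := by ring

end Pool.Agent.Q183.DF
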