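import Pool.Agent.Q183.DF.Conv
import Pool.Agent.TH143.HE.PCur

/-!
Curves given by linear difference equations in projective varieties, and rational curves.
-/

set_option autoImplicit false

namespace Pool.Agent.Q183.DF

open MvPolynomial Filter Topology Set Metric FF Pool.Agent.TH143 Pool.Agent.TH143.GT
  Pool.Agent.W602.GT Pool.Agent.W603.BP Pool.Agent.W603.GR Pool.Agent.W603.BPR Pool.Agent.W603.PV
  Pool.Agent.TH143.DE Pool.Agent.TH8.QD
open Pool.Agent.TH143.HE (IsPtP RatCurvesIn NonConstC NonConst eval₂_eval eval₂_smul_homog)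

theorem MerI.poly (q : Polynomial ℂ) : MerI (fun z => q.eval z) := by
  change MeromorphicAt (fun w => q.eval w⁻¹) 0
  induction q using Polynomial.induction_on with
  | C a =>
    simp only [Polynomial.eval_C]
    exact MeromorphicAt.const _ _
  | add p q hp hq =>
    simp only [Polynomial.eval_add]
    exact hp.add hq
  | monomial n a _ =>
    simp only [Polynomial.eval_mul, Polynomial.eval_C, Polynomial.eval_pow, Polynomial.eval_X]
    exact (MeromorphicAt.const a 0).mul ((MeromorphicAt.id 0).inv.pow (n + 1))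

theorem diffEq_poly (q : Polynomial ℂ) : DiffEq (fun z => q.eval z) := by
  by_cases hq : q = 0
  · refine ⟨0, fun _ _ => 1, fun _ => MeromorphicAt.const _ _, ⟨0, le_rfl, ?_⟩, 0, fun z _ => ?_⟩
    · intro h0
      have h0' : ∀ᶠ w in 𝓝[≠] (0 : ℂ), (1 : ℂ) = 0 := h0
      obtain ⟨w, h1⟩ := h0'.exists
      exact one_ne_zero h1
    · rw [hq]
      simp
  · refine ⟨1, fun k z => if k = 0 then -(q.comp (Polynomial.X + Polynomial.C 1)).eval z
      else q.eval z, fun k => ?_, ⟨1, le_rfl, ?_⟩, 0, fun z _ => ?_⟩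
    · by_cases hk : k = 0
      · simp only [if_pos hk]
        exact (MerI.poly (q.comp (Polynomial.X + Polynomial.C 1))).neg
      · simp only [if_neg hk]
        exact MerI.poly q
    · intro h0
      have h0' : ∀ᶠ w in 𝓝[≠] (0 : ℂ), q.eval w⁻¹ = 0 := h0
      rw [ev_inf (P := fun z => q.eval z = 0)] at h0'
      obtain ⟨R, hR⟩ := h0'
      apply hq
      apply Polynomial.eq_zero_of_infinite_isRoot
      refine Set.Infinite.mono (s := Set.range fun m : ℕ => ((|R| + 1 + m : ℝ) : ℂ)) ?_ ?_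
      · rintro _ ⟨m, rfl⟩
        apply hR
        rw [Complex.norm_real, Real.norm_of_nonneg (by positivity)]
        have := le_abs_self R
        have : (0 : ℝ) ≤ m := Nat.cast_nonneg m
        linarith
      · apply Set.infinite_range_of_injective
        intro m m' h
        simpa using h
    · rw [Finset.sum_range_succ, Finset.sum_range_one]
      simp only [if_pos, if_neg one_ne_zero, Nat.cast_zero, add_zero, Nat.cast_one,
        Polynomial.eval_comp, Polynomial.eval_add, Polynomial.eval_X, Polynomial.eval_C]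
      ring

theorem slim_poly (q : Polynomial ℂ) : SlimR (fun z => q.eval z) := by
  obtain ⟨R, hR⟩ := mer_mem (MerI.poly q)
  exact slim_of_mem (hR R le_rfl).2.1

variable {N : ℕ} {R : Type} [CommRing R]

/-- All nonconstant entire curves in the projective variety of `I`, which are given by linear
difference equations, have their image in the variety of `I'`. -/
def DiffEntireIn (φ : R →+* ℂ) (I I' : Ideal (MvPolynomial (Fin (N + 1)) R)) : Prop :=
  ∀ f : ℂ → Fin (N + 1) → ℂ, (∀ j, Differentiable ℂ (fun z => f z j)) → (∀ z, f z ≠ 0) →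
    (∀ j, DiffEq (fun z => f z j)) → (∀ j, SlimR (fun z => f z j)) → (∀ z, IsPtP φ I (f z)) →
    NonConstC f → ∀ z, IsPtP φ I' (f z)

/-- All holomorphic maps from the punctured disc to the projective variety of `I` with an essential
singularity, which are given in the coordinate `z = 1 / w` by linear difference equations, have
their image in the variety of `I'`. -/
def DiffPunctIn (φ : R →+* ℂ) (I I' : Ideal (MvPolynomial (Fin (N + 1)) R)) : Prop :=
  ∀ f : ℂ → Fin (N + 1) → ℂ,
    (∀ j, AnalyticOnNhd ℂ (fun w => f w j) {w : ℂ | w ≠ 0 ∧ ‖w‖ < 1}) →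
    (∀ w : ℂ, w ≠ 0 → ‖w‖ < 1 → f w ≠ 0) →
    (∀ j, DiffEq (fun z => f z⁻¹ j)) → (∀ j, SlimR (fun z => f z⁻¹ j)) →
    (∀ w : ℂ, w ≠ 0 → ‖w‖ < 1 → IsPtP φ I (f w)) → ¬ Extends f →
    ∀ w : ℂ, w ≠ 0 → ‖w‖ < 1 → IsPtP φ I' (f w)

/-- the forms in the ideal -/
noncomputable def forms (φ : R →+* ℂ) (I : Ideal (MvPolynomial (Fin (N + 1)) R)) :
    {G : MvPolynomial (Fin (N + 1)) R // G ∈ I ∧ ∃ d, G.IsHomogeneous d} →
      MvPolynomial (Fin (N + 1)) ℂ := fun G => map φ G.1

theorem forms_hom (φ : R →+* ℂ) (I : Ideal (MvPolynomial (Fin (N + 1)) R)) (i) :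
    ∃ d, (forms φ I i).IsHomogeneous d := by
  obtain ⟨G, hG, d, hd⟩ := i
  exact ⟨d, hd.map φ⟩

theorem on_iff {φ : R →+* ℂ} {I : Ideal (MvPolynomial (Fin (N + 1)) R)} {x : Fin (N + 1) → ℂ} :
    On (forms φ I) 1 x ↔ IsPtP φ I x := by
  constructor
  · rintro ⟨h, -⟩ G hG hGf
    have := h ⟨G, hG, hGf⟩
    change eval x (map φ G) = 0 at this
    rwa [eval_map] at this
  · intro h
    refine ⟨fun i => ?_, by rw [map_one]; exact one_ne_zero⟩
    change eval x (map φ i.1) = 0
    rw [eval_map]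
    exact h i.1 i.2.1 i.2.2

theorem isPtP_poly {φ : R →+* ℂ} {J : Ideal (MvPolynomial (Fin (N + 1)) R)}
    {P : Fin (N + 1) → Polynomial ℂ} (h : ∀ t, t ≠ 0 → IsPtP φ J (fun j => (P j).eval t)) (t : ℂ) :
    IsPtP φ J (fun j => (P j).eval t) := by
  intro G hG hGf
  have h1 : eval₂ (Polynomial.C.comp φ) P G = 0 := by
    apply Polynomial.eq_zero_of_infinite_isRoot
    refine Set.Infinite.mono (s := {t : ℂ | t ≠ 0}) ?_ ?_
    · intro s hs
      change Polynomial.eval s _ = 0
      rw [eval₂_eval]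
      exact h s hs G hG hGf
    · exact (Set.finite_singleton (0 : ℂ)).infinite_compl
  rw [← eval₂_eval, h1, Polynomial.eval_zero]

/-- the forms in `I'` vanish on the morphisms from the multiplicative group -/
theorem gm_zero {φ : R →+* ℂ} {I I' : Ideal (MvPolynomial (Fin (N + 1)) R)}
    (h : RatCurvesIn φ I I') {P : Fin (N + 1) → Polynomial ℂ} (hP : IsGmCurve (forms φ I) 1 P)
    (t : ℂ) : IsPtP φ I' (fun j => (P j).eval t) := by
  refine h P (isPtP_poly fun s hs => on_iff.1 (hP.mem s hs)) ?_ t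
  obtain ⟨s, t, -, -, j, k, hst⟩ := hP.nonconst
  exact ⟨j, k, s, t, hst⟩

theorem gm_forms {φ : R →+* ℂ} {I I' : Ideal (MvPolynomial (Fin (N + 1)) R)}
    (h : RatCurvesIn φ I I') {f : ℂ → Fin (N + 1) → ℂ} {S : Set ℂ}
    (hf : ∀ G : MvPolynomial (Fin (N + 1)) ℂ, (∃ d, G.IsHomogeneous d) →
      (∀ P, IsGmCurve (forms φ I) 1 P → ∀ t, t ≠ 0 → eval (fun j => (P j).eval t) G = 0) →
      ∀ z ∈ S, eval (f z) G = 0) {z : ℂ} (hz : z ∈ S) : IsPtP φ I' (f z) := by
  rintro G hG ⟨d, hd⟩
  have h1 := hf (map φ G) ⟨d, hd.map φ⟩ (fun P hP t _ => by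
    rw [eval_map]
    exact gm_zero h hP t G hG ⟨d, hd⟩) z hz
  rwa [eval_map] at h1

theorem hyp_one' (f : ℂ → Fin (N + 1) → ℂ) :
    DiffHyp (fun z => eval (f z) (1 : MvPolynomial (Fin (N + 1)) ℂ)) :=
  ⟨fun _ => 1, MeromorphicAt.const _ _, 0, fun z _ => by simp⟩

theorem zero_through {P : Fin (N + 1) → Polynomial ℂ} {x : Fin (N + 1) → ℂ}
    (h : Through P x) {G : MvPolynomial (Fin (N + 1)) ℂ} (hG : ∃ d, G.IsHomogeneous d)
    (h0 : ∀ t, t ≠ 0 → eval (fun j => (P j).eval t) G = 0) : eval x G = 0 := by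
  obtain ⟨d, hG⟩ := hG
  obtain ⟨t, c, ht, hc, h⟩ := h
  have h1 := h0 t ht
  rw [show (fun j => (P j).eval t) = fun j => c * x j from funext h,
    Pool.Agent.H159R3.Exp.eval_smul_homog hG] at h1
  exact (mul_eq_zero.mp h1).resolve_left (pow_ne_zero _ hc)

/-- **Entire curves.** -/
theorem diffEntireIn_of_rat {φ : R →+* ℂ} {I I' : Ideal (MvPolynomial (Fin (N + 1)) R)}
    (h : RatCurvesIn φ I I') : DiffEntireIn φ I I' := by
  intro f hf hne he hs hI hnc z
  have hX : ∀ w, On (forms φ I) 1 (f w) := fun w => on_iff.2 (hI w)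
  refine gm_forms (S := univ) h (fun G hG h0 z _ => ?_) (mem_univ z)
  by_cases hext : Extends (fun w => f w⁻¹)
  · obtain ⟨P, hP1, hP2⟩ := gm_of_extends (forms φ I) (forms_hom φ I) 1 (isHomogeneous_one _ _) f
      hf hne hX hext hnc z
    exact zero_through hP2 hG (h0 P hP1)
  · have hde : DiffEntire f := ⟨he, hs⟩
    have h1 := (gm_diff (hde.dcurve hf) (forms φ I) (forms_hom φ I) (isHomogeneous_one _ _)
      (fun z _ => hne z) (fun z _ => (hX z).1) (fun z _ => (hX z).2) (hyp_one' f) hext).2 G hG h0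
    have han := Pool.Agent.TH143.GT.eval_an' (S := univ) (fun j z _ => (hf j).analyticAt z) G
    have h4 : (2 : ℂ) ∈ Ext 1 := by
      change (1 : ℝ) < ‖(2 : ℂ)‖
      norm_num
    refine han.eqOn_zero_of_preconnected_of_eventuallyEq_zero isPreconnected_univ
      (mem_univ (2 : ℂ)) ?_ (mem_univ z)
    filter_upwards [(isOpen_lt continuous_const continuous_norm).mem_nhds h4] with x hx
    exact h1 x hx

/-- **Punctured discs.** -/
theorem diffPunctIn_of_rat {φ : R →+* ℂ} {I I' : Ideal (MvPolynomial (Fin (N + 1)) R)}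
    (h : RatCurvesIn φ I I') : DiffPunctIn φ I I' := by
  intro f hf hne he hs hI hext w hw0 hw1
  refine gm_forms (S := {w : ℂ | w ≠ 0 ∧ ‖w‖ < 1}) h (fun G hG h0 z hz => ?_) ⟨hw0, hw1⟩
  have hin : ∀ z ∈ Ext 1, z⁻¹ ∈ PB 1 := fun z hz => inv_mem_PB one_pos (by rwa [inv_one])
  have hX : ∀ z ∈ Ext 1, On (forms φ I) 1 (f z⁻¹) := fun z hz =>
    on_iff.2 (hI _ (hin z hz).1 (hin z hz).2)
  have hdp : DiffPunct (1 : MvPolynomial (Fin (N + 1)) ℂ) f := ⟨he, hs, Or.inr (hyp_one' _)⟩
  have h1 := (gm_diff (hdp.dcurve hf) (forms φ I) (forms_hom φ I) (isHomogeneous_one _ _)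
    (fun z hz => hne _ (hin z hz).1 (hin z hz).2) (fun z hz => (hX z hz).1)
    (fun z hz => (hX z hz).2) (hyp_one' _) (by simpa using hext)).2 G hG h0 z⁻¹ (by
      have := inv_mem_Ext (show z ∈ PB 1 from hz)
      rwa [inv_one] at this)
  simpa using h1

/-- a rational curve which is not contained in the variety of `I'`, without common zeros -/
theorem exists_primitive {φ : R →+* ℂ} {I I' : Ideal (MvPolynomial (Fin (N + 1)) R)}
    (h : ∀ q : Fin (N + 1) → Polynomial ℂ, (∀ z, (fun j => (q j).eval z) ≠ 0) →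
      (∀ z, IsPtP φ I (fun j => (q j).eval z)) → NonConst q →
      ∀ z, IsPtP φ I' (fun j => (q j).eval z)) : RatCurvesIn φ I I' := by
  classical
  intro p hp hnc u0 G' hG' hGh
  obtain ⟨j0, k0, u1, v1, hne⟩ := hnc
  obtain ⟨q, hq, hqg⟩ := Finset.extract_gcd (s := (Finset.univ : Finset (Fin (N + 1)))) p
    ⟨0, Finset.mem_univ _⟩
  set g := Finset.univ.gcd p with hg
  have hpq : ∀ j, p j = g * q j := fun j => hq j (Finset.mem_univ j)
  have hg0 : g ≠ 0 := by
    intro h0
    apply hne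
    rw [hpq j0, hpq k0, h0]
    simp
  have hne' : (q j0).eval u1 * (q k0).eval v1 ≠ (q k0).eval u1 * (q j0).eval v1 := by
    intro h0
    apply hne
    rw [hpq j0, hpq k0]
    simp only [Polynomial.eval_mul]
    linear_combination (g.eval u1 * g.eval v1) * h0
  have hz : ∀ z, (fun j => (q j).eval z) ≠ 0 := by
    intro z h0
    have h1 : (Polynomial.X - Polynomial.C z) ∣ Finset.univ.gcd q := by
      refine Finset.dvd_gcd fun j _ => ?_
      rw [Polynomial.dvd_iff_isRoot]
      exact congrFun h0 j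
    rw [hqg] at h1
    exact Polynomial.not_isUnit_X_sub_C z (isUnit_of_dvd_one h1)
  -- values
  have hval : ∀ G : MvPolynomial (Fin (N + 1)) R, (∃ d, G.IsHomogeneous d) →
      (eval₂ (Polynomial.C.comp φ) p G = 0 ↔ eval₂ (Polynomial.C.comp φ) q G = 0) := by
    rintro G ⟨d, hd⟩
    have h1 : p = fun j => g * q j := funext hpq
    rw [h1, eval₂_smul_homog _ g q hd]
    constructor
    · intro h2
      exact (mul_eq_zero.1 h2).resolve_left (pow_ne_zero _ hg0)
    · intro h2
      rw [h2, mul_zero]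
  have hzero : ∀ (r : Fin (N + 1) → Polynomial ℂ) (G : MvPolynomial (Fin (N + 1)) R),
      (eval₂ (Polynomial.C.comp φ) r G = 0 ↔ ∀ u, eval₂ φ (fun j => (r j).eval u) G = 0) := by
    intro r G
    constructor
    · intro h1 u
      rw [← eval₂_eval, h1, Polynomial.eval_zero]
    · intro h1
      apply Polynomial.funext
      intro u
      rw [eval₂_eval, h1, Polynomial.eval_zero]
  have h1 := h q hz (fun z G hG hGf =>
    (hzero q G).1 ((hval G hGf).1 ((hzero p G).2 fun u => hp u G hG hGf)) z)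
    ⟨j0, k0, u1, v1, hne'⟩
  rw [← eval₂_eval, (hval G' hGh).2, Polynomial.eval_zero]
  exact (hzero q G').2 fun u => h1 u G' hG' hGh

theorem rat_of_diffEntireIn {φ : R →+* ℂ} {I I' : Ideal (MvPolynomial (Fin (N + 1)) R)}
    (h : DiffEntireIn φ I I') : RatCurvesIn φ I I' := by
  refine exists_primitive fun q hq hqI hnc z => ?_
  obtain ⟨j, k, u, v, huv⟩ := hnc
  exact h (fun z j => (q j).eval z) (fun j => (q j).differentiable) hq
    (fun j => diffEq_poly (q j)) (fun j => slim_poly (q j)) hqI ⟨u, v, j, k, huv⟩ z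

theorem rat_of_diffPunctIn {φ : R →+* ℂ} {I I' : Ideal (MvPolynomial (Fin (N + 1)) R)}
    (h : DiffPunctIn φ I I') : RatCurvesIn φ I I' := by
  refine exists_primitive fun q hq hqI hnc z => ?_
  have hG : IsGmCurve (forms φ I) 1 q := by
    refine ⟨fun t _ => Function.ne_iff.1 (hq t), fun t _ => on_iff.2 (hqI t), ?_⟩
    obtain ⟨j, k, u, v, huv⟩ := hnc
    by_contra hcon
    push Not at hcon
    apply huv
    have h2 : ∀ s : ℂ, s ≠ 0 → ∀ t : ℂ, (q j).eval s * (q k).eval t = (q k).eval s * (q j).eval t := by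
      intro s hs
      have hc1 : Continuous fun t : ℂ => (q j).eval s * (q k).eval t := by fun_prop
      have hc2 : Continuous fun t : ℂ => (q k).eval s * (q j).eval t := by fun_prop
      have hd : Dense {t : ℂ | t ≠ 0} := dense_compl_singleton 0
      exact congrFun (hc1.ext_on hd hc2 (fun t ht => hcon s t hs ht j k))
    have hc1 : Continuous fun s : ℂ => (q j).eval s * (q k).eval v := by fun_prop
    have hc2 : Continuous fun s : ℂ => (q k).eval s * (q j).eval v := by fun_prop
    have hd : Dense {s : ℂ | s ≠ 0} := dense_compl_singleton 0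
    exact congrFun (hc1.ext_on hd hc2 (fun s hs => h2 s hs v)) u
  have hdp := diffPunct_exp (1 : MvPolynomial (Fin (N + 1)) ℂ) q
  refine isPtP_poly (J := I') (P := q) (fun t ht => ?_) z
  obtain ⟨w, hw, hwt⟩ := exists_exp_inv ht one_pos
  have h1 := h (fun w => fun j => (q j).eval (Complex.exp w⁻¹))
    (fun j w hw => by
      have h2 : AnalyticAt ℂ (fun w : ℂ => Complex.exp w⁻¹) w := (analyticAt_inv hw.1).cexp
      have h3 : AnalyticAt ℂ (fun x : ℂ => (q j).eval x) (Complex.exp w⁻¹) :=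
        (Polynomial.differentiable (q j)).analyticAt _
      exact AnalyticAt.comp (g := fun x : ℂ => (q j).eval x)
        (f := fun w : ℂ => Complex.exp w⁻¹) h3 h2)
    (fun w _ _ => hq _) hdp.eqn hdp.slim (fun w _ _ => hqI _)
    (not_extends_exp (forms φ I) 1 q hG) w hw.1 hw.2
  simp only [hwt] at h1
  exact h1

end Pool.Agent.Q183.DF
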