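import Pool.Agent.Q183.DF.Grow
import Pool.Agent.TH8.QD.Log

/-!
Curves given by linear difference equations in quasi-projective varieties.
-/

set_option autoImplicit false

namespace Pool.Agent.Q183.DF

open MvPolynomial Filter Topology Set Metric FF Pool.Agent.TH143 Pool.Agent.TH143.GT
  Pool.Agent.W602.GT Pool.Agent.W603.BP Pool.Agent.W603.GR Pool.Agent.W603.BPR Pool.Agent.W603.PV
  Pool.Agent.TH143.DE Pool.Agent.TH8.QD

variable {N : ℕ} {K : Type} [Field K] [Algebra ℂ K] {w : ℕ} {y : Fin (N + 1) → K}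
  {Q : MvPolynomial (Fin (N + 1)) ℂ} {e : ℕ} {f : ℂ → Fin (N + 1) → ℂ}
  {p : Ideal (MvPolynomial (Fin (N + 1)) ℂ)}

/-- The holomorphic map `f` from the punctured disc is given, in the coordinate `z = 1 / w`, by
linear difference equations with coefficients meromorphic at infinity; the growth of the solutions
in a right half plane is at most exponential, and of type zero in the imaginary direction. For the
boundary `Q`, either the solutions are of finite order, or `Q` along the curve satisfies a difference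
equation of order one. -/
structure DiffPunct (Q : MvPolynomial (Fin (N + 1)) ℂ) (f : ℂ → Fin (N + 1) → ℂ) : Prop where
  eqn : ∀ j, DiffEq (fun z => f z⁻¹ j)
  slim : ∀ j, SlimR (fun z => f z⁻¹ j)
  bd : (∀ j, FinOrd (fun z => f z⁻¹ j)) ∨ DiffHyp (fun z => eval (f z⁻¹) Q)

/-- The entire curve `f` is given by linear difference equations with coefficients meromorphic at
infinity; the growth of the solutions in a right half plane is at most exponential, and of type zero
in the imaginary direction. -/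
structure DiffEntire (f : ℂ → Fin (N + 1) → ℂ) : Prop where
  eqn : ∀ j, DiffEq (fun z => f z j)
  slim : ∀ j, SlimR (fun z => f z j)

theorem an_ext {u : ℂ → ℂ} (hu : AnalyticOnNhd ℂ u (PB 1)) :
    AnalyticOnNhd ℂ (fun z => u z⁻¹) (Ext 1) := by
  intro z hz
  have hz' : 1 < ‖z‖ := hz
  have h0 : z ≠ 0 := by
    intro h0
    rw [h0, norm_zero] at hz'
    linarith
  have h1 : AnalyticAt ℂ u z⁻¹ := hu _ (inv_mem_PB one_pos (by rwa [inv_one]))
  exact AnalyticAt.comp (g := u) (f := fun z : ℂ => z⁻¹) h1 (analyticAt_inv h0)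

theorem slim_of_mem {g : ℂ → ℂ} {ρ : ℝ} (h : g ∈ slimS ρ) : SlimR g := by
  obtain ⟨-, A, -, h⟩ := h
  refine ⟨ρ + 1, A, fun ε hε => ?_⟩
  obtain ⟨C, -, h1⟩ := h ε hε
  exact ⟨C, h1⟩

theorem DCurve.slimForm (h : DCurve f) (G : MvPolynomial (Fin (N + 1)) ℂ) :
    SlimR (fun z => eval (f z) G) := by
  obtain ⟨R, -, hR⟩ := h.large
  obtain ⟨hs, -⟩ := hR R le_rfl
  refine slim_of_mem (ρ := R) ?_
  induction G using MvPolynomial.induction_on with
  | C a =>
    simp only [eval_C]
    exact (slimS R).algebraMap_mem a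
  | add P Q hP hQ =>
    simp only [map_add]
    exact (slimS R).add_mem hP hQ
  | mul_X P i hP =>
    simp only [map_mul, eval_X]
    exact (slimS R).mul_mem hP (hs i)

/-- the boundary -/
theorem DCurve.hyp (h : DCurve f) (hQ : ∀ z ∈ Ext 1, eval (f z) Q ≠ 0)
    (hb : (∀ j, FinOrd (fun z => f z j)) ∨ DiffHyp (fun z => eval (f z) Q)) :
    DiffHyp (fun z => eval (f z) Q) := by
  rcases hb with hb | hb
  · exact hyp_of_fin (eval_an_ext h Q) hQ (finOrd_form hb Q) (h.slimForm Q)
  · exact hb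

theorem DiffPunct.dcurve (h : DiffPunct Q f) (hf : ∀ j, AnalyticOnNhd ℂ (fun w => f w j) (PB 1)) :
    DCurve (fun z => f z⁻¹) := ⟨fun j => an_ext (hf j), h.eqn, h.slim⟩

theorem DiffEntire.dcurve (h : DiffEntire f) (hf : ∀ j, Differentiable ℂ (fun z => f z j)) :
    DCurve f := ⟨fun j z _ => (hf j).analyticAt z, h.eqn, h.slim⟩

theorem DiffEntire.hyp (h : DiffEntire f) (hf : ∀ j, Differentiable ℂ (fun z => f z j))
    (hQ : ∀ z, eval (f z) Q ≠ 0) : DiffHyp (fun z => eval (f z) Q) :=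
  (h.dcurve hf).hyp (fun z _ => hQ z) (Or.inl fun j => finOrd_of_diffEq (hf j) (h.eqn j) (h.slim j))

/-- punctured discs -/
theorem fam_p (h : DiffPunct Q f) (hy : GenPt f (PB 1) K w y)
    (hf : ∀ j, AnalyticOnNhd ℂ (fun w => f w j) (PB 1)) (hQe : Q.IsHomogeneous e)
    (hne : ∀ z ∈ PB 1, f z ≠ 0) (hQ : ∀ z ∈ PB 1, eval (f z) Q ≠ 0) (hext : ¬ Extends f) :
    ∃ r : K, ¬ AllFlat Q y r := by
  have hin : ∀ z ∈ Ext 1, z⁻¹ ∈ PB 1 := fun z hz => inv_mem_PB one_pos (by rwa [inv_one])
  have hgp : GenPt (fun z => f z⁻¹) (Ext 1) K w y := by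
    refine ⟨hy.ne, hy.gen, hy.dim, fun G hG => (hy.rel G hG).trans ?_⟩
    constructor
    · intro h0 z hz
      exact h0 _ (hin z hz)
    · intro h0 z hz
      have h1 := h0 z⁻¹ (by
        have := inv_mem_Ext hz
        rwa [inv_one] at this)
      simpa using h1
  have hdc := h.dcurve hf
  refine fam_diff hdc hgp hQe (fun z hz => hne _ (hin z hz)) (fun z hz => hQ _ (hin z hz))
    (hdc.hyp (fun z hz => hQ _ (hin z hz)) h.bd) ?_
  simpa using hext

theorem GenPt.ext (hf : ∀ j, Differentiable ℂ (fun z => f z j)) (hy : GenPt f univ K w y) :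
    GenPt f (Ext 1) K w y := by
  refine ⟨hy.ne, hy.gen, hy.dim, fun G hG => (hy.rel G hG).trans ?_⟩
  constructor
  · intro h z _
    exact h _ (mem_univ _)
  · intro h z _
    have han := eval_an' (S := univ) (fun j z _ => (hf j).analyticAt z) G
    have h2 : (2 : ℂ) ∈ Ext 1 := by
      change (1 : ℝ) < ‖(2 : ℂ)‖
      norm_num
    refine han.eqOn_zero_of_preconnected_of_eventuallyEq_zero isPreconnected_univ
      (mem_univ (2 : ℂ)) ?_ (mem_univ z)
    filter_upwards [(isOpen_lt continuous_const continuous_norm).mem_nhds h2] with x hx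
    exact h x hx

/-- entire curves -/
theorem fam_e (h : DiffEntire f) (hy : GenPt f univ K w y)
    (hf : ∀ j, Differentiable ℂ (fun z => f z j)) (hQe : Q.IsHomogeneous e)
    (hne : ∀ z, f z ≠ 0) (hQ : ∀ z, eval (f z) Q ≠ 0)
    (hnc : ∃ z w j k, f z j * f w k ≠ f z k * f w j) : ∃ r : K, ¬ AllFlat Q y r := by
  by_cases hext : Extends (fun w => f w⁻¹)
  · exact fam_of_rational hy hf hne hQe hQ hnc hext
  · exact fam_diff (h.dcurve hf) (GenPt.ext hf hy) hQe (fun z _ => hne z) (fun z _ => hQ z)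
      (h.hyp hf hQ) hext

/-- **Strongly of log general type implies the Picard property** for maps given by linear difference
equations. -/
theorem strong_picard_d (hp : IsHomog p) (hQ : Q.IsHomogeneous e)
    {G : MvPolynomial (Fin (N + 1)) ℂ} (hG : IsForm G) (h : SubLogGT p Q e G) (hf : PCurve p Q f)
    (hl : DiffPunct Q f) (hfG : ∃ z ∈ ball (0 : ℂ) 1 \ {0}, eval (f z) G ≠ 0) : Extends f := by
  by_contra hext
  have han := hf.an
  have hne : ∀ w ∈ PB 1, f w ≠ 0 := fun w hw => (hf.2 w (mem_disc.2 hw)).1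
  have hX : ∀ z ∈ PB 1, ∀ H ∈ p, eval (f z) H = 0 := fun z hz => (hf.2 z (mem_disc.2 hz)).2.1
  have hfQ : ∀ z ∈ PB 1, eval (f z) Q ≠ 0 := fun z hz => (hf.2 z (mem_disc.2 hz)).2.2
  obtain ⟨z0, hz0⟩ := PB_nonempty one_pos
  obtain ⟨j0, hj0⟩ := Function.ne_iff.1 (hne z0 hz0)
  obtain ⟨K, i1, i2, w, y, h1, h2, h3, h4, h5⟩ := exists_closure f (PB_preconn one_pos) han
    ⟨z0, hz0, hj0⟩
  have hy : GenPt f (PB 1) K w y := ⟨h1, h2, h3, h4⟩
  rcases Nat.eq_zero_or_pos w with hw | hw
  · exact hext (extends_of_const han hne (h5 hw))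
  · have hsub := subVar_of_genPt hp hQ hy hX ⟨z0, hz0, hfQ z0 hz0⟩
    have hGy : W602.GT.val y G ≠ 0 := by
      intro h0
      obtain ⟨z, hz, hzG⟩ := hfG
      exact hzG ((hy.rel G hG).1 h0 z (mem_disc.1 hz))
    obtain ⟨r, hr⟩ := fam_p hl hy han hQ hne hfQ hext
    exact hr (allFlat_gt hy hQ (h K w y hw hsub hGy) r)

/-- **Strongly of log general type implies the Brody property** for curves given by linear difference
equations. -/
theorem strong_brody_d (hp : IsHomog p) (hQ : Q.IsHomogeneous e)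
    {G : MvPolynomial (Fin (N + 1)) ℂ} (hG : IsForm G) (h : SubLogGT p Q e G)
    (hf : EntireCurve p Q f) (hl : DiffEntire f) (z : ℂ) : eval (f z) G = 0 := by
  by_contra hz
  obtain ⟨hd, hne, hfQ, hnc⟩ := ent_data hf
  have hfa : ∀ j, AnalyticOnNhd ℂ (fun w => f w j) univ := fun j z _ => (hd j).analyticAt z
  obtain ⟨j0, hj0⟩ := Function.ne_iff.1 (hne 0)
  obtain ⟨K, i1, i2, w, y, h1, h2, h3, h4, h5⟩ := exists_closure f isPreconnected_univ hfa
    ⟨0, mem_univ _, hj0⟩
  have hy : GenPt f univ K w y := ⟨h1, h2, h3, h4⟩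
  rcases Nat.eq_zero_or_pos w with hw | hw
  · choose c hc using h5 hw
    obtain ⟨s, t, j, k, hst⟩ := hnc
    apply hst
    rw [hc j s (mem_univ _), hc k t (mem_univ _), hc k s (mem_univ _), hc j t (mem_univ _)]
    ring
  · have hsub := subVar_of_genPt hp hQ hy (fun z _ => (hf.2.1 z).2.1) ⟨0, mem_univ _, hfQ 0⟩
    have hGy : W602.GT.val y G ≠ 0 := by
      intro h0
      exact hz ((hy.rel G hG).1 h0 z (mem_univ z))
    obtain ⟨r, hr⟩ := fam_e hl hy hd hQ hne hfQ hnc
    exact hr (allFlat_gt (hy.inv hd) hQ (h K w y hw hsub hGy) r)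

/-- **Rational functions along an entire curve.** -/
theorem two_flat_d (h : DiffEntire f) (hy : GenPt f univ K w y)
    (hf : ∀ j, Differentiable ℂ (fun z => f z j)) (hQe : Q.IsHomogeneous e)
    (hQ : ∀ z, eval (f z) Q ≠ 0) (r : Fin 2 → K) (hr : ∀ i, AllFlat Q y (r i)) :
    ¬ AlgebraicIndependent ℂ r := by
  classical
  intro hind
  have hdom : IsDomain (Hol univ) := hol_domain isPreconnected_univ univ_nonempty
  let F := FractionRing (Hol univ)
  let i : Hol univ →ₐ[ℂ] F := IsScalarTower.toAlgHom ℂ (Hol univ) F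
  have hi : Function.Injective i := IsFractionRing.injective (Hol univ) F
  have hfa : ∀ j, AnalyticOnNhd ℂ (fun w => f w j) univ := fun j z _ => (hf j).analyticAt z
  let a : Fin (N + 1) → Hol univ := fun j => toHol (fun w => f w j) (hfa j)
  let Z : Hol univ := toHol (fun w => w) (fun z _ => analyticAt_id)
  have haG : ∀ (G : MvPolynomial (Fin (N + 1)) ℂ) (z : (univ : Set ℂ)),
      evz z (aeval a G) = eval (f z) G := by
    intro G z
    have h6 := MvPolynomial.comp_aeval_apply (f := a) (evz z) G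
    rw [h6, ← MvPolynomial.aeval_eq_eval]
    rfl
  have hZP : ∀ (P : Polynomial ℂ) (z : (univ : Set ℂ)),
      evz z (Polynomial.aeval Z P) = P.eval (z : ℂ) := by
    intro P z
    rw [← Polynomial.aeval_algHom_apply, Polynomial.aeval_def, Polynomial.eval₂_eq_eval_map]
    congr 1
    exact Polynomial.map_id
  have hval : ∀ G : MvPolynomial (Fin (N + 1)) ℂ, W602.GT.val (fun j => i (a j)) G =
      i (aeval a G) := fun G => (MvPolynomial.comp_aeval_apply (f := a) i G).symm
  have hrel : ∀ G : MvPolynomial (Fin (N + 1)) ℂ, aeval a G = 0 ↔ ∀ z ∈ univ, eval (f z) G = 0 := by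
    intro G
    constructor
    · intro h z hz
      rw [← haG G ⟨z, hz⟩, h, map_zero]
    · intro h
      apply hol_ext
      intro z
      rw [haG, h z z.2, map_zero]
  obtain ⟨φ, hφ⟩ := emb_gen (L := F) (y' := fun j => i (a j)) hy.ne hy.gen (by
    intro G hG
    rw [hval, map_eq_zero_iff i hi, hrel]
    exact hy.rel G hG)
  let E := IntermediateField.adjoin ℂ {i Z}
  have hE : ∀ j, φ (r j) ∈ E := by
    intro j
    obtain ⟨d, g1, g0, h1, h0, hn, hrj⟩ := exists_frac hy.gen (r j)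
    have hm := mrel_of_flat_diff (h.dcurve hf) (GenPt.ext hf hy) hQe (fun z _ => hQ z)
      (h.hyp hf hQ) h0 h1 hn (by rw [← hrj]; exact hr j)
    have hd : ∀ G : MvPolynomial (Fin (N + 1)) ℂ, Differentiable ℂ (fun z => eval (f z) G) :=
      fun G z => ((eval_an' (S := univ) hfa G) z (mem_univ z)).differentiableAt
    have hg0 : aeval a g0 ≠ 0 := by
      intro h
      exact hn ((hy.rel g0 ⟨d, h0⟩).2 ((hrel g0).1 h))
    obtain ⟨A, B, hA, hAB⟩ := rational_of_mrel (hd g1) (hd g0) (by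
      by_contra hcon
      push Not at hcon
      exact hg0 ((hrel g0).2 fun z _ => hcon z)) hm
    have h2 : Polynomial.aeval Z A * aeval a g1 = Polynomial.aeval Z B * aeval a g0 := by
      apply hol_ext
      intro z
      rw [map_mul, map_mul, hZP, hZP, haG, haG]
      exact hAB z
    have hA0 : Polynomial.aeval Z A ≠ 0 := by
      intro h
      apply hA
      apply Polynomial.funext
      intro x
      rw [← hZP A ⟨x, mem_univ x⟩, h, map_zero, Polynomial.eval_zero]
    have hiA : i (Polynomial.aeval Z A) ≠ 0 := by rwa [Ne, map_eq_zero_iff i hi]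
    have hig : i (aeval a g0) ≠ 0 := by rwa [Ne, map_eq_zero_iff i hi]
    have h3 : φ (r j) = Polynomial.aeval (i Z) B / Polynomial.aeval (i Z) A := by
      rw [hrj, hφ d g1 g0 h1 h0 hn, hval, hval, Polynomial.aeval_algHom_apply,
        Polynomial.aeval_algHom_apply, div_eq_div_iff hig hiA, ← map_mul, ← map_mul]
      congr 1
      rw [mul_comm, h2]
    rw [h3]
    have h4 : ∀ P : Polynomial ℂ, Polynomial.aeval (i Z) P ∈ E := by
      intro P
      have h5 : i Z ∈ E := IntermediateField.mem_adjoin_simple_self ℂ _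
      have h6 := (Polynomial.aeval (⟨i Z, h5⟩ : E) P).2
      have h7 : ((Polynomial.aeval (⟨i Z, h5⟩ : E) P : E) : F) = Polynomial.aeval (i Z) P := by
        have := Polynomial.aeval_algHom_apply E.val (⟨i Z, h5⟩ : E) P
        exact this.symm
      rwa [h7] at h6
    exact div_mem (h4 B) (h4 A)
  have h1 : AlgebraicIndependent ℂ (fun j => (⟨φ (r j), hE j⟩ : E)) := by
    have h2 : AlgebraicIndependent ℂ (fun j => φ (r j)) := hind.map' (f := φ) φ.injective
    exact AlgebraicIndependent.of_comp E.val (x := fun j => (⟨φ (r j), hE j⟩ : E)) h2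
  have h2 := h1.cardinalMk_le_trdeg
  have h3 := h2.trans (trdeg_simple (i Z))
  rw [Cardinal.mk_fin] at h3
  exact absurd h3 (by norm_num)

theorem no_bog_d (h : DiffEntire f) (hQ : Q.IsHomogeneous e) (hy : GenPt f univ K w y)
    (hd : ∀ j, Differentiable ℂ (fun z => f z j))
    (hfQ : ∀ z, eval (f z) Q ≠ 0) {n : ℕ} (hn : 2 ≤ n) :
    ¬ BogSheaf ℂ K w (OffQ Q e y) n := by
  rintro ⟨θ, hθ, m, hm, g, hlog, hreg, hg0, hind⟩
  have h1 : ∀ j, AllFlat Q y (g j / g 0) := fun j =>
    allFlat_bog (hy.inv hd) hQ θ hθ hm g hlog hreg 0 j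
  have h2 : AlgebraicIndependent ℂ (fun i : Fin 2 => g (Fin.castLE hn i).succ / g 0) :=
    hind.comp (Fin.castLE hn) (Fin.castLE_injective hn)
  exact two_flat_d h hy hd hQ hfQ _ (fun i => h1 _) h2

theorem no_kod_d (h : DiffEntire f) (hQ : Q.IsHomogeneous e) (hy : GenPt f univ K w y)
    (hd : ∀ j, Differentiable ℂ (fun z => f z j))
    (hfQ : ∀ z, eval (f z) Q ≠ 0) {n : ℕ} (hn : 2 ≤ n) :
    ¬ KodGe ℂ K w (OffQ Q e y) n := by
  rintro ⟨m, hm, ω, hω, D, hD, hind⟩
  have h1 : ∀ j, AllFlat Q y (ω j D / ω 0 D) := fun j =>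
    allFlat_sec (hy.inv hd) hQ hm (hω 0) (hω j) D
  have h2 : AlgebraicIndependent ℂ (fun i : Fin 2 => ω (Fin.castLE hn i).succ D / ω 0 D) :=
    hind.comp (Fin.castLE hn) (Fin.castLE_injective hn)
  exact two_flat_d h hy hd hQ hfQ _ (fun i => h1 _) h2

end Pool.Agent.Q183.DF
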