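import Pool.Agent.Q183.DF.Uniq
import Pool.Agent.Q183.DF.Carl

/-!
Algebras of holomorphic functions on right half planes for which the sequences with step one are
sets of uniqueness.
-/

set_option autoImplicit false

namespace Pool.Agent.Q183.DF

open MvPolynomial Filter Topology Set Metric FF Pool.Agent.TH143 Pool.Agent.TH143.GT
  Pool.Agent.W602.GT Pool.Agent.W603.BP Pool.Agent.W603.GR Pool.Agent.W603.BPR Pool.Agent.TH143.DE
  Pool.Agent.TH8.QD

/-- a right half plane -/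
def HP (ρ : ℝ) : Set ℂ := {z : ℂ | ρ < z.re}

theorem HP_open (ρ : ℝ) : IsOpen (HP ρ) := isOpen_lt continuous_const Complex.continuous_re

theorem HP_pre (ρ : ℝ) : IsPreconnected (HP ρ) := (convex_halfSpace_re_gt ρ).isPreconnected

/-- holomorphic functions on a half plane, of exponential growth, and of exponential type zero in
the imaginary direction -/
def slimS (ρ : ℝ) : Subalgebra ℂ (ℂ → ℂ) where
  carrier := {f | AnalyticOnNhd ℂ f (HP ρ) ∧ ∃ A : ℝ, 0 ≤ A ∧ ∀ ε : ℝ, 0 < ε → ∃ C : ℝ, 0 ≤ C ∧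
    ∀ z : ℂ, ρ + 1 ≤ z.re → ‖f z‖ ≤ C * Real.exp (A * |z.re| + ε * |z.im|)}
  mul_mem' := by
    rintro f g ⟨hf, A, hA, h⟩ ⟨hg, A', hA', h'⟩
    refine ⟨hf.mul hg, A + A', add_nonneg hA hA', fun ε hε => ?_⟩
    obtain ⟨C, hC, h1⟩ := h (ε / 2) (half_pos hε)
    obtain ⟨C', hC', h1'⟩ := h' (ε / 2) (half_pos hε)
    refine ⟨C * C', mul_nonneg hC hC', fun z hz => ?_⟩
    have h2 : Real.exp ((A + A') * |z.re| + ε * |z.im|) = Real.exp (A * |z.re| + ε / 2 * |z.im|) *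
        Real.exp (A' * |z.re| + ε / 2 * |z.im|) := by
      rw [← Real.exp_add]
      congr 1
      ring
    rw [Pi.mul_apply, norm_mul, h2]
    calc ‖f z‖ * ‖g z‖ ≤ (C * Real.exp (A * |z.re| + ε / 2 * |z.im|)) *
          (C' * Real.exp (A' * |z.re| + ε / 2 * |z.im|)) :=
          mul_le_mul (h1 z hz) (h1' z hz) (norm_nonneg _) (by positivity)
      _ = _ := by ring
  add_mem' := by
    rintro f g ⟨hf, A, hA, h⟩ ⟨hg, A', hA', h'⟩
    refine ⟨hf.add hg, A + A', add_nonneg hA hA', fun ε hε => ?_⟩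
    obtain ⟨C, hC, h1⟩ := h ε hε
    obtain ⟨C', hC', h1'⟩ := h' ε hε
    refine ⟨C + C', add_nonneg hC hC', fun z hz => (norm_add_le _ _).trans ?_⟩
    have h2 : Real.exp (A * |z.re| + ε * |z.im|) ≤ Real.exp ((A + A') * |z.re| + ε * |z.im|) := by
      apply Real.exp_le_exp.2
      nlinarith [abs_nonneg z.re]
    have h3 : Real.exp (A' * |z.re| + ε * |z.im|) ≤ Real.exp ((A + A') * |z.re| + ε * |z.im|) := by
      apply Real.exp_le_exp.2
      nlinarith [abs_nonneg z.re]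
    have h4 := mul_le_mul_of_nonneg_left h2 hC
    have h5 := mul_le_mul_of_nonneg_left h3 hC'
    have h6 := h1 z hz
    have h7 := h1' z hz
    rw [add_mul]
    linarith
  algebraMap_mem' := fun c => ⟨analyticOnNhd_const, 0, le_rfl, fun ε hε => ⟨‖c‖, norm_nonneg _,
    fun z _ => by
      have h1 : (1 : ℝ) ≤ Real.exp (0 * |z.re| + ε * |z.im|) :=
        Real.one_le_exp (by positivity)
      change ‖c‖ ≤ _
      nlinarith [norm_nonneg c]⟩⟩

theorem slim_an {ρ : ℝ} {f : ℂ → ℂ} (h : f ∈ slimS ρ) : AnalyticOnNhd ℂ f (HP ρ) := h.1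

/-- growth in a right half plane -/
def SlimR (g : ℂ → ℂ) : Prop := ∃ R A : ℝ, ∀ ε : ℝ, 0 < ε → ∃ C : ℝ, ∀ z : ℂ, R ≤ z.re →
  ‖g z‖ ≤ C * Real.exp (A * |z.re| + ε * |z.im|)

theorem slim_mem {g : ℂ → ℂ} (h : SlimR g) : ∃ R : ℝ, ∀ ρ, R ≤ ρ →
    AnalyticOnNhd ℂ g (HP ρ) → g ∈ slimS ρ := by
  obtain ⟨R, A, h⟩ := h
  refine ⟨R, fun ρ hρ hg => ⟨hg, |A|, abs_nonneg A, fun ε hε => ?_⟩⟩
  obtain ⟨C, h1⟩ := h ε hε
  refine ⟨|C|, abs_nonneg C, fun z hz => (h1 z (by linarith)).trans ?_⟩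
  refine mul_le_mul (le_abs_self C) (Real.exp_le_exp.2 ?_) (Real.exp_pos _).le (abs_nonneg C)
  nlinarith [le_abs_self A, abs_nonneg z.re]

theorem slim_shift {ρ : ℝ} {f : ℂ → ℂ} (h : f ∈ slimS ρ) : (fun z => f (z + 1)) ∈ slimS ρ := by
  obtain ⟨hf, A, hA, h⟩ := h
  refine ⟨fun z hz => ?_, A, hA, fun ε hε => ?_⟩
  · have h1 : AnalyticAt ℂ f (z + 1) := hf _ (by
      have : ρ < z.re := hz
      change ρ < (z + 1).re
      rw [Complex.add_re, Complex.one_re]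
      linarith)
    exact AnalyticAt.fun_comp h1 (by fun_prop)
  · obtain ⟨C, hC, h1⟩ := h ε hε
    refine ⟨C * Real.exp A, by positivity, fun z hz => ?_⟩
    refine (h1 (z + 1) (by rw [Complex.add_re, Complex.one_re]; linarith)).trans ?_
    rw [mul_assoc, ← Real.exp_add]
    refine mul_le_mul_of_nonneg_left (Real.exp_le_exp.2 ?_) hC
    rw [Complex.add_re, Complex.one_re, Complex.add_im, Complex.one_im, add_zero]
    have h2 := abs_add_le z.re 1
    rw [abs_one] at h2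
    nlinarith

/-- meromorphic at infinity -/
def MerI (a : ℂ → ℂ) : Prop := MeromorphicAt (fun w => a w⁻¹) 0

theorem MerI.affine {a : ℂ → ℂ} (h : MerI a) {c : ℂ} (hc : c ≠ 0) (d : ℂ) :
    MerI (fun z => a (c * z + d)) := by
  have h1 : AnalyticAt ℂ (fun w : ℂ => w / (c + d * w)) 0 := by
    refine AnalyticAt.div (by fun_prop) (by fun_prop) ?_
    rw [mul_zero, add_zero]
    exact hc
  have h2 : MeromorphicAt (fun w => a w⁻¹) ((fun w : ℂ => w / (c + d * w)) 0) := by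
    have h5 : (fun w : ℂ => w / (c + d * w)) 0 = 0 := by simp
    rw [h5]
    exact h
  have h3 := MeromorphicAt.comp_analyticAt (f := fun w => a w⁻¹)
    (g := fun w : ℂ => w / (c + d * w)) h2 h1
  refine h3.congr ?_
  have h4 : ∀ᶠ w in 𝓝[≠] (0 : ℂ), w ≠ 0 := self_mem_nhdsWithin
  filter_upwards [h4] with w hw
  simp only [Function.comp_apply]
  congr 1
  rw [inv_div]
  field_simp

/-- functions which are meromorphic at infinity -/
def merS (ρ : ℝ) : Subalgebra ℂ (ℂ → ℂ) where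
  carrier := {a | a ∈ slimS ρ ∧ MerI a}
  mul_mem' := by
    rintro f g ⟨hf, hf'⟩ ⟨hg, hg'⟩
    exact ⟨(slimS ρ).mul_mem hf hg, MeromorphicAt.mul hf' hg'⟩
  add_mem' := by
    rintro f g ⟨hf, hf'⟩ ⟨hg, hg'⟩
    exact ⟨(slimS ρ).add_mem hf hg, MeromorphicAt.add hf' hg'⟩
  algebraMap_mem' := fun c => ⟨(slimS ρ).algebraMap_mem c, MeromorphicAt.const c 0⟩

theorem merS_le (ρ : ℝ) : merS ρ ≤ slimS ρ := fun _ h => h.1

theorem mer_mem {a : ℂ → ℂ} (h : MerI a) : ∃ R : ℝ, ∀ ρ, R ≤ ρ →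
    (∀ z : ℂ, ρ < ‖z‖ → AnalyticAt ℂ a z) ∧ a ∈ merS ρ := by
  obtain ⟨C, K, hC, hb⟩ := mero_bound h
  obtain ⟨δ, hδ, hall⟩ := ev_iff.1 (hb.and h.eventually_analyticAt)
  refine ⟨δ⁻¹, fun ρ hρ => ?_⟩
  have hPB : ∀ z : ℂ, ρ < ‖z‖ → z⁻¹ ∈ PB δ := fun z hz => inv_mem_PB hδ (hρ.trans_lt hz)
  have h0 : ∀ z : ℂ, ρ < ‖z‖ → z ≠ 0 := by
    intro z hz h1
    rw [h1, norm_zero] at hz
    have := inv_pos.2 hδ
    linarith
  have han : ∀ z : ℂ, ρ < ‖z‖ → AnalyticAt ℂ a z := by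
    intro z hz
    have h1 := (hall _ (hPB z hz)).2
    have h2 : AnalyticAt ℂ (fun z : ℂ => z⁻¹) z := analyticAt_inv (h0 z hz)
    have h3 := AnalyticAt.comp (g := fun w => a w⁻¹) (f := fun z : ℂ => z⁻¹) h1 h2
    refine h3.congr (Eventually.of_forall fun w => ?_)
    simp
  have hbd : ∀ z : ℂ, ρ < ‖z‖ → ‖a z‖ ≤ C * ‖z‖ ^ K := by
    intro z hz
    have h1 := (hall _ (hPB z hz)).1
    rw [inv_inv, norm_inv, inv_pow, ← div_eq_mul_inv, div_le_iff₀ (by
      have := norm_pos_iff.2 (h0 z hz)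
      positivity)] at h1
    exact h1
  refine ⟨han, ⟨fun z hz => han z ((show ρ < z.re from hz).trans_le (Complex.re_le_norm z)), 1,
    zero_le_one, fun ε hε => ?_⟩, h⟩
  set η := min ε 1 with hη
  have hη0 : 0 < η := lt_min hε one_pos
  refine ⟨C * (K.factorial / η ^ K), by positivity, fun z hz => ?_⟩
  refine (hbd z (by linarith [Complex.re_le_norm z])).trans ?_
  rw [mul_assoc]
  refine mul_le_mul_of_nonneg_left ?_ hC
  have h1 := Real.pow_div_factorial_le_exp (η * ‖z‖) (by positivity) K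
  have h2 : ‖z‖ ^ K ≤ K.factorial / η ^ K * Real.exp (η * ‖z‖) := by
    rw [mul_pow, div_le_iff₀ (by positivity)] at h1
    rw [div_mul_eq_mul_div, le_div_iff₀ (by positivity)]
    linarith
  refine h2.trans (mul_le_mul_of_nonneg_left (Real.exp_le_exp.2 ?_) (by positivity))
  have h3 := Complex.norm_le_abs_re_add_abs_im z
  have h4 : η ≤ 1 := min_le_right _ _
  have h5 : η ≤ ε := min_le_left _ _
  nlinarith [abs_nonneg z.re, abs_nonneg z.im]

/-- the sequence with step one tends to infinity -/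
theorem seq_inf (z0 : ℂ) : Tendsto (fun m : ℕ => (z0 + m)⁻¹) atTop (𝓝[≠] (0 : ℂ)) := by
  have h1 : Tendsto (fun m : ℕ => ‖z0 + m‖) atTop atTop := by
    refine tendsto_atTop_mono (f := fun m : ℕ => (m : ℝ) - ‖z0‖) (fun m => ?_)
      (tendsto_atTop_add_const_right _ (-‖z0‖) tendsto_natCast_atTop_atTop)
    have := norm_sub_norm_le (m : ℂ) (-z0)
    rw [norm_neg, Complex.norm_natCast, sub_neg_eq_add, add_comm (m : ℂ) z0] at this
    exact this
  rw [tendsto_nhdsWithin_iff]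
  constructor
  · rw [tendsto_zero_iff_norm_tendsto_zero]
    simp only [norm_inv]
    exact tendsto_inv_atTop_zero.comp h1
  · filter_upwards [h1.eventually_gt_atTop 0] with m hm
    exact inv_ne_zero (norm_pos_iff.1 hm)

theorem MerI.dich {a : ℂ → ℂ} (h : MerI a) (z0 : ℂ) :
    (∀ᶠ m : ℕ in atTop, a (z0 + m) = 0) ∨ ∀ᶠ m : ℕ in atTop, a (z0 + m) ≠ 0 := by
  rcases h.eventually_eq_zero_or_eventually_ne_zero with h1 | h1
  · left
    filter_upwards [(seq_inf z0).eventually h1] with m hm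
    rwa [inv_inv] at hm
  · right
    filter_upwards [(seq_inf z0).eventually h1] with m hm
    rwa [inv_inv] at hm

theorem uniqAlg {ρ : ℝ} {z0 : ℂ} (hz0 : ρ < z0.re) :
    UniqAlg (HP ρ) (fun z => z + 1) (fun m => z0 + m) (slimS ρ) (merS ρ) := by
  have huniq : ∀ a ∈ slimS ρ, (∀ᶠ m : ℕ in atTop, a (z0 + m) = 0) → ∀ x ∈ HP ρ, a x = 0 := by
    rintro a ⟨ha, A, hA, h⟩ h0 x hx
    obtain ⟨C, hC, h1⟩ := h 1 one_pos
    exact uniq_half ha (A := A) (C := C) (fun z hz => by simpa using h1 z hz) z0 h0 x hx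
  refine ⟨HP_pre ρ, fun m => ?_, fun m => ?_, fun z hz => ?_, merS_le ρ, fun a ha => ha.1,
    fun a ha => ⟨_, slim_shift ha, fun _ _ => rfl⟩, fun a ha => ⟨fun z => a (z + 1),
      ⟨slim_shift ha.1, ?_⟩, fun _ _ => rfl⟩, huniq, fun a ha => ?_⟩
  · change ρ < (z0 + m).re
    rw [Complex.add_re, Complex.natCast_re]
    have : (0 : ℝ) ≤ m := Nat.cast_nonneg m
    linarith
  · push_cast
    ring
  · have : ρ < z.re := hz
    change ρ < (z + 1).re
    rw [Complex.add_re, Complex.one_re]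
    linarith
  · have := ha.2.affine one_ne_zero 1
    simpa using this
  · rcases ha.2.dich z0 with h1 | h1
    · exact Or.inl (huniq a ha.1 h1)
    · exact Or.inr h1

end Pool.Agent.Q183.DF
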