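import Pool.Agent.TH8.QD.Trans
import Pool.Agent.TH143.Fin

/-!
Sequences of points given by linear recurrences: a quotient of forms which is transcendental over the
coefficients is not constant along all families of rational curves. In this version the sequences of
the coordinates belong to a ring of sequences modulo which there are no zero divisors; they may vanish
infinitely often.
-/

set_option autoImplicit false

namespace Pool.Agent.Q183.DF

open MvPolynomial Filter Pool.Agent.TH143 Pool.Agent.TH143.GT Pool.Agent.W602.GT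
  Pool.Agent.W603.BP Pool.Agent.W603.GR Pool.Agent.W603.BPR Pool.Agent.TH143.DE
  Pool.Agent.TH8.QD

/-- A ring of sequences, closed under the shift, without zero divisors modulo the sequences which are
zero from some index on. -/
structure DomRing (A : Subalgebra ℂ (ℕ → ℂ)) : Prop where
  shift : ∀ b ∈ A, (fun m => b (m + 1)) ∈ A
  dom : ∀ a ∈ A, ∀ b ∈ A, (∀ᶠ m in atTop, (a * b) m = 0) →
    (∀ᶠ m in atTop, a m = 0) ∨ ∀ᶠ m in atTop, b m = 0

theorem DomRing.shift' {A : Subalgebra ℂ (ℕ → ℂ)} (hA : DomRing A) {b : ℕ → ℂ} (hb : b ∈ A)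
    (s : ℕ) : (fun m => b (m + s)) ∈ A := by
  induction s with
  | zero => exact hb
  | succ s ih =>
    have := hA.shift _ ih
    have h1 : (fun m => b (m + 1 + s)) = fun m => b (m + (s + 1)) := by
      funext m
      congr 1
      ring
    rwa [h1] at this

variable {N : ℕ} {B A : Subalgebra ℂ (ℕ → ℂ)} {K : Type} [Field K] [Algebra ℂ K]
  {y : Fin (N + 1) → K} {Q : MvPolynomial (Fin (N + 1)) ℂ} {q : ℕ}

/-- **Transcendental quotients are not flat.** -/
theorem main_trans (hB : CoefField B) (hA : DomRing A) (hBA : B ≤ A) (hQe : Q.IsHomogeneous q)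
    {x : ℕ → Fin (N + 1) → ℂ}
    (hrel : ∀ G : MvPolynomial (Fin (N + 1)) ℂ, IsForm G →
      (W602.GT.val y G = 0 ↔ ∀ᶠ m in atTop, eval (x m) G = 0))
    (hxA : ∀ j, (fun m => x m j) ∈ A) (hx : ∀ j, LinRec B (fun m => x m j)) (hQ : Hyper B Q x)
    {e : ℕ} {g1 g0 : MvPolynomial (Fin (N + 1)) ℂ} (hg1 : g1.IsHomogeneous e)
    (hg0 : g0.IsHomogeneous e) (hn : W602.GT.val y g0 ≠ 0)
    (hna : ∀ (s D : ℕ) (b : ℕ → ℕ → ℂ), (∀ k, b k ∈ B) →
      (∀ᶠ m in atTop, ∑ k ∈ Finset.range (D + 1),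
        b k m * eval (x (m + s)) g1 ^ k * eval (x (m + s)) g0 ^ (D - k) = 0) →
      ∀ k ≤ D, ∀ᶠ m in atTop, b k m = 0) :
    ¬ AllFlat Q y (W602.GT.val y g1 / W602.GT.val y g0) := by
  classical
  obtain ⟨s, n, A', U, Φ, hU, hdet, hΦ⟩ := exists_sys hB (fun j m => x m j) hx
  have hpt : ∀ᶠ m in atTop, x (m + s) = pt U Φ m := by
    filter_upwards [hΦ] with m hm
    funext j
    exact hm j
  -- forms along the sequence
  have hformA : ∀ H : MvPolynomial (Fin (N + 1)) ℂ, (fun m => eval (x (m + s)) H) ∈ A :=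
    fun H => hA.shift' (eval_mem A hxA H) s
  have hmem : ∀ G : MvPolynomial (Fin (N + 1)) ℂ, IsForm G → W602.GT.val y G = 0 →
      ∀ᶠ m in atTop, eval (pt U Φ m) G = 0 := by
    intro G hG h0
    filter_upwards [eventually_shift ((hrel G hG).1 h0) s, hpt] with m h1 h2
    rw [← h2]
    exact h1
  -- the prime ideal
  let T : Submonoid (ℕ → ℂ) :=
    { carrier := {f | ∃ a ∈ A, (¬ ∀ᶠ m in atTop, a m = 0) ∧ ∀ᶠ m in atTop, f m = a m}
      mul_mem' := by
        rintro f f' ⟨a, ha, h0, h1⟩ ⟨b, hb, h0', h1'⟩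
        refine ⟨a * b, A.mul_mem ha hb, ?_, ?_⟩
        · intro h2
          rcases hA.dom a ha b hb h2 with h3 | h3
          · exact h0 h3
          · exact h0' h3
        · filter_upwards [h1, h1'] with m e1 e2
          rw [Pi.mul_apply, Pi.mul_apply, e1, e2]
      one_mem' := ⟨1, A.one_mem, fun h => by
        obtain ⟨m, hm⟩ := h.exists
        exact one_ne_zero hm, Eventually.of_forall fun _ => rfl⟩ }
  have hdisj : Disjoint (EZ : Set (ℕ → ℂ)) T := by
    rw [Set.disjoint_left]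
    rintro f hf ⟨a, ha, h0, h1⟩
    apply h0
    filter_upwards [mem_EZ.1 hf, h1] with m h2 h3
    rw [← h3, h2]
  obtain ⟨I, hIp, hI, hIT⟩ := Ideal.exists_le_prime_disjoint EZ T hdisj
  have hdom : IsDomain ((ℕ → ℂ) ⧸ I) := Ideal.Quotient.isDomain I
  -- elements of `I` that come from `A` are eventually zero
  have hIA : ∀ f ∈ I, ∀ a ∈ A, (∀ᶠ m in atTop, f m = a m) → ∀ᶠ m in atTop, a m = 0 := by
    intro f hf a ha h1
    by_contra h
    exact absurd ⟨a, ha, h, h1⟩ (Set.disjoint_left.1 hIT hf)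
  let KR := FractionRing ((ℕ → ℂ) ⧸ I)
  let a : ((ℕ → ℂ) ⧸ I) →+* KR := algebraMap _ KR
  have hinj : Function.Injective a := IsFractionRing.injective _ KR
  let z : Fin (N + 1) → KR := fun j => a (mk' I fun m => pt U Φ m j)
  have hz : ∀ G : MvPolynomial (Fin (N + 1)) ℂ, W602.GT.val z G =
      a (mk' I fun m => eval (pt U Φ m) G) := by
    intro G
    have h1 := MvPolynomial.comp_aeval_apply (f := fun j => (fun m => pt U Φ m j : ℕ → ℂ))
      ((IsScalarTower.toAlgHom ℂ ((ℕ → ℂ) ⧸ I) KR).comp (mk' I)) G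
    have h2 : (aeval (fun j => (fun m => pt U Φ m j : ℕ → ℂ)) G : ℕ → ℂ) =
        fun m => eval (pt U Φ m) G := by
      funext m
      have h7 := MvPolynomial.comp_aeval_apply (f := fun j => (fun m => pt U Φ m j : ℕ → ℂ))
        (Pi.evalAlgHom ℂ (fun _ : ℕ => ℂ) m) G
      have h8 : (aeval (fun j => (fun m => pt U Φ m j : ℕ → ℂ)) G : ℕ → ℂ) m =
        aeval (fun i => pt U Φ m i) G := h7
      rw [h8, MvPolynomial.aeval_eq_eval]
    rw [← h2]
    exact h1.symm
  have hzero : ∀ G : MvPolynomial (Fin (N + 1)) ℂ, IsForm G →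
      (W602.GT.val y G = 0 ↔ (fun m => eval (pt U Φ m) G) ∈ I) := by
    intro G hG
    constructor
    · intro h0
      exact hI (hmem G hG h0)
    · intro h0
      have h1 : ∀ᶠ m in atTop, eval (x (m + s)) G = 0 := hIA _ h0 _ (hformA G) (by
        filter_upwards [hpt] with m hm
        rw [hm])
      refine (hrel G hG).2 ?_
      obtain ⟨m0, hm0⟩ := eventually_atTop.1 h1
      refine eventually_atTop.2 ⟨m0 + s, fun m hm => ?_⟩
      have h2 := hm0 (m - s) (by omega)
      rwa [Nat.sub_add_cancel (by omega)] at h2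
  have hzn : W602.GT.val z g0 ≠ 0 := by
    intro h0
    rw [hz, map_eq_zero_iff a hinj, mk'_zero] at h0
    exact hn ((hzero g0 ⟨e, hg0⟩).2 h0)
  -- transcendence
  have htr : Transcendental (cf hB hI KR) (W602.GT.val z g1 / W602.GT.val z g0) := by
    intro halg
    obtain ⟨P, hP0, hP⟩ := halg
    apply hP0
    have hc : ∀ k, ∃ b ∈ B, ((P.coeff k : cf hB hI KR) : KR) = a (mk' I b) :=
      fun k => (P.coeff k).2
    choose b hb hbe using hc
    set D := P.natDegree with hD
    have h1 : ∑ k ∈ Finset.range (D + 1), a (mk' I (b k)) * W602.GT.val z g1 ^ k *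
        W602.GT.val z g0 ^ (D - k) = 0 := by
      have h2 : Polynomial.aeval (W602.GT.val z g1 / W602.GT.val z g0) P *
          W602.GT.val z g0 ^ D = 0 := by rw [hP, zero_mul]
      rw [Polynomial.aeval_eq_sum_range, Finset.sum_mul] at h2
      rw [← h2]
      refine Finset.sum_congr rfl fun k hk => ?_
      have hkD : k ≤ D := Nat.lt_succ_iff.1 (Finset.mem_range.1 hk)
      have h3 : P.coeff k • (W602.GT.val z g1 / W602.GT.val z g0) ^ k =
          a (mk' I (b k)) * (W602.GT.val z g1 / W602.GT.val z g0) ^ k := by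
        rw [← hbe]
        rfl
      rw [h3, div_pow]
      have h4 : W602.GT.val z g0 ^ D = W602.GT.val z g0 ^ k * W602.GT.val z g0 ^ (D - k) := by
        rw [← pow_add, Nat.add_sub_cancel' hkD]
      have h5 : W602.GT.val z g0 ^ k ≠ 0 := pow_ne_zero _ hzn
      have h6 : W602.GT.val z g1 ^ k / W602.GT.val z g0 ^ k * W602.GT.val z g0 ^ k =
        W602.GT.val z g1 ^ k := div_mul_cancel₀ _ h5
      rw [h4]
      linear_combination (-(a (mk' I (b k)) * W602.GT.val z g0 ^ (D - k))) * h6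
    have h2 : (fun m => ∑ k ∈ Finset.range (D + 1), b k m * eval (pt U Φ m) g1 ^ k *
        eval (pt U Φ m) g0 ^ (D - k)) ∈ I := by
      rw [← mk'_zero, ← map_eq_zero_iff a hinj, ← h1]
      have h3 : (fun m => ∑ k ∈ Finset.range (D + 1), b k m * eval (pt U Φ m) g1 ^ k *
          eval (pt U Φ m) g0 ^ (D - k)) = ∑ k ∈ Finset.range (D + 1), b k *
          (fun m => eval (pt U Φ m) g1) ^ k * (fun m => eval (pt U Φ m) g0) ^ (D - k) := by
        funext m
        simp only [Finset.sum_apply, Pi.mul_apply, Pi.pow_apply]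
      rw [h3]
      simp only [map_sum, map_mul, map_pow, hz]
    have h3 : (fun m => ∑ k ∈ Finset.range (D + 1), b k m * eval (x (m + s)) g1 ^ k *
        eval (x (m + s)) g0 ^ (D - k)) ∈ A := by
      have h4 : (fun m => ∑ k ∈ Finset.range (D + 1), b k m * eval (x (m + s)) g1 ^ k *
          eval (x (m + s)) g0 ^ (D - k)) = ∑ k ∈ Finset.range (D + 1), b k *
          (fun m => eval (x (m + s)) g1) ^ k * (fun m => eval (x (m + s)) g0) ^ (D - k) := by
        funext m
        simp only [Finset.sum_apply, Pi.mul_apply, Pi.pow_apply]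
      rw [h4]
      exact A.sum_mem fun k _ => A.mul_mem (A.mul_mem (hBA (hb k)) (A.pow_mem (hformA g1) k))
        (A.pow_mem (hformA g0) _)
    have h4 := hna s D b hb (hIA _ h2 _ h3 (by
      filter_upwards [hpt] with m hm
      rw [hm]))
    ext k
    rw [Polynomial.coeff_zero]
    by_cases hk : k ≤ D
    · have h5 : mk' I (b k) = 0 := mk'_zero.2 (hI (h4 k hk))
      rw [hbe, h5, map_zero]
      rfl
    · rw [Polynomial.coeff_eq_zero_of_natDegree_lt (not_le.1 hk)]
  obtain ⟨D, hD⟩ := der_of_transcendental htr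
  have hmul : ∀ u v, D (u * v) = u * D v + v * D u := fun u v => D.leibniz u v
  have hDB : ∀ b ∈ B, D (algebraMap ((ℕ → ℂ) ⧸ I) KR (cl I b)) = 0 := by
    intro b hb
    exact D.map_algebraMap (⟨_, b, hb, rfl⟩ : cf hB hI KR)
  have hDG : D (W602.GT.val z g1) * W602.GT.val z g0 -
      W602.GT.val z g1 * D (W602.GT.val z g0) ≠ 0 := by
    have h1 : W602.GT.val z g1 = (W602.GT.val z g1 / W602.GT.val z g0) * W602.GT.val z g0 :=
      (div_mul_cancel₀ _ hzn).symm
    have h2 : D (W602.GT.val z g1) = (W602.GT.val z g1 / W602.GT.val z g0) *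
        D (W602.GT.val z g0) + W602.GT.val z g0 := by
      conv_lhs => rw [h1]
      rw [hmul, hD, mul_one]
    have h3 : D (W602.GT.val z g1) * W602.GT.val z g0 -
        W602.GT.val z g1 * D (W602.GT.val z g0) = W602.GT.val z g0 ^ 2 := by
      rw [h2]
      linear_combination (-D (W602.GT.val z g0)) * h1
    rw [h3]
    exact pow_ne_zero _ hzn
  have hQ0 : ∀ᶠ m in atTop, eval (pt U Φ m) Q ≠ 0 := by
    filter_upwards [eventually_shift hQ.1 s, hpt] with m h1 h2
    rwa [← h2]
  obtain ⟨b, hbB, hb⟩ := hQ.2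
  obtain ⟨M, i1, i2, m, hm, W, hW1, hW2, ⟨c, l, hc, hcQ⟩, hN⟩ := fam_of_der hB A' U hU hdet hI D
    (fun u v => map_add D u v) hmul hDB Φ g0 g1 hg0 hg1 (by rw [hz, hz] at hDG; exact hDG) Q hQe hQ0
    ⟨_, hB.toCoefRing.shift' hbB s⟩ (by
      filter_upwards [eventually_shift hb s, hpt, eventually_shift hpt 1] with m h1 h2 h3
      rw [← h2, ← h3]
      have h4 : m + 1 + s = m + s + 1 := by ring
      rw [h4]
      exact h1)
  intro hall
  refine hN ?_
  have hF : Fam y Q W l := by
    refine ⟨fun G hG => ⟨fun h0 => ?_, fun h0 => ?_⟩, c, hc, hcQ⟩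
    · exact hW1 G hG (hmem G hG h0)
    · exact (hzero G hG).2 (hW2 G h0)
  exact hall M m W l hm hF e g1 g0 hg1 hg0 hn rfl

end Pool.Agent.Q183.DF
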