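import Pool.Agent.Q183.DF.Gm
import Pool.Agent.TH8.QD.Kod

/-!
Curves given by linear functional equations along orbits which are sets of uniqueness for an algebra
of holomorphic functions.
-/

set_option autoImplicit false

namespace Pool.Agent.Q183.DF

open MvPolynomial Filter Topology Set Metric FF Pool.Agent.TH143 Pool.Agent.TH143.GT
  Pool.Agent.W602.GT Pool.Agent.W603.BP Pool.Agent.W603.GR Pool.Agent.W603.BPR Pool.Agent.TH143.DE
  Pool.Agent.TH8.QD

/-- `F` is an algebra of holomorphic functions on `Ω` for which the orbit `z` of the map `σ` is a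
set of uniqueness: functions in `F` which vanish at `z m` for all large `m` are zero. Moreover the
functions in the subalgebra `S`, if not zero, have only finitely many zeros on the orbit. Both are
closed under composition with `σ`. -/
structure UniqAlg (Ω : Set ℂ) (σ : ℂ → ℂ) (z : ℕ → ℂ) (F S : Subalgebra ℂ (ℂ → ℂ)) : Prop where
  conn : IsPreconnected Ω
  mem : ∀ m, z m ∈ Ω
  step : ∀ m, z (m + 1) = σ (z m)
  maps : MapsTo σ Ω Ω
  le : S ≤ F
  an : ∀ a ∈ F, AnalyticOnNhd ℂ a Ω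
  compF : ∀ a ∈ F, ∃ b ∈ F, ∀ x ∈ Ω, b x = a (σ x)
  compS : ∀ a ∈ S, ∃ b ∈ S, ∀ x ∈ Ω, b x = a (σ x)
  uniq : ∀ a ∈ F, (∀ᶠ m in atTop, a (z m) = 0) → ∀ x ∈ Ω, a x = 0
  dich : ∀ a ∈ S, (∀ x ∈ Ω, a x = 0) ∨ ∀ᶠ m in atTop, a (z m) ≠ 0

variable {Ω : Set ℂ} {σ : ℂ → ℂ} {z : ℕ → ℂ} {F S : Subalgebra ℂ (ℂ → ℂ)}

theorem UniqAlg.iter (h : UniqAlg Ω σ z F S) (m k : ℕ) : z (m + k) = σ^[k] (z m) := by
  induction k with
  | zero => rfl
  | succ k ih => rw [← add_assoc, h.step, ih, Function.iterate_succ_apply']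

theorem UniqAlg.compF' (h : UniqAlg Ω σ z F S) {a : ℂ → ℂ} (ha : a ∈ F) (s : ℕ) :
    ∃ b ∈ F, ∀ x ∈ Ω, b x = a (σ^[s] x) := by
  induction s with
  | zero => exact ⟨a, ha, fun _ _ => rfl⟩
  | succ s ih =>
    obtain ⟨b, hb, hbe⟩ := ih
    obtain ⟨c, hc, hce⟩ := h.compF b hb
    refine ⟨c, hc, fun x hx => ?_⟩
    rw [hce x hx, hbe _ (h.maps hx), Function.iterate_succ_apply]

theorem UniqAlg.field (h : UniqAlg Ω σ z F S) : CoefField (fracB S z) := by
  refine ⟨⟨?_, ?_⟩, ?_⟩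
  · rintro f ⟨a, ha, b, hb, h1, h2⟩
    obtain ⟨a', ha', ea⟩ := h.compS a ha
    obtain ⟨b', hb', eb⟩ := h.compS b hb
    refine ⟨a', ha', b', hb', ?_, ?_⟩
    · filter_upwards [eventually_shift h1 1] with m hm
      rwa [eb _ (h.mem m), ← h.step]
    · filter_upwards [eventually_shift h2 1] with m hm
      rw [hm, eb _ (h.mem m), ea _ (h.mem m), ← h.step]
  · rintro f ⟨a, ha, b, hb, h1, h2⟩
    rcases h.dich a ha with h3 | h3
    · left
      filter_upwards [h2] with m hm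
      rw [hm, h3 _ (h.mem m), zero_div]
    · right
      filter_upwards [h1, h2, h3] with m e1 e2 e3
      rw [e2]
      exact div_ne_zero e3 e1
  · rintro f ⟨a, ha, b, hb, h1, h2⟩
    rcases h.dich a ha with h3 | h3
    · refine ⟨0, S.zero_mem, 1, S.one_mem, Eventually.of_forall fun m => one_ne_zero, ?_⟩
      filter_upwards [h2] with m hm
      rw [hm, h3 _ (h.mem m), zero_div, inv_zero, Pi.zero_apply, zero_div]
    · refine ⟨b, hb, a, ha, h3, ?_⟩
      filter_upwards [h2] with m hm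
      rw [hm, inv_div]

/-- the sequences `a (z m) / b (z m)`, `a ∈ F`, `b ∈ S` -/
def fracA (F S : Subalgebra ℂ (ℂ → ℂ)) (hle : S ≤ F) (z : ℕ → ℂ) : Subalgebra ℂ (ℕ → ℂ) where
  carrier := {f | ∃ a ∈ F, ∃ b ∈ S, (∀ᶠ m in atTop, b (z m) ≠ 0) ∧
    ∀ᶠ m in atTop, f m = a (z m) / b (z m)}
  mul_mem' := by
    rintro f g ⟨a, ha, b, hb, h1, h2⟩ ⟨a', ha', b', hb', h1', h2'⟩
    refine ⟨a * a', F.mul_mem ha ha', b * b', S.mul_mem hb hb', ?_, ?_⟩
    · filter_upwards [h1, h1'] with m e1 e2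
      exact mul_ne_zero e1 e2
    · filter_upwards [h2, h2'] with m e1 e2
      rw [Pi.mul_apply, e1, e2, Pi.mul_apply, Pi.mul_apply, div_mul_div_comm]
  add_mem' := by
    rintro f g ⟨a, ha, b, hb, h1, h2⟩ ⟨a', ha', b', hb', h1', h2'⟩
    refine ⟨a * b' + b * a', F.add_mem (F.mul_mem ha (hle hb')) (F.mul_mem (hle hb) ha'), b * b',
      S.mul_mem hb hb', ?_, ?_⟩
    · filter_upwards [h1, h1'] with m e1 e2
      exact mul_ne_zero e1 e2
    · filter_upwards [h1, h1', h2, h2'] with m e1 e1' e2 e2'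
      rw [Pi.add_apply, e2, e2', div_add_div _ _ e1 e1']
      rfl
  algebraMap_mem' := fun c => ⟨algebraMap ℂ _ c, F.algebraMap_mem c, 1, S.one_mem,
    Eventually.of_forall fun m => one_ne_zero, Eventually.of_forall fun m => by
      rw [Pi.one_apply, div_one]
      rfl⟩

theorem fracA_mem (hle : S ≤ F) {a : ℂ → ℂ} (ha : a ∈ F) :
    (fun m => a (z m)) ∈ fracA F S hle z :=
  ⟨a, ha, 1, S.one_mem, Eventually.of_forall fun m => one_ne_zero, Eventually.of_forall fun m => by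
    rw [Pi.one_apply, div_one]⟩

theorem UniqAlg.dom (h : UniqAlg Ω σ z F S) : DomRing (fracA F S h.le z) := by
  refine ⟨?_, ?_⟩
  · rintro f ⟨a, ha, b, hb, h1, h2⟩
    obtain ⟨a', ha', ea⟩ := h.compF a ha
    obtain ⟨b', hb', eb⟩ := h.compS b hb
    refine ⟨a', ha', b', hb', ?_, ?_⟩
    · filter_upwards [eventually_shift h1 1] with m hm
      rwa [eb _ (h.mem m), ← h.step]
    · filter_upwards [eventually_shift h2 1] with m hm
      rw [hm, eb _ (h.mem m), ea _ (h.mem m), ← h.step]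
  · rintro f ⟨a, ha, b, hb, h1, h2⟩ g ⟨a', ha', b', hb', h1', h2'⟩ h0
    have h3 : ∀ x ∈ Ω, (a * a') x = 0 := by
      refine h.uniq _ (F.mul_mem ha ha') ?_
      filter_upwards [h1, h2, h1', h2', h0] with m e1 e2 e1' e2' e0
      rw [Pi.mul_apply, e2, e2'] at e0
      rw [Pi.mul_apply]
      have e3 := mul_ne_zero e1 e1'
      rw [div_mul_div_comm, div_eq_zero_iff] at e0
      exact e0.resolve_right e3
    have h4 : (∀ x ∈ Ω, a x = 0) ∨ ∀ x ∈ Ω, a' x = 0 := by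
      have h5 := (h.an a ha).eq_zero_or_eq_zero_of_smul_eq_zero (h.an a' ha') (fun x hx => h3 x hx)
        h.conn
      exact h5
    rcases h4 with h4 | h4
    · left
      filter_upwards [h2] with m e2
      rw [e2, h4 _ (h.mem m), zero_div]
    · right
      filter_upwards [h2'] with m e2
      rw [e2, h4 _ (h.mem m), zero_div]

theorem UniqAlg.fracB_le (h : UniqAlg Ω σ z F S) : fracB S z ≤ fracA F S h.le z := by
  rintro f ⟨a, ha, b, hb, h1, h2⟩
  exact ⟨a, h.le ha, b, hb, h1, h2⟩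

/-- a functional equation along the orbit -/
theorem UniqAlg.linRec (h : UniqAlg Ω σ z F S) {g : ℂ → ℂ} (hg : FunEq Ω σ S g) :
    LinRec (fracB S z) (fun m => g (z m)) := by
  obtain ⟨r, a, ha, ⟨k, hk, x, hx, hkx⟩, h1⟩ := hg
  refine ⟨r, fun k m => a k (z m), fun k => frac_mem (ha k), ⟨k, hk, fun hev => ?_⟩,
    Eventually.of_forall fun m => ?_⟩
  · exact hkx (h.uniq _ (h.le (ha k)) hev x hx)
  · have := h1 (z m) (h.mem m)
    simpa only [h.iter] using this

variable {N : ℕ} {K : Type} [Field K] [Algebra ℂ K] {w : ℕ} {y : Fin (N + 1) → K}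
  {Q : MvPolynomial (Fin (N + 1)) ℂ} {e : ℕ} {f : ℂ → Fin (N + 1) → ℂ}

theorem form_mem (hf : ∀ j, (fun x => f x j) ∈ F) (G : MvPolynomial (Fin (N + 1)) ℂ) :
    (fun x => eval (f x) G) ∈ F := by
  induction G using MvPolynomial.induction_on with
  | C a =>
    have h : (fun x => eval (f x) (C a : MvPolynomial (Fin (N + 1)) ℂ)) =
        algebraMap ℂ (ℂ → ℂ) a := by
      funext m
      rw [eval_C]
      rfl
    rw [h]
    exact F.algebraMap_mem a
  | add P R hP hR =>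
    have h : (fun x => eval (f x) (P + R)) = (fun x => eval (f x) P) + fun x => eval (f x) R := by
      funext m
      rw [map_add]
      rfl
    rw [h]
    exact F.add_mem hP hR
  | mul_X P i hP =>
    have h : (fun x => eval (f x) (P * X i)) = (fun x => eval (f x) P) * fun x => f x i := by
      funext m
      rw [map_mul, eval_X]
      rfl
    rw [h]
    exact F.mul_mem hP (hf i)

/-- `Q` along the orbit satisfies a recurrence of order one -/
def HypOrb (S : Subalgebra ℂ (ℂ → ℂ)) (z : ℕ → ℂ) (g : ℂ → ℂ) : Prop :=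
  Hyper (fracB S z) (X 0 : MvPolynomial (Fin 1) ℂ) (fun m _ => g (z m))

/-- algebraic relations along the orbit give algebraic relations of functions -/
theorem UniqAlg.alg (h : UniqAlg Ω σ z F S) {u v : ℂ → ℂ} (hu : u ∈ F) (hv : v ∈ F)
    (hcon : ∀ s : ℕ, ¬ AlgQ Ω S (fun x => u (σ^[s] x)) (fun x => v (σ^[s] x))) (s D : ℕ)
    (b : ℕ → ℕ → ℂ) (hb : ∀ k, b k ∈ fracB S z)
    (hrel : ∀ᶠ m in atTop, ∑ k ∈ Finset.range (D + 1),
        b k m * u (z (m + s)) ^ k * v (z (m + s)) ^ (D - k) = 0) :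
    ∀ k ≤ D, ∀ᶠ m in atTop, b k m = 0 := by
  classical
  choose α hα β hβ hβ0 hbe using hb
  set c : ℕ → ℂ → ℂ := fun k => α k * ∏ l ∈ (Finset.range (D + 1)).erase k, β l with hc
  have hcS : ∀ k, c k ∈ S := fun k => S.mul_mem (hα k) (S.prod_mem fun l _ => hβ l)
  have hce : ∀ k x, c k x = α k x * ∏ l ∈ (Finset.range (D + 1)).erase k, β l x := by
    intro k x
    rw [hc]
    simp only [Pi.mul_apply, Finset.prod_apply]
  have hβall : ∀ᶠ m : ℕ in atTop, ∀ k ∈ Finset.range (D + 1), β k (z m) ≠ 0 := by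
    rw [Filter.eventually_all_finset]
    intro k _
    exact hβ0 k
  have hball : ∀ᶠ m : ℕ in atTop, ∀ k ∈ Finset.range (D + 1), b k m = α k (z m) / β k (z m) := by
    rw [Filter.eventually_all_finset]
    intro k _
    exact hbe k
  obtain ⟨u', hu', hue⟩ := h.compF' hu s
  obtain ⟨v', hv', hve⟩ := h.compF' hv s
  have hvF : (∑ k ∈ Finset.range (D + 1), c k * u' ^ k * v' ^ (D - k)) ∈ F :=
    F.sum_mem fun k _ => F.mul_mem (F.mul_mem (h.le (hcS k)) (F.pow_mem hu' k)) (F.pow_mem hv' _)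
  have hval : ∀ x ∈ Ω, (∑ k ∈ Finset.range (D + 1), c k * u' ^ k * v' ^ (D - k)) x =
      ∑ k ∈ Finset.range (D + 1), c k x * u (σ^[s] x) ^ k * v (σ^[s] x) ^ (D - k) := by
    intro x hx
    rw [Finset.sum_apply]
    refine Finset.sum_congr rfl fun k _ => ?_
    rw [Pi.mul_apply, Pi.mul_apply, Pi.pow_apply, Pi.pow_apply, hue x hx, hve x hx]
  have hv0 : ∀ᶠ m : ℕ in atTop,
      (∑ k ∈ Finset.range (D + 1), c k * u' ^ k * v' ^ (D - k)) (z m) = 0 := by
    filter_upwards [hrel, hβall, hball] with m h1 h2 h3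
    rw [hval _ (h.mem m), ← h.iter]
    have h5 : ∑ k ∈ Finset.range (D + 1), c k (z m) * u (z (m + s)) ^ k * v (z (m + s)) ^ (D - k) =
        (∏ l ∈ Finset.range (D + 1), β l (z m)) * ∑ k ∈ Finset.range (D + 1), b k m *
        u (z (m + s)) ^ k * v (z (m + s)) ^ (D - k) := by
      rw [Finset.mul_sum]
      refine Finset.sum_congr rfl fun k hk => ?_
      rw [hce, ← Finset.mul_prod_erase _ _ hk, h3 k hk]
      have := h2 k hk
      field_simp
    rw [h5, h1, mul_zero]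
  have hzero := h.uniq _ hvF hv0
  have hc0 : ∀ k ≤ D, ∀ x ∈ Ω, c k x = 0 := by
    by_contra h1
    push Not at h1
    exact hcon s ⟨D, c, hcS, h1, fun x hx => by rw [← hval x hx]; exact hzero x hx⟩
  intro k hk
  have hk' : k ∈ Finset.range (D + 1) := Finset.mem_range.2 (Nat.lt_succ_of_le hk)
  filter_upwards [hβall, hball] with m h2 h3
  rw [h3 k hk']
  have h4 := hc0 k hk (z m) (h.mem m)
  rw [hce] at h4
  have h5 : ∏ l ∈ (Finset.range (D + 1)).erase k, β l (z m) ≠ 0 :=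
    Finset.prod_ne_zero_iff.2 fun l hl => h2 l (Finset.mem_of_mem_erase hl)
  rw [(mul_eq_zero.1 h4).resolve_right h5, zero_div]

/-- **Flat quotients are algebraic.** -/
theorem UniqAlg.flat (h : UniqAlg Ω σ z F S) (hf : ∀ j, (fun x => f x j) ∈ F)
    (hy : GenPt f Ω K w y) (hfe : ∀ j, FunEq Ω σ S (fun z => f z j)) (hQe : Q.IsHomogeneous e)
    (hQ : Hyper (fracB S z) Q (fun m => f (z m)))
    {D : ℕ} {g0 g1 : MvPolynomial (Fin (N + 1)) ℂ} (hg0 : g0.IsHomogeneous D)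
    (hg1 : g1.IsHomogeneous D) (hn : W602.GT.val y g0 ≠ 0)
    (hall : AllFlat Q y (W602.GT.val y g1 / W602.GT.val y g0)) :
    ∃ s : ℕ, AlgQ Ω S (fun x => eval (f (σ^[s] x)) g1) (fun x => eval (f (σ^[s] x)) g0) := by
  by_contra hcon
  push Not at hcon
  refine main_trans (x := fun m => f (z m)) h.field h.dom h.fracB_le hQe ?_ ?_ ?_ hQ hg1
    hg0 hn ?_ hall
  · intro G hG
    rw [hy.rel G hG]
    exact ⟨fun h0 => Eventually.of_forall fun m => h0 _ (h.mem m),
      fun h0 => h.uniq _ (form_mem hf G) h0⟩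
  · intro j
    exact fracA_mem h.le (hf j)
  · intro j
    exact h.linRec (hfe j)
  · intro s D' b hb hrel
    exact h.alg (form_mem hf g1) (form_mem hf g0) hcon s D' b hb hrel

/-- **Morphisms from the multiplicative group.** -/
theorem UniqAlg.gm (h : UniqAlg Ω σ z F S) {ι : Type} (Fs : ι → MvPolynomial (Fin (N + 1)) ℂ)
    (hFs : ∀ i, ∃ d, (Fs i).IsHomogeneous d) (hf : ∀ j, (fun x => f x j) ∈ F)
    (hne : ∀ x ∈ Ω, f x ≠ 0) (hX : ∀ x ∈ Ω, ∀ i, eval (f x) (Fs i) = 0)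
    (hfe : ∀ j, FunEq Ω σ S (fun z => f z j)) (hQe : Q.IsHomogeneous e)
    (hQ : Hyper (fracB S z) Q (fun m => f (z m))) {j k : Fin (N + 1)} (hk : ∃ x ∈ Ω, f x k ≠ 0)
    (hna : ∀ s : ℕ, ¬ AlgQ Ω S (fun x => f (σ^[s] x) j) (fun x => f (σ^[s] x) k)) :
    (∃ᶠ m in atTop, ∃ P, (∀ t, ∃ j, (P j).eval t ≠ 0) ∧ IsGmCurve Fs Q P ∧
      Through P (f (z m))) ∧
    ∀ G : MvPolynomial (Fin (N + 1)) ℂ, IsForm G →
      (∀ P, IsGmCurve Fs Q P → ∀ t, t ≠ 0 → eval (fun j => (P j).eval t) G = 0) →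
      ∀ x ∈ Ω, eval (f x) G = 0 := by
  obtain ⟨h1, h2⟩ := gm_trans (x := fun m => f (z m)) (j1 := j) (j0 := k) h.field h.dom h.fracB_le
    Fs hFs hQe (Eventually.of_forall fun m => hne _ (h.mem m))
    (fun i => Eventually.of_forall fun m => hX _ (h.mem m) i) (fun j => fracA_mem h.le (hf j))
    (fun j => h.linRec (hfe j)) hQ (fun h0 => by
      obtain ⟨x, hx, hxk⟩ := hk
      exact hxk (h.uniq _ (hf k) h0 x hx)) (fun s D b hb hrel => h.alg (hf j) (hf k) hna s D b hb hrel)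
  exact ⟨h1, fun G hG hGP x hx => h.uniq _ (form_mem hf G) (h2 G hG hGP) x hx⟩

/-- **Curves given by functional equations.** -/
theorem UniqAlg.gen {p : Ideal (MvPolynomial (Fin (N + 1)) ℂ)} (h : UniqAlg Ω σ z F S)
    (hy : FunField p 1 K w y)
    (hf : ∀ j, (fun x => f x j) ∈ F) (hX : ∀ z ∈ Ω, ∀ H ∈ p, eval (f z) H = 0)
    (hfe : ∀ j, FunEq Ω σ S (fun z => f z j)) (hd : ZDense p f Ω) {j k : Fin (N + 1)}
    (hk : ∃ z ∈ Ω, f z k ≠ 0)
    (hna : ∀ s : ℕ, ¬ AlgQ Ω S (fun x => f (σ^[s] x) j) (fun x => f (σ^[s] x) k)) :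
    Covered K ∧ ∀ n, 0 < n → ∀ ω : (Fin w → Derivation ℂ K K) → K, Pluricanonical w n ω → ω = 0 := by
  have hgp : GenPt f Ω K w y := hy.genPt hX hd
  have hyk : y k ≠ 0 := by
    intro h0
    obtain ⟨z, hz, hzk⟩ := hk
    apply hzk
    have := (hgp.rel (X k) ⟨1, isHomogeneous_X _ _⟩).1 (by rw [val_X]; exact h0) z hz
    rwa [eval_X] at this
  have hr : ¬ AllFlat 1 y (y j / y k) := by
    intro hall
    obtain ⟨s, hs⟩ := h.flat hf hgp hfe (isHomogeneous_one _ _)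
      ⟨Eventually.of_forall fun m => by rw [map_one]; exact one_ne_zero, 1,
        (fracB S _).one_mem, Eventually.of_forall fun m => by simp⟩
      (isHomogeneous_X ℂ k) (isHomogeneous_X ℂ j) (by rw [val_X]; exact hyk)
      (by rw [val_X, val_X]; exact hall)
    apply hna s
    simpa only [eval_X] using hs
  exact ⟨covered' hy hr, fun n hn ω hω => sec_zero' hy hr hn hω⟩

end Pool.Agent.Q183.DF
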